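import Pool.Agent.P.MP_9cbceb_lc.Q.DA
import Pool.Agent.P.MP_9cbceb_lc.Pick

/-! The abstract averaging argument. -/

namespace Pool.Agent.P.MP_9cbceb_lc.Q

open Finset
open scoped BigOperators

theorem abs_ite {p : Prop} (d1 d2 : Decidable p) (x y : ℝ) :
    @ite _ p d1 x y = @ite _ p d2 x y := by
  rw [Subsingleton.elim d1 d2]

theorem abs_prod {Ω Ξ : Type} [Fintype Ω] [Fintype Ξ] (f : Ω → Ξ → ℝ) :
    𝔼 p : Ω × Ξ, f p.1 p.2 = 𝔼 W, 𝔼 ξ, f W ξ := by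
  rw [← univ_product_univ, expect_product']

theorem abs_rows {ι Q : Type} [Fintype ι] [DecidableEq ι] [Fintype Q] (row : Q → ι) (f : Q → ℝ) :
    ∑ a, ∑ c ∈ rowS row a, f c = ∑ c, f c := sum_fiberwise univ row f

/-- A heavy coordinate of the row `a`, if there is one. -/
noncomputable def absPhi {ι Q : Type} [Nonempty Q] (row : Q → ι) (θ : ℝ) (a : ι) (Ψ' : Q → ℝ) :
    Q := Classical.epsilon fun c => row c = a ∧ θ / 4 ≤ |Ψ' c|

open Classical in
theorem abs_point (h1 : RowSt) (h2 : CliqSt) {ι Q : Type} [Fintype Q] [DecidableEq Q]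
    [DecidableEq ι] [Nonempty Q] (row : Q → ι) (Cl : Q → Q → Prop) (B : Finset ι) (Ψ : Q → ℝ)
    (Ψ' : ι → Q → ℝ) (θ : ℝ) (r : ℕ) (hθ : 0 < θ) (hr : 16 ≤ θ * r) (hCl : ∀ c, Cl c c) :
    ∑ a ∈ B, ∑ c ∈ rowS row a, Ψ c ^ 2 ≤ θ * #B + 2 * r +
      (4 + 128 * #B / θ ^ 2) * (∑ a ∈ B, ∑ c ∈ rowS row a, (Ψ c - Ψ' a c) ^ 2) +
      2 * #B * (∑ a ∈ B, ∑ a' ∈ B.erase a,
        if row (absPhi row θ a (Ψ' a)) = a ∧ row (absPhi row θ a' (Ψ' a')) = a' ∧
          ¬ Cl (absPhi row θ a (Ψ' a)) (absPhi row θ a' (Ψ' a')) then (1 : ℝ) else 0) +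
      2 * #B * 2 ^ r * (∑ t : Fin r → Q, if ∀ c ∈ image t univ, ∀ c' ∈ image t univ, Cl c c' then
        zdef (image t univ) Ψ else 0) +
      (2 + 2 * 2 ^ r) * ∑ a ∈ B, zdef (rowS row a) Ψ := by
  have k2 := h2 ι Q row Cl B (fun a => ∃ c ∈ rowS row a, θ / 4 ≤ |Ψ' a c|)
    (fun a => absPhi row θ a (Ψ' a)) Ψ Ψ' θ r hθ hr hCl fun a _ ⟨c, hc, hc'⟩ =>
      Classical.epsilon_spec (p := fun c => row c = a ∧ θ / 4 ≤ |Ψ' a c|)
        ⟨c, (mem_filter.1 hc).2, hc'⟩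
  have k1 : ∑ a ∈ B, ∑ c ∈ rowS row a, Ψ c ^ 2 ≤ ∑ a ∈ B,
      (θ + 4 * ∑ c ∈ rowS row a, (Ψ c - Ψ' a c) ^ 2 +
        2 * (@ite _ (∃ c ∈ rowS row a, θ / 4 ≤ |Ψ' a c|) (Classical.propDecidable _) 1 0) +
        (2 + 2 * 2 ^ r) * zdef (rowS row a) Ψ) := sum_le_sum fun a _ => by
    have h := (h1 Q (rowS row a) Ψ θ r hθ hr).1 (Ψ' a)
    rwa [abs_ite _ (Classical.propDecidable _)] at h
  rw [sum_add_distrib, sum_add_distrib, sum_add_distrib, ← mul_sum, ← mul_sum, ← mul_sum,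
    sum_const, nsmul_eq_mul] at k1
  beta_reduce at k2
  have e : ∀ x y w : ℝ, 2 * ((r : ℝ) + #B * (x + 64 / θ ^ 2 * y + 2 ^ r * w)) =
      2 * r + 128 * #B / θ ^ 2 * y + 2 * #B * x + 2 * #B * 2 ^ r * w := fun x y w => by ring
  have k3 := mul_le_mul_of_nonneg_left k2 (show (0 : ℝ) ≤ 2 by norm_num)
  rw [e] at k3
  linarith

theorem abs_ok (h1 : RowSt) (h2 : CliqSt) : AbsSt := by
  intro Ω Ξ ι Q _ _ _ _ _ _ _ _ _ m n r e row Cl Ψ ΨR θ ε τ z hm hn hθ hr hrm hε hτ hz hme hτ' hz'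
    hCl hZ hT hE hP
  have : Nonempty (Fin n) := ⟨⟨0, hn⟩⟩
  have hn' : (0 : ℝ) < n := by exact_mod_cast hn
  have hm' : (0 : ℝ) < m := by exact_mod_cast hm
  set F : Finset ι → Ω × Ξ → ι → ℝ := fun R p a =>
    ∑ c ∈ rowS row a, (Ψ p.1 p.2 c - ΨR R p.1 p.2 c) ^ 2 with hF
  have key : ∀ B : Finset ι, #B = m →
      𝔼 p : Ω × Ξ, ∑ a ∈ B, ∑ c ∈ rowS row a, Ψ p.1 p.2 c ^ 2 ≤ 3 * θ * m +
        (4 + 128 * m / θ ^ 2) * 𝔼 p : Ω × Ξ, ∑ a ∈ B, F (B.erase a) p a := by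
    intro B hB
    have k1 := expect_le_expect (s := univ) fun (p : Ω × Ξ) _ =>
      abs_point h1 h2 row (Cl p.1) B (Ψ p.1 p.2) (fun a => ΨR (B.erase a) p.1 p.2) θ r hθ hr
        (hCl p.1)
    rw [hB] at k1
    simp only [expect_add_distrib, ← mul_expect, Fintype.expect_const] at k1
    refine k1.trans ?_
    have a1 : 𝔼 p : Ω × Ξ, ∑ a ∈ B, zdef (rowS row a) (Ψ p.1 p.2) ≤ m * z := by
      rw [expect_sum_comm, ← hB, ← nsmul_eq_mul]
      refine sum_le_card_nsmul _ _ _ fun a _ => ?_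
      rw [abs_prod fun W ξ => zdef (rowS row a) (Ψ W ξ)]
      exact hZ a
    have fin : ∀ x y w u : ℝ, x ≤ m * (m * ε) → y ≤ (Fintype.card Q : ℝ) ^ r * z → w ≤ m * z →
        θ * m + 2 * r + u + 2 * m * x + 2 * m * 2 ^ r * y + (2 + 2 * 2 ^ r) * w ≤
          3 * θ * m + u := by
      intro x y w u hx hy hw
      have q1 : (1 : ℝ) ≤ (Fintype.card Q : ℝ) ^ r :=
        one_le_pow₀ (Nat.one_le_cast.2 Fintype.card_pos)
      have q2 : (1 : ℝ) ≤ 2 ^ r := one_le_pow₀ one_le_two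
      rw [mul_pow] at hz'
      generalize (Fintype.card Q : ℝ) ^ r = A at *
      generalize (2 : ℝ) ^ r = D at *
      have b1 : 2 * m * x ≤ 2 * m * (m * (m * ε)) := by gcongr
      have b2 : 2 * m * D * y ≤ 2 * m * D * (A * z) := by gcongr
      have b3 : (2 + 2 * D) * w ≤ (2 + 2 * D) * (m * z) := by gcongr
      have b4 : D ≤ D * A := le_mul_of_one_le_right (by linarith) q1
      have b5 : (2 + 2 * D) * (m * z) ≤ 4 * (D * A) * (m * z) := by
        gcongr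
        linarith
      have b6 := mul_le_mul_of_nonneg_left hz' hm'.le
      have b7 := mul_le_mul_of_nonneg_left hme hm'.le
      nlinarith
    refine fin _ _ _ _ ?_ ?_ a1
    · rw [expect_sum_comm, ← hB, ← nsmul_eq_mul]
      refine sum_le_card_nsmul _ _ _ fun a ha => ?_
      rw [expect_sum_comm]
      refine (sum_le_card_nsmul _ _ ε fun a' ha' => ?_).trans ?_
      · have hne : a' ≠ a := (mem_erase.1 ha').1
        rw [← univ_product_univ, expect_product, expect_comm]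
        refine expect_le univ_nonempty fun ξ _ => ?_
        refine le_of_eq_of_le ?_ (hP ξ (B.erase a) (B.erase a') a a' (absPhi row θ a)
          (absPhi row θ a') hne.symm ha' (mem_erase.2 ⟨hne.symm, ha⟩))
        exact expect_congr rfl fun W _ => abs_ite _ _ _ _
      · rw [nsmul_eq_mul]
        exact mul_le_mul_of_nonneg_right (Nat.cast_le.2 card_erase_le) hε
    · rw [expect_sum_comm]
      refine (sum_le_card_nsmul _ _ z fun t _ => ?_).trans_eq ?_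
      · refine le_of_eq_of_le ?_ (hT t)
        rw [← univ_product_univ, expect_product]
        refine expect_congr rfl fun W _ => ?_
        by_cases h : ∀ c ∈ image t univ, ∀ c' ∈ image t univ, Cl W c c'
        · rw [if_pos h]
          exact expect_congr rfl fun ξ _ => if_pos h
        · rw [if_neg h]
          exact expect_eq_zero fun ξ _ => if_neg h
      · rw [nsmul_eq_mul, card_univ, Fintype.card_fun, Fintype.card_fin, Nat.cast_pow]
  have k2 := expect_le_expect (s := univ) fun (s : Fin m → Fin n) _ =>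
    key (pickB e s) (pick_card e s)
  rw [expect_add_distrib, Fintype.expect_const, ← mul_expect, expect_comm,
    expect_comm (s := univ) (t := univ) (f := fun (s : Fin m → Fin n) (p : Ω × Ξ) =>
      ∑ a ∈ pickB e s, F ((pickB e s).erase a) p a)] at k2
  have k3 : 𝔼 p : Ω × Ξ, 𝔼 s : Fin m → Fin n, ∑ a ∈ pickB e s, F ((pickB e s).erase a) p a ≤
      m * (τ / n) := by
    simp only [fun p s => pick_sum e s fun R a => F R p a]
    refine pick_avg2 hn e F τ (fun R p a => sum_nonneg fun _ _ => sq_nonneg _) fun R hR => ?_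
    simp only [hF, abs_rows]
    rw [abs_prod fun W ξ => ∑ c, (Ψ W ξ c - ΨR R W ξ c) ^ 2]
    exact hE R hR
  have k4 : 𝔼 p : Ω × Ξ, 𝔼 s : Fin m → Fin n, ∑ a ∈ pickB e s, ∑ c ∈ rowS row a,
      Ψ p.1 p.2 c ^ 2 = (𝔼 W, 𝔼 ξ, ∑ c, Ψ W ξ c ^ 2) / n := by
    rw [← abs_prod fun W ξ => ∑ c, Ψ W ξ c ^ 2, expect_div]
    refine expect_congr rfl fun p _ => ?_
    rw [← abs_rows row, ← pick_avg1 hn e fun a => ∑ c ∈ rowS row a, Ψ p.1 p.2 c ^ 2]
    exact expect_congr rfl fun s _ =>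
      pick_sum e s fun _ a => ∑ c ∈ rowS row a, Ψ p.1 p.2 c ^ 2
  rw [k4, div_le_iff₀ hn'] at k2
  refine k2.trans ?_
  have k5 := mul_le_mul_of_nonneg_left k3 (show (0 : ℝ) ≤ 4 + 128 * m / θ ^ 2 by positivity)
  have k6 := mul_le_mul_of_nonneg_left hτ' hm'.le
  rw [← mul_assoc (4 * θ)]
  refine mul_le_mul_of_nonneg_right ?_ hn'.le
  nlinarith [mul_pos hθ hm']

end Pool.Agent.P.MP_9cbceb_lc.Q
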