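import Pool.Agent.P.MP_9cbceb_lc.Q.DA
import Pool.Agent.P.MP_9cbceb_lc.Cube

/-! The level-one coefficients of the smoothed functions control the spread. -/

namespace Pool.Agent.P.MP_9cbceb_lc.Q

open Finset
open scoped BigOperators

theorem ana_sq {α : Type} [Fintype α] [Nonempty α] (f : α → ℝ) :
    (𝔼 a, f a) ^ 2 ≤ 𝔼 a, f a ^ 2 := by
  have h0 : 0 ≤ 𝔼 a, (f a - 𝔼 b, f b) ^ 2 := expect_nonneg fun _ _ => sq_nonneg _
  have h1 : ∀ a, (f a - 𝔼 b, f b) ^ 2 = f a ^ 2 - 2 * (𝔼 b, f b) * f a + (𝔼 b, f b) ^ 2 :=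
    fun a => by ring
  simp only [h1, expect_add_distrib, expect_sub_distrib, ← mul_expect, Fintype.expect_const] at h0
  linarith

theorem ana_jensen {α : Type} [Fintype α] [Nonempty α] (f : α → ℝ) :
    dfc (𝔼 a, f a) ≤ 𝔼 a, dfc (f a) := by
  refine le_trans ?_ (ana_sq fun a => max (|f a| - 1) 0)
  have h0 : 0 ≤ 𝔼 a, max (|f a| - 1) 0 := expect_nonneg fun _ _ => le_max_right _ _
  have h1 : 𝔼 a, (f a - 1) ≤ 𝔼 a, max (|f a| - 1) 0 := expect_le_expect fun a _ =>
    le_trans (by linarith [le_abs_self (f a)]) (le_max_left _ _)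
  have h2 : 𝔼 a, (-f a - 1) ≤ 𝔼 a, max (|f a| - 1) 0 := expect_le_expect fun a _ =>
    le_trans (by linarith [neg_abs_le (f a)]) (le_max_left _ _)
  rw [expect_sub_distrib, Fintype.expect_const] at h1 h2
  rw [expect_neg_distrib] at h2
  refine pow_le_pow_left₀ (le_max_right _ _) (max_le ?_ h0) 2
  rcases abs_cases (𝔼 a, f a) with h | h <;> linarith [h.1]

theorem ana_dfc (x : ℝ) : x ^ 2 ≤ 2 + 2 * dfc x := by
  unfold dfc
  have h1 := le_max_left (|x| - 1) 0
  have h2 := le_max_right (|x| - 1) 0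
  have h3 := abs_nonneg x
  rw [← sq_abs]
  nlinarith [sq_nonneg (max (|x| - 1) 0 - 1)]

theorem ana_split (η a1 a2 r1 r2 : ℝ) : dfc (η + (a1 - a2) / 2 - (r1 - r2) / 2) ≤
    3 * η ^ 2 + 3 / 2 * dfc a1 + 3 / 2 * dfc a2 + 3 / 2 * r1 ^ 2 + 3 / 2 * r2 ^ 2 := by
  unfold dfc
  have h1 := le_max_left (|a1| - 1) 0
  have h2 := le_max_right (|a1| - 1) 0
  have h3 := le_max_left (|a2| - 1) 0
  have h4 := le_max_right (|a2| - 1) 0
  have h5 := abs_nonneg η
  have h6 := abs_nonneg r1
  have h7 := abs_nonneg r2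
  have h8 : max (|η + (a1 - a2) / 2 - (r1 - r2) / 2| - 1) 0 ≤
      |η| + (max (|a1| - 1) 0 + max (|a2| - 1) 0) / 2 + (|r1| + |r2|) / 2 := by
    refine max_le ?_ (by linarith)
    have : |η + (a1 - a2) / 2 - (r1 - r2) / 2| ≤ |η| + (|a1| + |a2|) / 2 + (|r1| + |r2|) / 2 :=
      abs_le.2 ⟨by linarith [neg_abs_le η, neg_abs_le a1, le_abs_self a2, le_abs_self r1,
          neg_abs_le r2],
        by linarith [le_abs_self η, le_abs_self a1, neg_abs_le a2, neg_abs_le r1,
          le_abs_self r2]⟩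
    linarith
  refine (pow_le_pow_left₀ (le_max_right _ _) h8 2).trans ?_
  rw [← sq_abs η, ← sq_abs r1, ← sq_abs r2]
  generalize max (|a1| - 1) 0 = u, max (|a2| - 1) 0 = v, |η| = e, |r1| = p, |r2| = q
  nlinarith [sq_nonneg (u - v), sq_nonneg (p - q), sq_nonneg (e - (u + v) / 2),
    sq_nonneg (e - (p + q) / 2), sq_nonneg ((u + v) / 2 - (p + q) / 2)]

section

variable {Q : Type} [Fintype Q] [DecidableEq Q] {H : ℕ}

theorem ana_key (G : Tor Q H → ℝ) (s : Tor Q H) :
    ((𝔼 β : Q → Bool, G (s + bv H β) ^ 2) - (𝔼 β : Q → Bool, G (s + bv H β)) ^ 2 ≤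
      ∑ c, cor G s c ^ 2 + 𝔼 β, rem G s β ^ 2) ∧
    ∑ c, (cor G s c - dif c G s / 2) ^ 2 ≤ 𝔼 β, rem G s β ^ 2 := by
  have h := cube_ident (fun β => G (s + bv H β)) (G s + ∑ c, dif c G s / 2) fun c => dif c G s / 2
  have h1 := (cube_ok Q fun β => G (s + bv H β)).1
  have h2 : ∀ β, G (s + bv H β) - (G s + ∑ c, dif c G s / 2) - ∑ c, dif c G s / 2 * chi (β c) =
      rem G s β := fun β => by
    have h3 : ∑ c, (if β c then dif c G s else 0) =
        ∑ c, dif c G s / 2 + ∑ c, dif c G s / 2 * chi (β c) := by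
      rw [← sum_add_distrib]
      exact sum_congr rfl fun c _ => by cases β c <;> simp [chi]
    unfold rem
    rw [h3]
    ring
  simp only [h2] at h
  have h3 : 0 ≤ ∑ c, (cor G s c - dif c G s / 2) ^ 2 := sum_nonneg fun _ _ => sq_nonneg _
  have h4 := sq_nonneg (G s + ∑ c, dif c G s / 2 - 𝔼 β : Q → Bool, G (s + bv H β))
  unfold cor at h3 ⊢
  constructor <;> linarith

theorem ana_orth (A : Finset Q) (t : Q → ℝ) :
    𝔼 β : Q → Bool, (∑ c ∈ A, t c * chi (β c)) ^ 2 ≤ ∑ c, t c ^ 2 := by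
  have h := cube_ident (Q := Q) (fun _ => 0) 0 fun c => if c ∈ A then t c else 0
  simp only [sub_self, zero_sub, even_two, Even.neg_pow, ite_mul, zero_mul, sum_ite_mem,
    univ_inter, Fintype.expect_const, ne_eq, OfNat.ofNat_ne_zero, not_false_eq_true, zero_pow,
    sum_const_zero, zero_add] at h
  rw [h]
  refine sum_le_sum fun c _ => ?_
  split_ifs
  · exact le_rfl
  · simpa using sq_nonneg (t c)

theorem ana_eq (G : Tor Q H → ℝ) (s : Tor Q H) (A : Finset Q) (β : Q → Bool) :
    ∑ c ∈ A, cor G s c * chi (β c) = ∑ c ∈ A, (cor G s c - dif c G s / 2) * chi (β c) +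
      ((G (s + bv H (res A β)) - G s) - (G (s + bv H (res A fun c => !β c)) - G s)) / 2 -
      (rem G s (res A β) - rem G s (res A fun c => !β c)) / 2 := by
  have h1 : ∑ c, (if res A β c then dif c G s else 0) -
      ∑ c, (if res A (fun c => !β c) c then dif c G s else 0) =
      2 * ∑ c ∈ A, dif c G s / 2 * chi (β c) := by
    rw [← sum_sub_distrib, mul_sum, ← univ_inter A, ← sum_ite_mem]
    refine sum_congr rfl fun c _ => ?_
    by_cases hc : c ∈ A <;> cases h : β c <;> simp [res, chi, hc, h] <;> ring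
  simp only [sub_mul, sum_sub_distrib]
  unfold rem
  linarith

theorem ana_zdef (G : Tor Q H → ℝ) (s : Tor Q H) (A : Finset Q) :
    zdef A (cor G s) ≤ 3 * (𝔼 β, rem G s β ^ 2) +
      3 * (𝔼 β, dfc (G (s + bv H (res A β)) - G s)) + 3 * 𝔼 β, rem G s (res A β) ^ 2 := by
  have hi : Function.Involutive fun (β : Q → Bool) c => !β c := fun β => by simp
  have e1 : 𝔼 β : Q → Bool, dfc (G (s + bv H (res A fun c => !β c)) - G s) =
      𝔼 β, dfc (G (s + bv H (res A β)) - G s) :=
    Fintype.expect_bijective _ hi.bijective _ _ fun _ => rfl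
  have e2 : 𝔼 β : Q → Bool, rem G s (res A fun c => !β c) ^ 2 = 𝔼 β, rem G s (res A β) ^ 2 :=
    Fintype.expect_bijective _ hi.bijective _ _ fun _ => rfl
  have h1 := ana_orth A fun c => cor G s c - dif c G s / 2
  have h2 := (ana_key G s).2
  have h3 : zdef A (cor G s) ≤ 𝔼 β : Q → Bool,
      (3 * (∑ c ∈ A, (cor G s c - dif c G s / 2) * chi (β c)) ^ 2 +
        3 / 2 * dfc (G (s + bv H (res A β)) - G s) +
        3 / 2 * dfc (G (s + bv H (res A fun c => !β c)) - G s) +
        3 / 2 * rem G s (res A β) ^ 2 + 3 / 2 * rem G s (res A fun c => !β c) ^ 2) :=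
    expect_le_expect fun β _ => by
      rw [ana_eq]
      exact ana_split _ _ _ _ _
  simp only [expect_add_distrib, ← mul_expect, e1, e2] at h3
  linarith

theorem ana_shift (F : Tor Q H → ℝ) (x : Tor Q H) (j : ℕ) :
    (fun s => (top^[j] F) (s + x) - (top^[j] F) s) = top^[j] fun s => F (s + x) - F s := by
  induction j with
  | zero => rfl
  | succ j ih =>
    rw [Function.iterate_succ_apply', Function.iterate_succ_apply', ← ih]
    funext s
    simp only [top, expect_sub_distrib, add_right_comm s x]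

variable [NeZero H]

theorem ana_top (g : Tor Q H → ℝ) (j : ℕ) : 𝔼 s, dfc ((top^[j] g) s) ≤ 𝔼 s, dfc (g s) := by
  induction j with
  | zero => exact le_rfl
  | succ j ih =>
    rw [Function.iterate_succ_apply']
    refine le_trans (expect_le_expect fun s _ => ana_jensen fun β => (top^[j] g) (s + bv H β)) ?_
    rw [expect_comm]
    refine expect_le univ_nonempty fun β _ => le_trans (le_of_eq ?_) ih
    exact Fintype.expect_equiv (Equiv.addRight (bv H β)) _ _ fun _ => rfl

theorem ana_three (F : Tor Q H → ℝ) (c : Q) : nrm (dif c F) ≤ 2 + 4 * mdef F {c} := by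
  have h1 : ∀ s, 𝔼 β : Q → Bool, dfc (F (s + bv H (res {c} β)) - F s) = dfc (dif c F s) / 2 :=
    fun s => by
    have h2 : ∀ β : Q → Bool, dfc (F (s + bv H (res {c} β)) - F s) =
        dfc (dif c F s) / 2 + dfc (dif c F s) / 2 * chi (β c) := fun β => by
      cases h : β c
      · have : bv H (res {c} β) = 0 := funext fun c' => by
          by_cases e : c' = c <;> simp [bv, res, e, h]
        simp [this, dfc, chi]
      · have : bv H (res {c} β) = Pi.single c 1 := funext fun c' => by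
          by_cases e : c' = c <;> simp [bv, res, e, h]
        simp [this, dif, chi]
    have h3 : 𝔼 β : Q → Bool, chi (β c) = 0 := cube_odd _ c fun β => by
      rw [Function.update_self, cube_not]
    simp only [h2, expect_add_distrib, ← mul_expect, h3, Fintype.expect_const, mul_zero, add_zero]
  have h4 : nrm (dif c F) ≤ 𝔼 s, (2 + 4 * (dfc (dif c F s) / 2)) :=
    expect_le_expect fun s _ => by linarith [ana_dfc (dif c F s)]
  unfold mdef
  simpa only [h1, expect_add_distrib, ← mul_expect, Fintype.expect_const] using h4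

end

theorem ana_ok (h1 : TeleSt) (h2 : RemSt) : AnaSt := by
  intro Q _ _ H _ K hK F
  have : Nonempty (Fin K) := ⟨⟨0, hK⟩⟩
  have hr : ∀ ρ : (Q → Bool) → Q → Bool, 𝔼 ξ : Fin K × Tor Q H, 𝔼 β : Q → Bool,
      rem (top^[ξ.1] F) ξ.2 (ρ β) ^ 2 ≤ err K F := fun ρ => by
    rw [expect_comm]
    exact expect_le univ_nonempty fun β _ => h2 Q H K hK F (ρ β)
  refine ⟨((h1 Q H K hK).2.2 F).trans (mul_le_mul_of_nonneg_left ?_ (by positivity)),
    fun A => ?_, ana_three F⟩
  · refine (expect_le_expect fun ξ _ => (ana_key (top^[ξ.1] F) ξ.2).1).trans ?_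
    rw [expect_add_distrib]
    exact add_le_add le_rfl (hr fun β => β)
  · have h3 : 𝔼 ξ : Fin K × Tor Q H, 𝔼 β : Q → Bool,
        dfc ((top^[ξ.1] F) (ξ.2 + bv H (res A β)) - (top^[ξ.1] F) ξ.2) ≤ mdef F A := by
      unfold mdef
      rw [expect_comm, expect_comm (s := (univ : Finset (Tor Q H)))]
      refine expect_le_expect fun β _ => ?_
      rw [← univ_product_univ, expect_product]
      refine expect_le univ_nonempty fun j _ => ?_
      have h4 := ana_top (fun s => F (s + bv H (res A β)) - F s) j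
      rwa [← ana_shift] at h4
    refine (expect_le_expect fun ξ _ => ana_zdef (top^[ξ.1] F) ξ.2 A).trans ?_
    simp only [expect_add_distrib, ← mul_expect]
    linarith [hr fun β => β, hr (res A)]

end Pool.Agent.P.MP_9cbceb_lc.Q
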