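import Pool.Agent.P.MP_9cbceb_lc.Q.Tools

/-! Both cases for the base instance. -/

namespace Pool.Agent.P.MP_9cbceb_lc.Q

open Pool.Agent.Lib.helper21 Finset
open scoped BigOperators

theorem base2_coord (q N : ℕ) (hN : 0 < N) (I : Ins2) (a : Fin N) (f : Fin N → ℕ)
    (hf : ∀ p, f p < q) :
    ∃ c, (gad q N hN I).row c = a ∧ ∀ p, (gad q N hN I).lab c p = f p := by
  let v : Fin (q ^ N) := finFunctionFinEquiv fun p => (⟨f p, hf p⟩ : Fin q)
  have h1 : (a : ℕ) + N * (v : ℕ) < N * q ^ N := by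
    have h2 := Nat.mul_le_mul_left N (Nat.succ_le_of_lt v.2)
    have h3 := a.2
    rw [Nat.mul_succ] at h2
    omega
  refine ⟨⟨a + N * v, h1⟩, Fin.ext ?_, fun p => ?_⟩
  · show ((a : ℕ) + N * (v : ℕ)) % N = a
    rw [Nat.add_mul_mod_self_left, Nat.mod_eq_of_lt a.2]
  · show ((a : ℕ) + N * (v : ℕ)) / N / q ^ (p : ℕ) % q = f p
    rw [Nat.add_mul_div_left _ _ hN, Nat.div_eq_of_lt a.2, zero_add,
      ← finFunctionFinEquiv_symm_apply_val v p]
    simp [v]

theorem base2_c1 {m y J u : ℝ} (hm : 0 < m) (hy : 0 < y) (hJ : 0 < J) (hu : 0 < u)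
    (h : 2048 * u ^ 2 * (4 + 128 * m * u ^ 4) * m ≤ y ^ 2) :
    (4 + 128 * m / (1 / u ^ 2) ^ 2) * ((2 * m * (16 * J)) ^ 2 / J ^ 2 / (m * y ^ 2)) ≤
      1 / u ^ 2 / 2 := by
  have e : (4 + 128 * m / (1 / u ^ 2) ^ 2) * ((2 * m * (16 * J)) ^ 2 / J ^ 2 / (m * y ^ 2)) =
      (2048 * u ^ 2 * (4 + 128 * m * u ^ 4) * m) / y ^ 2 * (1 / u ^ 2 / 2) := by
    field_simp
    ring
  rw [e]
  exact mul_le_of_le_one_left (by positivity) ((div_le_one (by positivity)).2 h)

theorem base2_c2 {P n J u w : ℝ} (hP : 0 ≤ P) (hJ : 0 < J) (hu : 0 < u) (hw : 0 < w)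
    (h1 : 72 * u ^ 2 * P ≤ w) (h2 : 48 * w * n ≤ J) :
    6 * P * (3 * (1 / w) + 144 * n / J) ≤ 1 / u ^ 2 / 2 := by
  have a1 : 144 * n / J ≤ 3 * (1 / w) := by
    rw [mul_one_div, div_le_div_iff₀ hJ hw]
    nlinarith
  have a2 : 6 * P * (6 * (1 / w)) = (72 * u ^ 2 * P) / w * (1 / u ^ 2 / 2) := by
    field_simp
    ring
  calc _ ≤ 6 * P * (6 * (1 / w)) := mul_le_mul_of_nonneg_left (by linarith) (by positivity)
    _ ≤ _ := by
      rw [a2]
      exact mul_le_of_le_one_left (by positivity) ((div_le_one hw).2 h1)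

theorem base2_ok (h1 : HonSt) (h2 : Core2St) (h3 : BaseNo2St) (h4 : MargSt) (h5 : BaseYes2St)
    (h6 : Conc2St) : Base2St := by
  obtain ⟨n0, hn0, hH⟩ := h1
  refine ⟨n0, hn0, fun I q m y r J u w ε hI hq hm hy hJ hu hw c1 c2 hε c3 c4 c5 c6 B hB => ?_⟩
  have hN : 0 < (m * y) ^ 2 := by positivity
  have hs : √(((m * y) ^ 2 : ℕ) : ℝ) = m * y := by
    push_cast
    exact Real.sqrt_sq (by positivity)
  have eqv : Fin m × Fin (m * y ^ 2) ≃ Fin ((m * y) ^ 2) :=
    finProdFinEquiv.trans (finCongr (by ring))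
  generalize (m * y) ^ 2 = N at *
  have hn : 0 < N * q ^ N := by positivity
  have : NeZero (16 * J) := ⟨by omega⟩
  have : Nonempty (Fin I.length) := ⟨⟨0, List.length_pos_iff.2 hI⟩⟩
  have : Nonempty (Fin N) := ⟨⟨0, hN⟩⟩
  have : Nonempty (Fin (N * q ^ N)) := ⟨⟨0, hn⟩⟩
  obtain ⟨nm, nm0, nm1, e1, e2, hcnt, hC⟩ := h6 I q N r (16 * J) (J ^ 2) hN
  rw [← hB] at e1 e2 hcnt hC
  clear hB
  have hn0' : (0 : ℝ) < n0 := by exact_mod_cast hn0
  have hm' : (0 : ℝ) < m := by exact_mod_cast hm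
  have hy' : (0 : ℝ) < y := by exact_mod_cast hy
  have hJ' : (0 : ℝ) < J := by exact_mod_cast hJ
  have hu' : (0 : ℝ) < u := by exact_mod_cast hu
  have hw' : (0 : ℝ) < w := by exact_mod_cast hw
  refine ⟨by rw [e1]; exact Nat.mul_pos (by norm_num) Fintype.card_pos,
    by rw [e2]; exact Fintype.card_pos, ?_, fun hno => ?_⟩
  · rintro ⟨l1, l2, hl⟩
    obtain ⟨C, C0, C1, cap, dem⟩ := h5 _ _ _ _ (gad q N hN I) (16 * J) (J ^ 2) r
      (m * y * J / n0) (fun x => l1 x % q) (fun x => l2 x % q) (fun e => by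
        have h := hl e
        have h' : relL q I[e] (l1 ((gm q I).v e)) (l2 ((gm q I).u e)) = true := h
        simp only [relL, Bool.and_eq_true, decide_eq_true_eq] at h'
        show (gm q I).R e (l1 ((gm q I).v e) % q) (l2 ((gm q I).u e) % q) = true
        rw [Nat.mod_eq_of_lt h'.1.1, Nat.mod_eq_of_lt h'.1.2]
        exact h)
      (fun a x => base2_coord q N hN I a _ fun p => by
        split_ifs <;> exact Nat.mod_lt _ hq)
      (fun hc hinj => by
        have := hH J (16 * J) rfl _ _ hc hinj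
        rw [Fintype.card_fin, hs] at this
        rw [div_le_iff₀ hn0']
        linarith)
    rw [Fintype.card_fin] at C1 cap dem
    obtain ⟨S, S0, S1, a1, a2⟩ := hC C C0 C1
    refine ⟨S, S0, S1, by rw [a1, cap, e1], ?_⟩
    rw [← a2, ← e2, div_mul_eq_mul_div, div_le_iff₀ hn0'] at dem
    rw [mul_comm n0]
    exact_mod_cast dem
  · let τ0 : Ty (Fin N) (Fin (N * q ^ N)) r (16 * J) :=
      (true, true, ⟨0, hN⟩, fun _ => ⟨0, hn⟩, fun _ => true, ⟨0, by omega⟩)
    have hmarg := h4 _ _ _ _ (gad q N hN I) (16 * J) (J ^ 2) r τ0 rfl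
    have hw1 : (1 : ℝ) / w ≤ 1 := by
      rw [div_le_one hw']
      exact_mod_cast hw
    have hcore := h2 _ _ _ _ (gad q N hN I) (16 * J) (J ^ 2) m (m * y ^ 2) r eqv (1 / u ^ 2) ε
      (1 / w) hm (by positivity) (by positivity) (by positivity)
      (by
        rw [one_div_mul_eq_div, le_div_iff₀ (by positivity)]
        exact_mod_cast c1)
      (by
        rw [one_div_mul_eq_div, le_div_iff₀ (by positivity)]
        exact_mod_cast c2)
      hε (by rwa [le_div_iff₀ (by positivity)]) (by positivity) hw1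
      (by
        push_cast
        exact base2_c1 hm' hy' hJ' hu' (by exact_mod_cast c4))
      (by
        rw [Fintype.card_fin]
        exact base2_c2 (by positivity) (by positivity) hu' hw' (by exact_mod_cast c5)
          (by exact_mod_cast c6))
      hno
    have hsq : 4 * √(1 / (u : ℝ) ^ 2 * (m * ((m * y ^ 2 : ℕ) : ℝ)) * ((J ^ 2 : ℕ) : ℝ)) =
        4 * (m * y * J) / u := by
      have : 1 / (u : ℝ) ^ 2 * (m * ((m * y ^ 2 : ℕ) : ℝ)) * ((J ^ 2 : ℕ) : ℝ) =
          (m * y * J / u) ^ 2 := by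
        push_cast
        field_simp
      rw [this, Real.sqrt_sq (by positivity)]
      ring
    rw [hsq] at hcore
    have hno2 := h3 _ _ _ _ (N * (16 * J) + 1) ((gad q N hN I).p1 (r := r)) (gad q N hN I).p2
      ((gad q N hN I).d1 (K := J ^ 2)) (gad q N hN I).d2 τ0 (4 * (m * y * J) / u) (1 / w)
      (by omega) (by positivity) hw1 (by positivity) (fun φ => (hmarg φ).1)
      (fun φ => (hmarg φ).2) hcore
    have hT : (tysL N (N * q ^ N) r (16 * J)).length =
        Fintype.card (Ty (Fin N) (Fin (N * q ^ N)) r (16 * J)) := by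
      rw [tysL_length]
      simp only [Fintype.card_prod, Fintype.card_bool, Fintype.card_fin, Fintype.card_fun]
      ring
    have hY : (0 : ℝ) < Fintype.card (Ys (Fin I.length) (Fin N) (Fin (N * q ^ N)) (16 * J)) := by
      exact_mod_cast Fintype.card_pos
    rw [← e1, ← e2] at hno2
    refine ⟨3 * ((N * (16 * J) + 1 : ℕ) : ℝ) ^ 2 * B.2.2.2 / (1 / w *
      Fintype.card (Ys (Fin I.length) (Fin N) (Fin (N * q ^ N)) (16 * J))), by positivity, ?_,
      fun S hS => ?_, fun S hS => ?_⟩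
    · rw [e1, hT, Fintype.card_prod]
      generalize Fintype.card (Ty (Fin N) (Fin (N * q ^ N)) r (16 * J)) = t
      generalize Fintype.card (Ys (Fin I.length) (Fin N) (Fin (N * q ^ N)) (16 * J)) = s at hY
      apply le_of_eq
      push_cast
      field_simp
      ring
    · have := (hno2 (fun x i => S (nm x i)) (S 0) (S 1) (fun x => by rw [nm0])
        (fun x => by rw [nm1])).1 hS
      rwa [← (hcnt S).1, ← (hcnt S).2] at this
    · have := (hno2 (fun x i => S (nm x i)) (S 0) (S 1) (fun x => by rw [nm0])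
        (fun x => by rw [nm1])).2 hS
      rwa [← (hcnt S).1, ← (hcnt S).2] at this

end Pool.Agent.P.MP_9cbceb_lc.Q
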