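import Pool.Agent.P.MP_9cbceb_lc.Q.Tools

/-! The base instance is computed within the time budget. -/

namespace Pool.Agent.P.MP_9cbceb_lc.Q

open Pool.Agent.Lib.helper21 Pool.Agent.Lib.helper26

section

variable {α : Type} [Enc α] {N n q H L a j c c' p : α → ℕ} {pq pw s A X : α → List ℕ}
  {W : α → Ins2} {R : α → List Bool}

@[fun_prop] theorem basegp_rel {e : α → Cn} (h1 : PT q) (h2 : PT e) (h3 : PT a) (h4 : PT c) :
    PT fun x => relL (q x) (e x) (a x) (c x) := by
  unfold relL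
  fun_prop

@[fun_prop] theorem basegp_vw (h1 : PT N) (h2 : PT W) : PT fun x => vwL (N x) (W x) := by
  unfold vwL
  fun_prop

@[fun_prop] theorem basegp_mk (h1 : PT N) (h2 : PT R) (h3 : PT X) :
    PT fun x => mkL (N x) (R x) (X x) := by
  unfold mkL
  fun_prop

@[fun_prop] theorem basegp_lab (h1 : PT N) (h2 : PT q) (h3 : PT pq) (h4 : PT c) (h5 : PT p) :
    PT fun x => labL (N x) (q x) (pq x) (c x) (p x) := by
  unfold labL
  fun_prop

attribute [local irreducible] relL vwL mkL labL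

@[fun_prop] theorem basegp_cl (h1 : PT N) (h2 : PT q) (h3 : PT pq) (h4 : PT W) (h5 : PT c)
    (h6 : PT c') : PT fun x => clL (N x) (q x) (pq x) (W x) (c x) (c' x) := by
  unfold clL
  fun_prop

@[fun_prop] theorem basegp_mov {τ : α → TyL} (h1 : PT N) (h2 : PT n) (h3 : PT τ) :
    PT fun x => movL (N x) (n x) (τ x) := by
  unfold movL
  fun_prop

@[fun_prop] theorem basegp_add (h1 : PT H) (h2 : PT n) (h3 : PT s) (h4 : PT A) (h5 : PT R) :
    PT fun x => addL (H x) (n x) (s x) (A x) (R x) := by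
  unfold addL
  fun_prop

@[fun_prop] theorem basegp_shr (h1 : PT N) (h2 : PT n) (h3 : PT R) (h4 : PT a) (h5 : PT j)
    (h6 : PT s) : PT fun x => shrL (N x) (n x) (R x) (a x) (j x) (s x) := by
  unfold shrL
  fun_prop

@[fun_prop] theorem basegp_ins (h1 : PT N) (h2 : PT R) (h3 : PT a) :
    PT fun x => insL (N x) (R x) (a x) := by
  unfold insL
  fun_prop

@[fun_prop] theorem basegp_wk {ω : α → List (List Bool)} (h1 : PT H) (h2 : PT n) (h3 : PT s)
    (h4 : PT ω) : PT fun x => wkL (H x) (n x) (s x) (ω x) := by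
  unfold wkL
  fun_prop

attribute [local irreducible] clL movL addL shrL insL wkL cod prd

@[fun_prop] theorem basegp_p1 {z : α → TyL × YsL} (h1 : PT N) (h2 : PT n) (h3 : PT z) :
    PT fun x => p1L (N x) (n x) (z x) := by
  unfold p1L
  fun_prop

@[fun_prop] theorem basegp_p2 {z : α → TyL × YsL} (h1 : PT N) (h2 : PT n) (h3 : PT q) (h4 : PT H)
    (h5 : PT pq) (h6 : PT z) : PT fun x => p2L (N x) (n x) (q x) (H x) (pq x) (z x) := by
  unfold p2L
  fun_prop

@[fun_prop] theorem basegp_d1 {z : α → DsL} (h1 : PT N) (h2 : PT n) (h3 : PT H) (h4 : PT z) :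
    PT fun x => d1L (N x) (n x) (H x) (z x) := by
  unfold d1L
  fun_prop

@[fun_prop] theorem basegp_d2 {z : α → DsL} (h1 : PT N) (h2 : PT n) (h3 : PT H) (h4 : PT z) :
    PT fun x => d2L (N x) (n x) (H x) (z x) := by
  unfold d2L
  fun_prop

@[fun_prop] theorem basegp_nm {z : α → PtL} (h1 : PT pw) (h2 : PT L) (h3 : PT z) (h4 : PT j) :
    PT fun x => nmL (pw x) (L x) (z x) (j x) := by
  unfold nmL
  fun_prop

attribute [local irreducible] p1L p2L d1L d2L nmL

@[fun_prop] theorem basegp_arc {y z : α → PtL} (h1 : PT pw) (h2 : PT L) (h3 : PT y) (h4 : PT z) :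
    PT fun x => arcL (pw x) (L x) (y x) (z x) := by
  unfold arcL
  fun_prop

end

attribute [local irreducible] p1L p2L d1L d2L nmL arcL prd

/-- the polynomial-time part -/
def basegp_F (u : (ℕ × ℕ × ℕ × ℕ) × (List ℕ × List ℕ) × List TyL × List YsL × List DsL) :
    Prs × Prs × ℕ × ℕ :=
  ((prd u.2.2.1 u.2.2.2.1).flatMap fun z =>
      arcL u.2.1.2 (u.1.1 * u.1.2.2.2 + 1) (p1L u.1.1 u.1.2.1 z)
        (p2L u.1.1 u.1.2.1 u.1.2.2.1 u.1.2.2.2 u.2.1.1 z),
    u.2.2.2.2.flatMap fun d => (List.range (u.1.1 * u.1.2.2.2 + 1)).map fun i =>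
      (nmL u.2.1.2 (u.1.1 * u.1.2.2.2 + 1) (d1L u.1.1 u.1.2.1 u.1.2.2.2 d) i,
        nmL u.2.1.2 (u.1.1 * u.1.2.2.2 + 1) (d2L u.1.1 u.1.2.1 u.1.2.2.2 d) i),
    4 * (prd u.2.2.1 u.2.2.2.1).length, u.2.2.2.2.length)

theorem basegp_PT : PT basegp_F := by
  unfold basegp_F
  fun_prop

theorem basegp_prd {α β γ : Type} [Enc α] [Enc β] [Enc γ] {e : α → ℕ} {f : α → List β}
    {g : α → List γ} (hf : GP e f) (hg : GP e g) : GP e fun a => prd (f a) (g a) :=
  GP.pt2 (g := prd) (by fun_prop) hf hg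

theorem basegp_range {α : Type} [Enc α] {e f : α → ℕ} (hf : GP e f) :
    GP e fun a => List.range (f a) := GP.pt (g := List.range) (PT.range PT.id) hf

theorem baseGP_ok : BaseGPSt := by
  intro α _ e q N r H K I hI hq hN hr hH hK bN br bK bn
  have hn : GP e fun a => N a * q a ^ N a := hN.mul (hq.pow hN bN)
  have hB : GP e fun _ => [true, false] := GP.const _
  have hW := hI.tup (hN.mul hN) (bN.mul bN)
  have hS := (basegp_range hH).tup hn bn
  have hb := hB.tup hn bn
  have hs : GP e fun a => sz (I a) := GP.pt (g := sz) (PT.size PT.id) hI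
  have hp : GP e fun a => pwL (I a) (N a) (N a * q a ^ N a) (H a) :=
    GP.pows ((hs.add hH).add ((hN.mul hH).add (GP.const 1))) (((hN.mul hN).add hn).add (GP.const 1))
      (((bN.mul bN).add bn).add (Bd.const _ _))
  have h1 : GP e fun a => tysL (N a) (N a * q a ^ N a) (r a) (H a) :=
    basegp_prd hB (basegp_prd hB (basegp_prd (basegp_range hN)
      (basegp_prd ((basegp_range hn).tup hr br) (basegp_prd (hB.tup hN bN) (basegp_range hH)))))
  have h2 : GP e fun a => ysL (I a) (N a) (N a * q a ^ N a) (H a) :=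
    basegp_prd hW (basegp_prd hS hb)
  have h3 : GP e fun a => dsL (I a) (N a) (N a * q a ^ N a) (H a) (K a) :=
    basegp_prd hW (basegp_prd hS (basegp_prd (hb.tup hK bK) (hb.tup hK bK)))
  exact GP.pt basegp_PT ((hN.pair (hn.pair (hq.pair hH))).pair
    (((hq.pows hN bN).pair hp).pair (h1.pair (h2.pair h3))))

end Pool.Agent.P.MP_9cbceb_lc.Q
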