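import Pool.Agent.P.MP_9cbceb_lc.Q.DA
import Pool.Agent.P.MP_9cbceb_lc.Layer
import Pool.Agent.P.MP_9cbceb_lc.BaseN

/-! The base instance in the negative case, quantitative form. -/

namespace Pool.Agent.P.MP_9cbceb_lc.Q

open Finset
open scoped BigOperators

theorem basen2_ht {L : ℕ} (hL : 0 < L) (u v : ℕ → Bool) :
    #{i ∈ Ico 1 L | v i = true} ≤
      #{i ∈ Ico 1 L | u i = true} + 1 + ∑ i ∈ range L, bk (u i) (v (i + 1)) := by
  rw [card_filter, card_filter]
  have h1 := sum_eq_sum_Ico_succ_bot hL fun i => if u i = true then 1 else 0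
  have h2 := sum_eq_sum_Ico_succ_bot hL fun i => if v i = true then 1 else 0
  have h3 := sum_range_succ' (fun i => if v i = true then 1 else 0) L
  have h4 := sum_range_succ (fun i => if v i = true then 1 else 0) L
  have h5 : ∑ i ∈ range L, (if v (i + 1) = true then 1 else 0) ≤
      ∑ i ∈ range L, ((if u i = true then 1 else 0) + bk (u i) (v (i + 1))) :=
    sum_le_sum fun i _ => by cases u i <;> cases v (i + 1) <;> simp [bk]
  have h6 : (if u 0 = true then 1 else 0) ≤ 1 := by split_ifs <;> omega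
  rw [sum_add_distrib] at h5
  rw [← range_eq_Ico, zero_add] at h1 h2
  omega

theorem basen2_dfc {a b k L : ℕ} (ha : a ≤ L) (hb : b ≤ L) (h1 : a ≤ b + 1 + k)
    (h2 : b ≤ a + 1 + k) : dfc ((a : ℝ) - b) ≤ L * k := by
  have a1 : (a : ℝ) ≤ L := by exact_mod_cast ha
  have a2 : (b : ℝ) ≤ L := by exact_mod_cast hb
  have a3 : (a : ℝ) ≤ b + 1 + k := by exact_mod_cast h1
  have a4 : (b : ℝ) ≤ a + 1 + k := by exact_mod_cast h2
  have a5 : (0 : ℝ) ≤ a := Nat.cast_nonneg _
  have a6 : (0 : ℝ) ≤ b := Nat.cast_nonneg _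
  have b1 : |(a : ℝ) - b| ≤ L := abs_le.2 ⟨by linarith, by linarith⟩
  have b2 : |(a : ℝ) - b| ≤ 1 + k := abs_le.2 ⟨by linarith, by linarith⟩
  unfold dfc
  rw [pow_two]
  exact mul_le_mul (max_le (by linarith) (Nat.cast_nonneg _))
    (max_le (by linarith) (Nat.cast_nonneg _)) (le_max_right _ _) (Nat.cast_nonneg _)

section

variable {T Y D X : Type} [Fintype T] [Fintype Y] [Fintype D] {L : ℕ} {P P' : T × Y → X}
  {d1 d2 : D → X} {τ0 : T} {η μ : ℝ}

omit [Fintype T] [Fintype Y] in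
theorem basen2_arc (hL : 0 < L) (S : X → ℕ → Bool) (z : T × Y) :
    dfc ((ht L S (P z) : ℝ) - ht L S (P' z)) ≤ L * arcs bk L P P' S z := by
  have h0 : ∀ x, ht L S x ≤ L := fun x =>
    (card_filter_le _ _).trans (by rw [Nat.card_Ico]; omega)
  have h1 := basen2_ht hL (S (P z)) (S (P' z))
  have h2 := basen2_ht hL (S (P' z)) (S (P z))
  refine basen2_dfc (h0 _) (h0 _) ?_ ?_ <;> unfold ht arcs <;> simp only [sum_add_distrib] <;> omega

theorem basen2_slice (τ : T) (φ : Y → ℝ) (ψ : T × Y → ℝ) (h0 : ∀ z, 0 ≤ ψ z)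
    (h : ∀ y, φ y ≤ ψ (τ, y)) : 𝔼 y, φ y ≤ (∑ z, ψ z) / Fintype.card Y := by
  rw [Fintype.expect_eq_sum_div_card, Fintype.sum_prod_type]
  refine div_le_div_of_nonneg_right ((sum_le_sum fun y _ => h y).trans ?_) (Nat.cast_nonneg _)
  exact single_le_sum (f := fun t => ∑ y, ψ (t, y)) (fun t _ => sum_nonneg fun y _ => h0 _)
    (mem_univ τ)

theorem basen2_sum [Nonempty D] {f : D → ℝ} {c : ℝ} (h : 𝔼 d, f d ≤ c) :
    ∑ d, f d ≤ c * Fintype.card D := by
  rwa [Fintype.expect_eq_sum_div_card, div_le_iff₀ (by exact_mod_cast Fintype.card_pos)] at h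

theorem basen2_fin {a x c m l : ℝ} (hl : 1 ≤ l) (hm : 0 < m) (hm1 : m ≤ 1) (hc : 0 ≤ c)
    (h : x ≤ a + 2 * l * c) : x ≤ a + 3 * l ^ 2 * c / m := by
  have h1 : 2 * l * c ≤ 3 * l ^ 2 * c / m := by
    rw [le_div_iff₀ hm]
    have h2 : 0 ≤ l * c := by positivity
    have h3 : l * c * m ≤ l * c := mul_le_of_le_one_right h2 hm1
    have h4 : l * c ≤ l * c * l := le_mul_of_one_le_right h2 hl
    nlinarith
  linarith

theorem basen2_same [Nonempty D] (hL : 0 < L) (hμ : 0 < μ) (hμ1 : μ ≤ 1)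
    (m1 : ∀ φ : X → ℝ, 𝔼 d, φ (d1 d) = 𝔼 y, φ (P (τ0, y)))
    (m2 : ∀ φ : X → ℝ, 𝔼 d, φ (d2 d) = 𝔼 y, φ (P (τ0, y))) (S : X → ℕ → Bool)
    (h0 : ∀ x, S x 0 = false) (h1 : ∀ x, S x L = false) : demF L d1 d2 S ≤
      3 * L ^ 2 * Fintype.card D / (μ * Fintype.card Y) * (capF L P P' S : ℝ) := by
  have h2 := (layer_ok _ _ L P P' S hL).2.1 h0 h1
  have h3 : ∀ i < L, 𝔼 y, (if S (P (τ0, y)) i = true then (1 : ℝ) else 0) ≤
      capF L P P' S / Fintype.card Y := fun i hi => by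
    refine (basen2_slice τ0 _ (fun z => if S (P z) i = true then (1 : ℝ) else 0)
      (fun z => by split_ifs <;> norm_num) fun _ => le_rfl).trans ?_
    refine div_le_div_of_nonneg_right ?_ (Nat.cast_nonneg _)
    have := h2 i hi
    rw [card_filter] at this
    exact_mod_cast this
  have h4 : (demF L d1 d2 S : ℝ) ≤
      ∑ _i ∈ range L, 2 * (capF L P P' S / Fintype.card Y * Fintype.card D : ℝ) := by
    unfold demF
    rw [sum_comm, Nat.cast_sum]
    refine sum_le_sum fun i hi => ?_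
    have a1 := basen2_sum ((m1 fun x => if S x i = true then (1 : ℝ) else 0).trans_le
      (h3 i (mem_range.1 hi)))
    have a2 := basen2_sum ((m2 fun x => if S x i = true then (1 : ℝ) else 0).trans_le
      (h3 i (mem_range.1 hi)))
    have a3 : ((∑ d, sep (S (d1 d) i) (S (d2 d) i) : ℕ) : ℝ) ≤
        ∑ d, ((if S (d1 d) i = true then (1 : ℝ) else 0) + if S (d2 d) i = true then 1 else 0) := by
      rw [Nat.cast_sum]
      exact sum_le_sum fun d _ => by exact_mod_cast basen_sep_le_add _ _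
    rw [sum_add_distrib] at a3
    linarith
  rw [sum_const, card_range, nsmul_eq_mul] at h4
  refine (basen2_fin (a := 0) (c := capF L P P' S / Fintype.card Y * Fintype.card D)
    (Nat.one_le_cast.2 hL) hμ hμ1 (by positivity) (by linarith)).trans_eq ?_
  rw [← div_div]
  ring

open Classical in
theorem basen2_diff [Nonempty Y] [Nonempty D] (hL : 0 < L) (hμ : 0 < μ) (hμ1 : μ ≤ 1) (hη : 0 ≤ η)
    (m1 : ∀ φ : X → ℝ, 𝔼 d, φ (d1 d) = 𝔼 y, φ (P (τ0, y)))
    (m2 : ∀ φ : X → ℝ, 𝔼 d, φ (d2 d) = 𝔼 y, φ (P (τ0, y)))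
    (hc : ∀ G : X → ℝ, (∀ τ, 𝔼 y, dfc (G (P (τ, y)) - G (P' (τ, y))) ≤ μ) →
      𝔼 d, |G (d1 d) - G (d2 d)| ≤ η) (S : X → ℕ → Bool)
    (h0 : ∀ x, S x 0 = true) (h1 : ∀ x, S x L = false) :
    4 * Fintype.card (T × Y) ≤ capF L P P' S ∧ demF L d1 d2 S ≤ η * Fintype.card D +
      3 * L ^ 2 * Fintype.card D / (μ * Fintype.card Y) *
        (capF L P P' S - (4 * Fintype.card (T × Y) : ℕ)) := by
  obtain ⟨h2, h3⟩ := (layer_ok _ _ L P P' S hL).1 h0 h1
  refine ⟨by omega, ?_⟩
  have hY : (0 : ℝ) < Fintype.card Y := by exact_mod_cast Fintype.card_pos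
  have hD : (0 : ℝ) ≤ Fintype.card D := Nat.cast_nonneg _
  have hl : (1 : ℝ) ≤ L := Nat.one_le_cast.2 hL
  have hb : (backF L P P' S : ℝ) = ∑ z, (arcs bk L P P' S z : ℝ) := Nat.cast_sum _ _
  have e : 3 * (L : ℝ) ^ 2 * Fintype.card D / (μ * Fintype.card Y) *
      (capF L P P' S - (4 * Fintype.card (T × Y) : ℕ)) =
      2 * (3 * (L : ℝ) ^ 2 * (backF L P P' S / Fintype.card Y * Fintype.card D) / μ) := by
    rw [h2, Nat.cast_add, Nat.cast_mul 2, Nat.cast_ofNat, ← div_div]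
    ring
  rw [e]
  have c0 : (0 : ℝ) ≤ backF L P P' S / Fintype.card Y * Fintype.card D := by positivity
  have c1 : (0 : ℝ) ≤ 3 * (L : ℝ) ^ 2 * (backF L P P' S / Fintype.card Y * Fintype.card D) / μ := by
    positivity
  have sl : ∀ d, ((∑ i ∈ range L, sep (S (d1 d) i) (S (d2 d) i) : ℕ) : ℝ) ≤ L := fun d => by
    have := sum_le_card_nsmul (range L) _ 1 fun i _ => basen_sep_le_one (S (d1 d) i) (S (d2 d) i)
    rw [card_range, smul_eq_mul, mul_one] at this
    exact_mod_cast this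
  by_cases hcase : L * (backF L P P' S / Fintype.card Y : ℝ) ≤ μ
  · have a1 := basen2_sum (hc (fun x => ht L S x) fun τ => by
      refine (basen2_slice τ _ (fun z => L * (arcs bk L P P' S z : ℝ)) (fun z => by positivity)
        fun y => basen2_arc hL S (τ, y)).trans ?_
      rwa [← mul_sum, ← hb, mul_div_assoc])
    let bad : X → ℝ := fun x => if ∀ i < L, S x i = decide (i ≤ ht L S x) then 0 else 1
    have a2 : 𝔼 y, bad (P (τ0, y)) ≤ backF L P P' S / Fintype.card Y := by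
      rw [hb]
      refine basen2_slice τ0 _ _ (fun z => Nat.cast_nonneg _) fun y => ?_
      simp only [bad]
      split_ifs with c
      · exact Nat.cast_nonneg _
      · exact Nat.one_le_cast.2 (Nat.one_le_iff_ne_zero.2 fun d => c (h3 _ d).1)
    have a3 := basen2_sum ((m1 bad).trans_le a2)
    have a4 := basen2_sum ((m2 bad).trans_le a2)
    have a5 : (demF L d1 d2 S : ℝ) ≤
        ∑ d, (|(ht L S (d1 d) : ℝ) - ht L S (d2 d)| + L * (bad (d1 d) + bad (d2 d))) := by
      unfold demF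
      rw [Nat.cast_sum]
      refine sum_le_sum fun d _ => ?_
      have b1 := sl d
      have b2 := abs_nonneg ((ht L S (d1 d) : ℝ) - ht L S (d2 d))
      simp only [bad]
      split_ifs with c c'
      · rw [sum_congr rfl fun i hi => by rw [c i (mem_range.1 hi), c' i (mem_range.1 hi)]]
        linarith [basen_seg_abs L (ht L S (d1 d)) (ht L S (d2 d))]
      all_goals linarith
    rw [sum_add_distrib, ← mul_sum, sum_add_distrib] at a5
    have a6 := mul_le_mul_of_nonneg_left (add_le_add a3 a4) (zero_le_one.trans hl)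
    linarith [basen2_fin (a := η * Fintype.card D) (x := demF L d1 d2 S) hl hμ hμ1 c0
      (by linarith)]
  · have a1 : (demF L d1 d2 S : ℝ) ≤ Fintype.card D * L := by
      unfold demF
      rw [Nat.cast_sum]
      simpa using sum_le_card_nsmul univ _ _ fun d _ => sl d
    have a2 : (Fintype.card D : ℝ) * L ≤
        (L : ℝ) ^ 2 * (backF L P P' S / Fintype.card Y * Fintype.card D) / μ := by
      rw [le_div_iff₀ hμ]
      have := mul_le_mul_of_nonneg_left (not_le.1 hcase).le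
        (mul_nonneg hD (zero_le_one.trans hl))
      linarith
    have a3 : 3 * (L : ℝ) ^ 2 * (backF L P P' S / Fintype.card Y * Fintype.card D) / μ =
        3 * ((L : ℝ) ^ 2 * (backF L P P' S / Fintype.card Y * Fintype.card D) / μ) := by ring
    linarith [mul_nonneg hη hD]

end

theorem baseNo2_ok : BaseNo2St := by
  intro T Y D X _ _ _ _ _ L P P' d1 d2 τ0 η μ hL hμ hμ1 hη m1 m2 hc S s0 s1 h0 h1
  have e1 : capF L P P' (fun x i => !S x i) = capF L P P' S := by
    simp only [capF, arcs, basen_sep_not]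
  have e2 : demF L d1 d2 (fun x i => !S x i) = demF L d1 d2 S := by
    simp only [demF, basen_sep_not]
  cases s0 <;> cases s1
  · exact ⟨fun e => absurd rfl e, fun _ => basen2_same hL hμ hμ1 m1 m2 S h0 h1⟩
  · refine ⟨fun _ => ?_, fun e => by simp at e⟩
    have := basen2_diff hL hμ hμ1 hη m1 m2 hc (fun x i => !S x i) (fun x => by simp [h0])
      fun x => by simp [h1]
    rwa [e1, e2] at this
  · exact ⟨fun _ => basen2_diff hL hμ hμ1 hη m1 m2 hc S h0 h1, fun e => by simp at e⟩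
  · refine ⟨fun e => absurd rfl e, fun _ => ?_⟩
    have := basen2_same (P' := P') hL hμ hμ1 m1 m2 (fun x i => !S x i) (fun x => by simp [h0])
      fun x => by simp [h1]
    rwa [e1, e2] at this

end Pool.Agent.P.MP_9cbceb_lc.Q
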