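import Pool.Agent.P.MP_9cbceb_lc.Q.DA
import Pool.Agent.P.MP_9cbceb_lc.Layer
import Pool.Agent.P.MP_9cbceb_lc.BaseY

/-! The honest cut of the base instance on the torus. -/

namespace Pool.Agent.P.MP_9cbceb_lc.Q

open Finset
open scoped BigOperators

theorem basey2_succ {H : ℕ} [NeZero H] (x : ZMod H) :
    tent x ≤ tent (x + 1) + 1 ∧ tent (x + 1) ≤ tent x + 1 := by
  have h := ZMod.val_lt x
  unfold tent
  rw [ZMod.val_add, ZMod.val_one_eq_one_mod, Nat.add_mod_mod]
  rcases Nat.lt_or_ge (x.val + 1) H with a | a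
  · rw [Nat.mod_eq_of_lt a]
    omega
  · rw [show x.val + 1 = H by omega, Nat.mod_self]
    omega

theorem basey2_min {H : ℕ} [NeZero H] (v j : ℕ) :
    tent ((min v (j + 1) : ℕ) : ZMod H) ≤ tent ((min v j : ℕ) : ZMod H) + 1 ∧
      tent ((min v j : ℕ) : ZMod H) ≤ tent ((min v (j + 1) : ℕ) : ZMod H) + 1 := by
  rcases le_or_gt v j with a | a
  · rw [min_eq_left a, min_eq_left (by omega)]
    omega
  · rw [min_eq_right a.le, min_eq_right (by omega), Nat.cast_succ]
    exact (basey2_succ _).symm

theorem basey2_two {ι : Type} [Fintype ι] [DecidableEq ι] (u v : ι → ℕ)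
    (h1 : ∀ a, u a ≤ v a + 1 ∧ v a ≤ u a + 1) (h2 : ∀ a b, u a ≠ v a → u b ≠ v b → a = b) :
    ∑ a, u a ≤ ∑ a, v a + 1 ∧ ∑ a, v a ≤ ∑ a, u a + 1 :=
  ⟨basey_sum_le u v (fun a => (h1 a).1) h2,
    basey_sum_le v u (fun a => (h1 a).2) fun a b ha hb => h2 a b ha.symm hb.symm⟩

theorem baseYes2_ok : BaseYes2St := by
  intro E S ι Q _ _ _ _ _ Γ H _ K r η l1 l2 hl hc hη
  choose hc h1 h2 using hc
  obtain ⟨g, hg⟩ : ∃ g : PtQ ι Q H → ℕ, ∀ x, g x = ∑ a, tent (x.2 (hc a (x.1 a))) := ⟨_, fun _ => rfl⟩
  have gl : ∀ x, g x ≤ Fintype.card ι * H := fun x => by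
    rw [hg]
    exact sum_le_card_nsmul _ _ H fun a _ => (min_le_right _ _).trans (Nat.sub_le _ _)
  have c1 : ∀ x, decide (Fintype.card ι * H + 1 ≤ g x) = false := fun x =>
    decide_eq_false (by have := gl x; omega)
  refine ⟨fun x i => decide (i ≤ g x), fun x => by simp, c1, ?_, ?_⟩
  · obtain ⟨L1, -, L3⟩ := layer_ok _ _ (Fintype.card ι * H + 1) (Γ.p1 (r := r)) Γ.p2
      (fun x i => decide (i ≤ g x)) (Nat.succ_pos _)
    rw [(L1 (fun x => by simp) c1).1, L3 g ?_ fun _ _ => rfl, mul_zero, add_zero]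
    rintro ⟨⟨b, τ⟩, W, s, β⟩
    cases b
    · simp only [Gad.p1, Gad.p2, Bool.false_eq_true, if_false, hg]
      generalize Ty.rows ((false, τ) : Ty ι Q r H) = R
      obtain ⟨_, a, _, _, j⟩ := τ
      dsimp only
      have e : ∀ b, b ≠ a → mask (if (j : ℕ) = 0 then insert a R else R) (view Γ.g W) b =
          mask R (view Γ.g W) b := fun b hb => by
        split_ifs <;> simp [mask, hb]
      have e' : ∀ b, b ≠ a → tent (Γ.shr R a (j + 1) s (hc b (mask R (view Γ.g W) b))) = tent
          (Γ.shr R a j s (hc b (mask (if (j : ℕ) = 0 then insert a R else R) (view Γ.g W) b))) :=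
        fun b hb => by simp only [e b hb, Gad.shr, h1, hb, if_false]
      refine basey2_two _ _ (fun b => ?_) fun b b' hb hb' =>
        (by_contra fun z => hb (e' b z) : b = a).trans (by_contra fun z => hb' (e' b' z) : b' = a).symm
      by_cases hb : b = a
      · subst hb
        simp only [Gad.shr, h1, if_true]
        split_ifs with a1 a2
        · omega
        · simpa only [a2, Nat.min_zero] using basey2_min (H := H) _ 0
        · exact basey2_min _ _
      · rw [e' b hb]
        omega
    · simp only [Gad.p1, Gad.p2, if_true, hg]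
      generalize Γ.mov ((true, τ) : Ty ι Q r H) = A
      split_ifs with hA
      · refine basey2_two _ _ (fun a => ?_) fun a a' ha ha' => ?_
        · simp only [Pi.add_apply, bv]
          split_ifs
          · exact basey2_succ _
          · rw [add_zero]
            omega
        have m : ∀ c, tent (s c) ≠ tent ((s + bv H (res A β)) c) → c ∈ A := fun c z => by
          by_contra y
          simp [bv, res, y] at z
        by_contra z
        rcases hA _ (m _ ha) _ (m _ ha') with y | y
        · exact z (by simpa only [h1] using y)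
        · simp only [h1, h2] at y
          exact basey_noLose Γ.g l1 l2 hl W z y
      · omega
  have key : ∀ W : ι × ι → E, η ≤ 𝔼 d : Tor Q H × (Fin K → Q → Bool) × (Fin K → Q → Bool),
      |(g (Γ.d1 (W, d)) : ℝ) - g (Γ.d2 (W, d))| := fun W => by
    refine (hη (fun a => hc a (view Γ.g W a)) fun a b hab => by
      simpa only [h1] using congrArg Γ.row hab).trans_eq ?_
    simp only [spr, hg, Nat.cast_sum, ← univ_product_univ, expect_product]
    rfl
  rw [demF, Nat.cast_sum, sum_congr rfl fun d _ => basey_sep (gl _) (gl _), Fintype.sum_prod_type,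
    Fintype.card_prod, Nat.cast_mul, mul_left_comm, ← nsmul_eq_mul, ← card_univ, ← sum_const]
  refine sum_le_sum fun W _ => ?_
  have := key W
  rwa [Fintype.expect_eq_sum_div_card, le_div_iff₀ (by exact_mod_cast Fintype.card_pos)] at this

end Pool.Agent.P.MP_9cbceb_lc.Q
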