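import Pool.Agent.P.MP_9cbceb_lc.Q.DA

/-! Few rows can be active at the same time. -/

namespace Pool.Agent.P.MP_9cbceb_lc.Q

open Finset
open scoped BigOperators

theorem cliq_zdef_nonneg {Q : Type} [Fintype Q] [DecidableEq Q] (A : Finset Q) (Ψ : Q → ℝ) :
    0 ≤ zdef A Ψ := by
  unfold zdef
  exact expect_nonneg fun _ _ => by unfold dfc; positivity

open Classical in
theorem cliq_ok (h : RowSt) : CliqSt := by
  intro ι Q _ _ _ row Cl B act ch Ψ Ψ' θ r hθ hr hcc hact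
  set P1 : ℝ := ∑ a ∈ B, ∑ a' ∈ B.erase a,
        if row (ch a) = a ∧ row (ch a') = a' ∧ ¬ Cl (ch a) (ch a') then (1 : ℝ) else 0 with hP1
  set P2 : ℝ := ∑ a ∈ B, ∑ c ∈ rowS row a, (Ψ c - Ψ' a c) ^ 2 with hP2
  set P3 : ℝ := ∑ t : Fin r → Q, if ∀ c ∈ image t univ, ∀ c' ∈ image t univ, Cl c c' then
        zdef (image t univ) Ψ else 0 with hP3
  have h1 : 0 ≤ P1 := sum_nonneg fun _ _ => sum_nonneg fun _ _ => by split_ifs <;> norm_num
  have h2 : 0 ≤ P2 := sum_nonneg fun _ _ => sum_nonneg fun _ _ => sq_nonneg _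
  have h3 : 0 ≤ P3 := sum_nonneg fun _ _ => by
    split_ifs
    · exact cliq_zdef_nonneg _ _
    · exact le_rfl
  have h2' : 0 ≤ 64 / θ ^ 2 * P2 := by positivity
  have h3' : 0 ≤ 2 ^ r * P3 := by positivity
  have hcard : (∑ a ∈ B, if act a then (1 : ℝ) else 0) = #(B.filter act) := by
    rw [sum_boole]
  rw [hcard]
  have hB : (0 : ℝ) ≤ #B := Nat.cast_nonneg _
  by_cases hle : #(B.filter act) ≤ r
  · have : (#(B.filter act) : ℝ) ≤ r := by exact_mod_cast hle
    have h4 : 0 ≤ (#B : ℝ) * (P1 + 64 / θ ^ 2 * P2 + 2 ^ r * P3) := by positivity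
    linarith
  have hfB : (#(B.filter act) : ℝ) ≤ #B := by exact_mod_cast card_filter_le _ _
  have hr0 : (0 : ℝ) ≤ r := Nat.cast_nonneg _
  suffices hs : 1 ≤ P1 + 64 / θ ^ 2 * P2 + 2 ^ r * P3 by nlinarith
  by_contra hlt
  push Not at hlt
  have hP1' : P1 < 1 := by linarith
  have hP2' : 64 / θ ^ 2 * P2 < 1 := by linarith
  have hP3' : 2 ^ r * P3 < 1 := by linarith
  obtain ⟨I, hIsub, hI⟩ := exists_subset_card_eq (le_of_lt (not_le.mp hle))
  have hIB : ∀ a ∈ I, a ∈ B ∧ act a := fun a ha => mem_filter.mp (hIsub ha)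
  have hrow : ∀ a ∈ I, row (ch a) = a := fun a ha => (hact a (hIB a ha).1 (hIB a ha).2).1
  let e : Fin r → I := fun i => I.equivFin.symm (Fin.cast hI.symm i)
  have he : Function.Bijective e :=
    I.equivFin.symm.bijective.comp (finCongr hI.symm).bijective
  let t : Fin r → Q := fun i => ch (e i)
  have himg : image t univ = I.image ch := by
    ext c
    simp only [mem_image, mem_univ, true_and, t]
    constructor
    · rintro ⟨i, rfl⟩
      exact ⟨e i, (e i).2, rfl⟩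
    · rintro ⟨a, ha, rfl⟩
      obtain ⟨i, hi⟩ := he.2 ⟨a, ha⟩
      exact ⟨i, by rw [hi]⟩
  have hcardI : #(I.image ch) = r := by
    rw [card_image_of_injOn, hI]
    intro a ha a' ha' hh
    rw [← hrow a ha, ← hrow a' ha', hh]
  have hCl : ∀ c ∈ I.image ch, ∀ c' ∈ I.image ch, Cl c c' := by
    intro c hc c' hc'
    obtain ⟨a, ha, rfl⟩ := mem_image.mp hc
    obtain ⟨a', ha', rfl⟩ := mem_image.mp hc'
    by_cases haa : a' = a
    · rw [haa]; exact hcc _
    by_contra hn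
    have k1 : (1 : ℝ) ≤ ∑ a' ∈ B.erase a,
        if row (ch a) = a ∧ row (ch a') = a' ∧ ¬ Cl (ch a) (ch a') then (1 : ℝ) else 0 := by
      have := single_le_sum (s := B.erase a) (f := fun a' =>
        if row (ch a) = a ∧ row (ch a') = a' ∧ ¬ Cl (ch a) (ch a') then (1 : ℝ) else 0)
        (fun _ _ => by split_ifs <;> norm_num) (mem_erase.mpr ⟨haa, (hIB a' ha').1⟩)
      simpa only [if_pos (And.intro (hrow a ha) (And.intro (hrow a' ha') hn))] using this
    have k2 := single_le_sum (s := B) (f := fun a => ∑ a' ∈ B.erase a,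
        if row (ch a) = a ∧ row (ch a') = a' ∧ ¬ Cl (ch a) (ch a') then (1 : ℝ) else 0)
        (fun _ _ => sum_nonneg fun _ _ => by split_ifs <;> norm_num) (hIB a ha).1
    linarith
  have hbig : ∀ c ∈ I.image ch, θ / 8 ≤ |Ψ c| := by
    intro c hc
    obtain ⟨a, ha, rfl⟩ := mem_image.mp hc
    have k0 := (hact a (hIB a ha).1 (hIB a ha).2).2
    have k1 : (Ψ (ch a) - Ψ' a (ch a)) ^ 2 ≤ ∑ c ∈ rowS row a, (Ψ c - Ψ' a c) ^ 2 :=
      single_le_sum (s := rowS row a) (f := fun c => (Ψ c - Ψ' a c) ^ 2)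
        (fun _ _ => sq_nonneg _) (by simp [rowS, hrow a ha])
    have k2 := single_le_sum (s := B) (f := fun a => ∑ c ∈ rowS row a, (Ψ c - Ψ' a c) ^ 2)
        (fun _ _ => sum_nonneg fun _ _ => sq_nonneg _) (hIB a ha).1
    have k3 : P2 < θ ^ 2 / 64 := by
      rw [div_mul_eq_mul_div, div_lt_one (by positivity)] at hP2'
      linarith
    have k4 : (Ψ (ch a) - Ψ' a (ch a)) ^ 2 < (θ / 8) ^ 2 := by
      have : (θ / 8) ^ 2 = θ ^ 2 / 64 := by ring
      linarith
    have k5 : |Ψ (ch a) - Ψ' a (ch a)| < θ / 8 := abs_lt_of_sq_lt_sq k4 (by positivity)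
    have k6 := abs_sub_abs_le_abs_sub (Ψ' a (ch a)) (Ψ (ch a))
    rw [abs_sub_comm] at k6
    linarith
  have k7 := (h Q (I.image ch) Ψ θ r hθ hr).2 hcardI hbig
  have k8 : zdef (I.image ch) Ψ ≤ P3 := by
    have := single_le_sum (s := (univ : Finset (Fin r → Q))) (f := fun t : Fin r → Q =>
      if ∀ c ∈ image t univ, ∀ c' ∈ image t univ, Cl c c' then zdef (image t univ) Ψ else 0)
      (fun _ _ => by
        split_ifs
        · exact cliq_zdef_nonneg _ _
        · exact le_rfl) (mem_univ t)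
    simp only [himg, if_pos hCl] at this
    exact this
  have k9 : (2 : ℝ) ^ r * zdef (I.image ch) Ψ ≤ 2 ^ r * P3 :=
    mul_le_mul_of_nonneg_left k8 (by positivity)
  linarith

end Pool.Agent.P.MP_9cbceb_lc.Q
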