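import Pool.Agent.P.MP_9cbceb_lc.Q.Tools
import Pool.Agent.P.MP_9cbceb_lc.CompY
import Pool.Agent.P.MP_9cbceb_lc.CompN

/-! The recursive composition with short names: good cut, soundness and running time. -/

namespace Pool.Agent.P.MP_9cbceb_lc.Q

open Pool.Agent.Lib.helper21 Pool.Agent.Lib.helper26 Finset Function

/-- The cut of the next round built from the base cut `S` and the cut `T` of the last round. -/
def comp2_next (B : Prs) (S T : ℕ → Bool) (z : ℕ) : Bool :=
  if z % 2 = 0 then S (z / 2) else
    if T (z / 2 / B.length) = true then S (B.getD (z / 2 % B.length) (0, 0)).1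
    else S (B.getD (z / 2 % B.length) (0, 0)).2

theorem comp2_even (B : Prs) (S T : ℕ → Bool) (y : ℕ) : comp2_next B S T (2 * y) = S y := by
  unfold comp2_next
  rw [if_pos (by omega), Nat.mul_div_cancel_left _ (by norm_num)]

theorem comp2_emb (B : Prs) (S T : ℕ → Bool) (h0 : T 0 = true) (h2 : T 2 = false) {a : ℕ}
    (ha : a < B.length) (x : ℕ) : comp2_next B S T (emb2 B a x) =
      if T x = true then S (B.getD a (0, 0)).1 else S (B.getD a (0, 0)).2 := by
  unfold emb2
  by_cases e0 : x = 0
  · subst e0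
    simp only [decide_true, cond_true, comp2_even, h0, if_true]
  · by_cases e2 : x = 2
    · subst e2
      simp [comp2_even, h2]
    · simp only [e0, e2, decide_false, cond_false]
      unfold comp2_next
      have h1 : (2 * (x * B.length + a) + 1) / 2 = a + B.length * x := by
        rw [mul_comm x]; omega
      have h3 : (a + B.length * x) / B.length = x := by
        rw [Nat.add_mul_div_left _ _ (by omega), Nat.div_eq_of_lt ha, zero_add]
      have h4 : (a + B.length * x) % B.length = a := by
        rw [Nat.add_mul_mod_self_left, Nat.mod_eq_of_lt ha]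
      rw [if_neg (by omega), h1, h3, h4]

theorem comp2_copiesY (B L : Prs) (S T : ℕ → Bool) (h0 : T 0 = true) (h2 : T 2 = false) :
    cnt (comp2_next B S T) (copies2 B L) = cnt S B * cnt T L := by
  unfold copies2
  rw [compY_cnt_flatMap]
  have e : ∀ a ∈ List.range B.length,
      cnt (comp2_next B S T) (L.map fun p => (emb2 B a p.1, emb2 B a p.2)) =
      if (S (B.getD a (0, 0)).1 != S (B.getD a (0, 0)).2) = true then cnt T L else 0 := by
    intro a ha
    have ha' : a < B.length := List.mem_range.1 ha
    unfold cnt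
    rw [List.countP_map]
    split_ifs with h
    · refine List.countP_congr fun p _ => ?_
      simp only [Function.comp, comp2_emb B S T h0 h2 ha']
      revert h
      cases S (B.getD a (0, 0)).1 <;> cases S (B.getD a (0, 0)).2 <;> cases T p.1 <;>
        cases T p.2 <;> simp
    · refine List.countP_eq_zero.2 fun p _ => ?_
      simp only [Function.comp, comp2_emb B S T h0 h2 ha']
      revert h
      cases S (B.getD a (0, 0)).1 <;> cases S (B.getD a (0, 0)).2 <;> cases T p.1 <;>
        cases T p.2 <;> simp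
  rw [List.map_congr_left e, compY_sum_ite (List.range B.length)
    (fun a => S (B.getD a (0, 0)).1 != S (B.getD a (0, 0)).2)]
  congr 1
  conv_rhs => rw [← compY_range_getD B (0, 0)]
  unfold cnt
  rw [List.countP_map]
  rfl

theorem comp2_yes (B D : Prs) (M : ℕ) (S : ℕ → Bool) (h0 : S 0 = true) (h1 : S 1 = false)
    (hM : cnt S B = M) (l : ℕ) : ∃ T : ℕ → Bool, T 0 = true ∧ T 2 = false ∧
      cnt T (comp2 B D M l).1 = M ^ l ∧ cnt T (comp2 B D M l).2 * M = l * cnt S D * M ^ l := by
  induction l with
  | zero =>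
    exact ⟨fun x => decide (x = 0), by simp, by simp, by simp [comp2, cnt], by simp [comp2, cnt]⟩
  | succ j ih =>
    obtain ⟨T, t0, t2, c1, c2⟩ := ih
    refine ⟨comp2_next B S T, ?_, ?_, ?_, ?_⟩
    · rw [← h0]; exact comp2_even B S T 0
    · rw [← h1]; exact comp2_even B S T 1
    · show cnt _ (copies2 B (comp2 B D M j).1) = _
      rw [comp2_copiesY B _ S T t0 t2, hM, c1, pow_succ']
    · show cnt _ ((List.replicate (M ^ j) (D.map fun p => (2 * p.1, 2 * p.2))).flatten ++
        copies2 B (comp2 B D M j).2) * M = _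
      have e : cnt (comp2_next B S T) (D.map fun p => (2 * p.1, 2 * p.2)) = cnt S D := by
        unfold cnt
        rw [List.countP_map]
        refine List.countP_congr fun p _ => ?_
        simp only [Function.comp, comp2_even]
      rw [compY_cnt_append, compY_rep, comp2_copiesY B _ S T t0 t2, hM, e, add_mul, mul_assoc M,
        c2]
      ring

theorem comp2_copiesN (T : ℕ → Bool) (B L : Prs) :
    cnt T (copies2 B L) = ∑ a ∈ range B.length, cnt (fun x => T (emb2 B a x)) L := by
  have h : ∀ n, cnt T ((List.range n).flatMap fun a =>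
      L.map fun p => (emb2 B a p.1, emb2 B a p.2)) =
      ∑ a ∈ range n, cnt (fun x => T (emb2 B a x)) L := by
    intro n
    induction n with
    | zero => rfl
    | succ n ih =>
      rw [List.range_succ, List.flatMap_append, sum_range_succ, ← ih, ← compn_map T (emb2 B n)]
      simp only [cnt, List.countP_append, List.flatMap_cons, List.flatMap_nil, List.append_nil]
  exact h _

theorem comp2_no (B D : Prs) (M l : ℕ) (η κ : ℝ) (hη : 0 < η) (hκ : M * κ ≤ l * η)
    (hsep : ∀ S : ℕ → Bool, S 0 ≠ S 1 → M ≤ cnt S B ∧ cnt S D ≤ η + κ * (cnt S B - M))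
    (hns : ∀ S : ℕ → Bool, S 0 = S 1 → cnt S D ≤ κ * cnt S B) (T : ℕ → Bool) :
    (M : ℝ) * cnt T (comp2 B D M l).2 ≤ 2 * l * η * cnt T (comp2 B D M l).1 := by
  have key : ∀ j ≤ l, ∀ T : ℕ → Bool, (if T 0 = T 2 then 0 else (M : ℝ) ^ j * ((2 * l - j) * η)) ≤
      2 * l * η * cnt T (comp2 B D M j).1 - M * cnt T (comp2 B D M j).2 := by
    intro j
    induction j with
    | zero =>
      intro _ T
      by_cases h : T 0 = T 2 <;> simp [comp2, cnt, h]
    | succ j ih =>
      intro hj T
      have hjl : (j : ℝ) + 1 ≤ l := by exact_mod_cast hj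
      set S : ℕ → Bool := fun y => T (2 * y) with hS
      have h1 : (cnt S B : ℝ) * ((M : ℝ) ^ j * ((2 * l - j) * η)) ≤ ∑ a ∈ range B.length,
          (2 * l * η * cnt (fun x => T (emb2 B a x)) (comp2 B D M j).1 -
            M * cnt (fun x => T (emb2 B a x)) (comp2 B D M j).2) := by
        rw [compn_base, Nat.cast_sum, sum_mul]
        refine sum_le_sum fun a _ => le_trans (le_of_eq ?_) (ih (by omega) _)
        simp only [emb2, hS, decide_true, cond_true, OfNat.ofNat_ne_zero, decide_false,
          cond_false]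
        split_ifs <;> simp
      have h2 : 2 * l * η * cnt T (comp2 B D M (j + 1)).1 - M * cnt T (comp2 B D M (j + 1)).2 =
          ∑ a ∈ range B.length, (2 * l * η * cnt (fun x => T (emb2 B a x)) (comp2 B D M j).1 -
            M * cnt (fun x => T (emb2 B a x)) (comp2 B D M j).2) - M ^ j * (M * cnt S D) := by
        simp only [comp2, compn_rep, comp2_copiesN, compn_map T (fun y => 2 * y), sum_sub_distrib,
          ← mul_sum]
        push_cast
        ring
      have hM : (0 : ℝ) ≤ M := Nat.cast_nonneg _
      have hp : (0 : ℝ) ≤ (M : ℝ) ^ j := by positivity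
      have hc : (0 : ℝ) ≤ cnt S B := Nat.cast_nonneg _
      rw [h2]
      split_ifs with h
      · have h3 := mul_le_mul_of_nonneg_left (hns S h) hM
        have h4 := mul_le_mul_of_nonneg_right hκ hc
        have h5 : 0 ≤ (l - j) * η * cnt S B := mul_nonneg (mul_nonneg (by linarith) hη.le) hc
        have h6 : M * cnt S D ≤ cnt S B * ((2 * l - j) * η) := by nlinarith
        nlinarith [mul_le_mul_of_nonneg_left h6 hp]
      · obtain ⟨h7, h8⟩ := hsep S h
        have h9 : (0 : ℝ) ≤ cnt S B - M := sub_nonneg.mpr (Nat.cast_le.mpr h7)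
        have h3 := mul_le_mul_of_nonneg_left h8 hM
        have h4 := mul_le_mul_of_nonneg_right hκ h9
        have h5 : 0 ≤ (l - j) * η * (cnt S B - M) :=
          mul_nonneg (mul_nonneg (by linarith) hη.le) h9
        have h6 : M * cnt S D + M * ((2 * l - (j + 1)) * η) ≤ cnt S B * ((2 * l - j) * η) := by
          nlinarith
        push_cast
        rw [pow_succ]
        nlinarith [mul_le_mul_of_nonneg_left h6 hp]
  have h := key l le_rfl T
  have h0 : (0 : ℝ) ≤ (M : ℝ) ^ l * ((2 * l - l) * η) :=
    mul_nonneg (by positivity) (mul_nonneg (by linarith [Nat.cast_nonneg (α := ℝ) l]) hη.le)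
  split_ifs at h <;> linarith

theorem comp2_PT_emb {α : Type} [Enc α] {B : α → Prs} {a x : α → ℕ} (hB : PT B) (ha : PT a)
    (hx : PT x) : PT fun y => emb2 (B y) (a y) (x y) := by
  unfold emb2
  fun_prop

@[fun_prop] theorem comp2_PT_copies {α : Type} [Enc α] {B L : α → Prs} (hB : PT B) (hL : PT L) :
    PT fun y => copies2 (B y) (L y) := by
  unfold copies2
  refine PT.flatMap (by fun_prop) (PT.map (by fun_prop) (PT.pair ?_ ?_)) <;>
    exact comp2_PT_emb (by fun_prop) (by fun_prop) (by fun_prop)

theorem comp2_emb_le (B : Prs) {a : ℕ} (ha : a < B.length) (x : ℕ) :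
    emb2 B a x ≤ (2 * sz B + 1) * (x + 1) := by
  have h1 : sz (B.getD a (0, 0)) ≤ sz B := by
    rw [List.getD_eq_getElem _ _ ha]
    exact sz_mem (List.getElem_mem ha)
  rw [sz_prod, sz_nat, sz_nat] at h1
  have h2 := length_le_sz B
  have h3 := Nat.mul_le_mul_left x h2
  unfold emb2
  by_cases e0 : x = 0
  · simp only [e0, decide_true, cond_true]; omega
  · by_cases e2 : x = 2
    · simp only [e2, OfNat.ofNat_ne_zero, decide_false, decide_true, cond_true, cond_false]; omega
    · simp only [e0, e2, decide_false, cond_false]; nlinarith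

theorem comp2_sz_copies (B L : Prs) : sz (copies2 B L) ≤ sz B * ((4 * sz B + 4) * sz L) + 1 := by
  have h1 := gp_sz_flatMap (List.range B.length)
    (fun a => L.map fun p => (emb2 B a p.1, emb2 B a p.2)) ((4 * sz B + 3 + 1) * sz L)
    fun a ha => gp_sz_map L _ (4 * sz B + 3) fun p => by
      have ha' : a < B.length := List.mem_range.1 ha
      have e1 := comp2_emb_le B ha' p.1
      have e2 := comp2_emb_le B ha' p.2
      rw [sz_pair, sz_prod p]
      simp only [sz_nat]
      nlinarith
  rw [List.length_range] at h1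
  exact h1.trans (Nat.add_le_add_right (Nat.mul_le_mul_right _ (length_le_sz B)) 1)

theorem comp2_sz_rep (L : Prs) (w : ℕ) : sz (List.replicate w L).flatten ≤ w * sz L + 1 := by
  induction w with
  | zero => simp
  | succ w ih =>
    have := sz_append L (List.replicate w L).flatten
    rw [List.replicate_succ, List.flatten_cons, Nat.succ_mul]
    omega

/-- One round of the composition, with the multiplicity kept in the state. -/
def comp2_step (b : Prs × Prs × ℕ) (s : ℕ × Prs × Prs) : ℕ × Prs × Prs :=
  (s.1 * b.2.2, copies2 b.1 s.2.1,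
    (List.replicate s.1 (b.2.1.map fun p => (2 * p.1, 2 * p.2))).flatten ++ copies2 b.1 s.2.2)

theorem comp2_iter (B D : Prs) (M j : ℕ) :
    (comp2_step (B, D, M))^[j] (1, [(0, 2)], []) = (M ^ j, comp2 B D M j) := by
  induction j with
  | zero => rfl
  | succ j ih => rw [iterate_succ_apply', ih, pow_succ]; rfl

theorem comp2_step_PT :
    PT fun p : (Prs × Prs × ℕ) × (ℕ × Prs × Prs) => comp2_step p.1 p.2 := by
  unfold comp2_step
  refine PT.pair (by fun_prop) (PT.pair (by fun_prop) (PT.append ?_ (by fun_prop)))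
  fun_prop

theorem comp2_step_sz (b : Prs × Prs × ℕ) (s : ℕ × Prs × Prs) :
    sz (comp2_step b s) ≤ ((4 * sz b + 9) * sz b + 6) * (sz s + 1) := by
  obtain ⟨B, D, M⟩ := b
  obtain ⟨w, P, Q⟩ := s
  have h1 := comp2_sz_copies B P
  have h2 := comp2_sz_copies B Q
  have h3 := comp2_sz_rep (D.map fun p => (2 * p.1, 2 * p.2)) w
  have h4 := gp_sz_map D (fun p => (2 * p.1, 2 * p.2)) 2 fun p => by
    rw [sz_pair, sz_prod p]; simp only [sz_nat]; omega
  have h5 := sz_append (List.replicate w (D.map fun p => (2 * p.1, 2 * p.2))).flatten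
    (copies2 B Q)
  have hB : sz B ≤ sz (B, D, M) := by rw [sz_pair]; omega
  have hD : sz D ≤ sz (B, D, M) := by rw [sz_pair, sz_pair]; omega
  have hM : M ≤ sz (B, D, M) := by rw [sz_pair, sz_pair, sz_nat]; omega
  generalize sz (B, D, M) = t at hB hD hM
  have hs : sz B * (4 * sz B + 4) ≤ (4 * t + 4) * t := by nlinarith
  have a1 := Nat.mul_le_mul_right (sz P) hs
  have a2 := Nat.mul_le_mul_right (sz Q) hs
  have a3 := Nat.mul_le_mul_left w hM
  have a4 := Nat.mul_le_mul_left w (h4.trans (Nat.mul_le_mul_left (2 + 1) hD))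
  simp only [comp2_step, sz_pair, sz_nat]
  nlinarith [Nat.zero_le (t * t * w), Nat.zero_le (t * w), Nat.zero_le (t * sz P),
    Nat.zero_le (t * sz Q), Nat.zero_le (t * t), Nat.zero_le w, Nat.zero_le (sz P),
    Nat.zero_le (sz Q), Nat.zero_le t]

theorem comp2_ok : Comp2St := by
  refine ⟨fun B D M S h0 h1 hM l => ?_,
    fun B D M l η κ hη _ hκ hsep hns T => comp2_no B D M l η κ hη hκ hsep hns T,
    fun α _ e M l B D hB hD hM hl hb => ?_⟩
  · obtain ⟨T, -, -, h⟩ := comp2_yes B D M S h0 h1 hM l
    exact ⟨T, h⟩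
  · have h := GP.iter_mul (f := comp2_step) comp2_step_PT (hB.pair (hD.pair hM)) hl
      (GP.const ((1, [(0, 2)], []) : ℕ × Prs × Prs)) hb (fun b => (4 * sz b + 9) * sz b + 6)
      ((((((Bd.const _ _).mul (Bd.self _)).add (Bd.const _ _)).mul (Bd.self _))).add
        (Bd.const _ _)) comp2_step_sz
    exact (GP.pt (g := fun s : ℕ × Prs × Prs => s.2) (by fun_prop) h).of_eq fun a => by
      rw [comp2_iter]

end Pool.Agent.P.MP_9cbceb_lc.Q
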