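import Pool.Agent.P.MP_9cbceb_lc.Q.Tools

/-! The base instance as a list of pairs: enumerations, names and cut counts. -/

namespace Pool.Agent.P.MP_9cbceb_lc.Q

open Pool.Agent.Lib.helper21 Finset

theorem conc2_enumW (I : Ins2) (N : ℕ) :
    Enum (conc_tup I (N * N)) (encW I : (Fin N × Fin N → Fin I.length) → Ins2) :=
  (((Enum.self I).tup (N * N)).equiv (finProdFinEquiv.arrowCongr (Equiv.refl _))).congr
    fun _ => rfl

theorem conc2_enumS (n H : ℕ) [NeZero H] :
    Enum (conc_tup (List.range H) n) (encS : Tor (Fin n) H → List ℕ) :=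
  (Enum.zmod H).tup n

theorem enum_ok : EnumSt := by
  intro I N n r H K _
  exact ⟨Enum.bool.prd (Enum.bool.prd ((Enum.range N).prd (((Enum.range n).tup r).prd
      ((Enum.bool.tup N).prd (Enum.range H))))),
    (conc2_enumW I N).prd ((conc2_enumS n H).prd (Enum.bool.tup n)),
    (conc2_enumW I N).prd ((conc2_enumS n H).prd
      (((Enum.bool.tup n).tup K).prd ((Enum.bool.tup n).tup K)))⟩

theorem conc2_nm_zero (pw : List ℕ) (L : ℕ) (x : PtL) : nmL pw L x 0 = 0 := by simp [nmL]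

theorem conc2_nm_top (pw : List ℕ) {L : ℕ} (hL : 0 < L) (x : PtL) : nmL pw L x L = 1 := by
  simp [nmL, hL.ne']

theorem conc2_nm_mid (pw : List ℕ) {L i : ℕ} (h0 : i ≠ 0) (h1 : i < L) (x : PtL) :
    nmL pw L x i = cod pw (i :: (x.1 ++ x.2)) + 2 := by
  simp [nmL, h0, not_le.2 h1]

theorem conc2_enc_inj {N n H : ℕ} [NeZero H] {x x' : PtQ (Fin N) (Fin n) H}
    (h : (encP x).1 ++ (encP x).2 = (encP x').1 ++ (encP x').2) : x = x' := by
  obtain ⟨h1, h2⟩ := List.append_inj h (by simp [encP])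
  refine Prod.ext (funext fun a => funext fun p => ?_) (funext fun c => ?_)
  · simpa using congrFun (List.ofFn_injective h1) (finProdFinEquiv (a, p))
  · exact ZMod.val_injective H (congrFun (List.ofFn_injective h2) c)

theorem conc2_enc_lt {N n H b i : ℕ} [NeZero H] (hH : H ≤ b) (hi : i < b)
    {x : PtQ (Fin N) (Fin n) H} (hx : ∀ a p, x.1 a p < b) :
    ∀ y ∈ i :: ((encP x).1 ++ (encP x).2), y < b := by
  intro y hy
  rcases List.mem_cons.1 hy with rfl | hy
  · exact hi
  rcases List.mem_append.1 hy with hy | hy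
  · obtain ⟨k, rfl⟩ := List.mem_ofFn.1 hy
    exact hx _ _
  · obtain ⟨c, rfl⟩ := List.mem_ofFn.1 hy
    exact (ZMod.val_lt _).trans_le hH

theorem conc2_nm_inj {N n H L b : ℕ} [NeZero H] (hL : 0 < L) (hH : H ≤ b) (hb : L ≤ b)
    {x x' : PtQ (Fin N) (Fin n) H} (hx : ∀ a p, x.1 a p < b) (hx' : ∀ a p, x'.1 a p < b)
    {i i' : ℕ} (hi : i ≤ L) (hi' : i' ≤ L)
    (h : nmL (pows b (N * N + n + 1)) L (encP x) i = nmL (pows b (N * N + n + 1)) L (encP x') i') :
    (i = 0 ∧ i' = 0) ∨ (i = L ∧ i' = L) ∨ (x = x' ∧ i = i') := by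
  rcases eq_or_ne i 0 with rfl | h0
  · rcases eq_or_ne i' 0 with rfl | h0'
    · exact Or.inl ⟨rfl, rfl⟩
    rcases hi'.eq_or_lt with rfl | h1'
    · rw [conc2_nm_zero, conc2_nm_top _ hL] at h; omega
    · rw [conc2_nm_zero, conc2_nm_mid _ h0' h1'] at h; omega
  rcases hi.eq_or_lt with rfl | h1
  · rcases eq_or_ne i' 0 with rfl | h0'
    · rw [conc2_nm_zero, conc2_nm_top _ hL] at h; omega
    rcases hi'.eq_or_lt with rfl | h1'
    · exact Or.inr (Or.inl ⟨rfl, rfl⟩)
    · rw [conc2_nm_top _ hL, conc2_nm_mid _ h0' h1'] at h; omega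
  rcases eq_or_ne i' 0 with rfl | h0'
  · rw [conc2_nm_zero, conc2_nm_mid _ h0 h1] at h; omega
  rcases hi'.eq_or_lt with rfl | h1'
  · rw [conc2_nm_top _ hL, conc2_nm_mid _ h0 h1] at h; omega
  rw [conc2_nm_mid _ h0 h1, conc2_nm_mid _ h0' h1', add_left_inj] at h
  have := cod_inj (by simp [encP, encS]) (by simp [encP, encS])
    (conc2_enc_lt hH (by omega) hx) (conc2_enc_lt hH (by omega) hx') h
  rw [List.cons.injEq] at this
  exact Or.inr (Or.inr ⟨conc2_enc_inj this.2, this.1⟩)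

theorem name_ok : NameSt := by
  classical
  intro N n H L b _ hL hH hb C s0 s1
  have key : ∀ x : PtQ (Fin N) (Fin n) H, (∀ a p, x.1 a p < b) → ∀ i ≤ L,
      decide (∃ (x' : PtQ (Fin N) (Fin n) H) (i' : ℕ), (∀ a p, x'.1 a p < b) ∧ i' ≤ L ∧
        nmL (pows b (N * N + n + 1)) L (encP x') i' = nmL (pows b (N * N + n + 1)) L (encP x) i ∧
        C x' i' = true) = C x i := by
    intro x hx i hi
    rw [Bool.eq_iff_iff, decide_eq_true_iff]
    refine ⟨?_, fun h => ⟨x, i, hx, hi, rfl, h⟩⟩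
    rintro ⟨x', i', hx', hi', e, hs⟩
    rcases conc2_nm_inj hL hH hb hx' hx hi' hi e with ⟨-, rfl⟩ | ⟨rfl, -⟩ | ⟨rfl, rfl⟩
    · exact s0 x
    · rw [s1] at hs
      exact absurd hs (by simp)
    · exact hs
  have h0 : ∀ a p, ((fun _ _ => 0, 0) : PtQ (Fin N) (Fin n) H).1 a p < b := fun _ _ => by
    show 0 < b
    omega
  refine ⟨fun m => decide (∃ (x' : PtQ (Fin N) (Fin n) H) (i' : ℕ), (∀ a p, x'.1 a p < b) ∧
    i' ≤ L ∧ nmL (pows b (N * N + n + 1)) L (encP x') i' = m ∧ C x' i' = true), ?_, ?_, key⟩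
  · have := (key _ h0 0 (by omega)).trans (s0 _)
    rwa [conc2_nm_zero] at this
  · have := (key _ h0 L le_rfl).trans (s1 _)
    rwa [conc2_nm_top _ hL] at this

theorem conc2_arc (S : ℕ → Bool) (pw : List ℕ) (L : ℕ) (x y : PtL) :
    cnt S (arcL pw L x y) = ∑ i ∈ range L, (sep (S (nmL pw L x i)) (S (nmL pw L y (i + 1))) +
      sep (S (nmL pw L y i)) (S (nmL pw L x (i + 1))) +
      sep (S (nmL pw L x i)) (S (nmL pw L x (i + 1))) +
      sep (S (nmL pw L y i)) (S (nmL pw L y (i + 1)))) := by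
  rw [arcL, (Enum.range L).cnt, ← Fin.sum_univ_eq_sum_range]
  refine sum_congr rfl fun i _ => ?_
  rw [conc_cnt_cons, conc_cnt_cons, conc_cnt_cons, conc_cnt_cons, ← add_assoc, ← add_assoc,
    ← add_assoc]
  rfl

theorem conc2_col (S : ℕ → Bool) (L : ℕ) (f g : ℕ → ℕ) :
    cnt S ((List.range L).map fun i => (f i, g i)) = ∑ i ∈ range L, sep (S (f i)) (S (g i)) := by
  rw [← List.flatMap_singleton' ((List.range L).map _), List.flatMap_map, (Enum.range L).cnt,
    ← Fin.sum_univ_eq_sum_range]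
  refine sum_congr rfl fun i _ => ?_
  rw [conc_cnt_cons]
  rfl

theorem conc2_view (q : ℕ) (I : Ins2) {N : ℕ} (W : Fin N × Fin N → Fin I.length) (a p : Fin N) :
    view (gm q I) W a p ≤ sz I := by
  have key : ∀ e : Fin I.length, I[e].1 ≤ sz I ∧ I[e].2.1 ≤ sz I := fun e => by
    have h1 := sz_mem (List.getElem_mem e.2)
    have h2 := sz_prod I[e]
    have h3 := sz_prod I[e].2
    rw [sz_nat] at h2 h3
    have e1 : I[(e : ℕ)] = I[e] := rfl
    rw [e1] at h1
    omega
  unfold view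
  split_ifs
  · exact (key _).1
  · exact (key _).2

theorem conc2_mask (q : ℕ) (I : Ins2) {N : ℕ} (R : Finset (Fin N))
    (W : Fin N × Fin N → Fin I.length) (a p : Fin N) : mask R (view (gm q I) W) a p ≤ sz I := by
  unfold mask
  split_ifs
  · exact Nat.zero_le _
  · exact conc2_view q I W a p

theorem conc2_ok (h1 : PtSt) (h2 : EnumSt) (h3 : NameSt) : Conc2St := by
  intro I q N r H K _ hN
  obtain ⟨e1, e2, e3⟩ := h2 I N (N * q ^ N) r H K
  obtain ⟨a1, a2⟩ := h1 I q N r H K hN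
  have main : ∀ S : ℕ → Bool, cnt S (baseL I q N r H K).1 =
      capF (N * H + 1) ((gad q N hN I).p1 (r := r)) (gad q N hN I).p2
        (fun x i => S (nmL (pwL I N (N * q ^ N) H) (N * H + 1) (encP (H := H) x) i)) ∧
      cnt S (baseL I q N r H K).2.1 = demF (N * H + 1) ((gad q N hN I).d1 (K := K))
        (gad q N hN I).d2
        fun x i => S (nmL (pwL I N (N * q ^ N) H) (N * H + 1) (encP (H := H) x) i) := by
    intro S
    constructor
    · rw [baseL, (e1.prd e2).cnt, capF]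
      refine sum_congr rfl fun z _ => ?_
      rw [(a1 z.1 z.2).1, (a1 z.1 z.2).2, conc2_arc]
      rfl
    · rw [baseL, e3.cnt, demF]
      refine sum_congr rfl fun d _ => ?_
      rw [(a2 d).1, (a2 d).2, conc2_col]
  refine ⟨fun x i => nmL (pwL I N (N * q ^ N) H) (N * H + 1) (encP x) i,
    fun x => conc2_nm_zero _ _ _, fun x => conc2_nm_top _ (by omega) _, ?_, e3.length, main,
    fun C s0 s1 => ?_⟩
  · rw [← (e1.prd e2).length]
    rfl
  obtain ⟨S, t0, t1, hS⟩ := h3 N (N * q ^ N) H (N * H + 1) (sz I + H + (N * H + 1)) (by omega)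
    (by omega) (by omega) C s0 s1
  have b1 : ∀ z a p, ((gad q N hN I).p1 (r := r) (H := H) z).1 a p < sz I + H + (N * H + 1) := by
    intro z a p
    unfold Gad.p1
    split_ifs
    · exact (conc2_view q I _ a p).trans_lt (by omega)
    · exact (conc2_mask q I _ _ a p).trans_lt (by omega)
  have b2 : ∀ z a p, ((gad q N hN I).p2 (r := r) (H := H) z).1 a p < sz I + H + (N * H + 1) := by
    intro z a p
    unfold Gad.p2
    by_cases hz : z.1.1 = true
    · rw [if_pos hz]
      exact (conc2_view q I _ a p).trans_lt (by omega)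
    · rw [if_neg hz]
      exact (conc2_mask q I _ _ a p).trans_lt (by omega)
  have b3 : ∀ d a p, ((gad q N hN I).d1 (K := K) (H := H) d).1 a p < sz I + H + (N * H + 1) :=
    fun d a p => (conc2_view q I _ a p).trans_lt (by omega)
  have b4 : ∀ d a p, ((gad q N hN I).d2 (K := K) (H := H) d).1 a p < sz I + H + (N * H + 1) :=
    fun d a p => (conc2_view q I _ a p).trans_lt (by omega)
  refine ⟨S, t0, t1, (main S).1.trans ?_, (main S).2.trans ?_⟩
  · refine sum_congr rfl fun z _ => sum_congr rfl fun i hi => ?_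
    have hi' := mem_range.1 hi
    simp only [pwL]
    rw [hS _ (b1 z) i (by omega), hS _ (b2 z) i (by omega), hS _ (b1 z) (i + 1) (by omega),
      hS _ (b2 z) (i + 1) (by omega)]
  · refine sum_congr rfl fun d _ => sum_congr rfl fun i hi => ?_
    have hi' := mem_range.1 hi
    simp only [pwL]
    rw [hS _ (b3 d) i (by omega), hS _ (b4 d) i (by omega)]

end Pool.Agent.P.MP_9cbceb_lc.Q
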