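import Pool.Agent.P.MP_9cbceb_lc.Q.DA

/-! The core estimate: small defects along all moves force a small spread. -/

namespace Pool.Agent.P.MP_9cbceb_lc.Q

open Finset
open scoped BigOperators

theorem core2_sq_expect {Ω : Type} [Fintype Ω] [Nonempty Ω] (f : Ω → ℝ) :
    (𝔼 W, f W) ^ 2 ≤ 𝔼 W, f W ^ 2 := by
  have h := expect_mul_sq_le_sq_mul_sq univ f fun _ => (1 : ℝ)
  simpa using h

theorem core2_prod {A B : Type} [Fintype A] [Fintype B] (f : A × B → ℝ) :
    𝔼 x, f x = 𝔼 a, 𝔼 b, f (a, b) := by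
  rw [← expect_product, univ_product_univ]

theorem core2_dfc_comm (x y : ℝ) : dfc (x - y) = dfc (y - x) := by
  unfold dfc
  rw [abs_sub_comm]

theorem core2_dfc_self (x : ℝ) : dfc (x - x) = 0 := by
  unfold dfc
  rw [sub_self, abs_zero, max_eq_right (by norm_num)]
  norm_num

theorem core2_pr_mono {Ω : Type} [Fintype Ω] {p q : Ω → Prop} (h : ∀ W, p W → q W) :
    pr p ≤ pr q := by
  unfold pr
  refine expect_le_expect fun W _ => ?_
  by_cases hp : p W
  · rw [if_pos hp, if_pos (h W hp)]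
  · rw [if_neg hp]
    split_ifs <;> norm_num

theorem core2_err_nonneg {Q : Type} [Fintype Q] [DecidableEq Q] {H : ℕ} [NeZero H] (K : ℕ)
    (F : Tor Q H → ℝ) : 0 ≤ err K F := by
  unfold err
  have : 0 ≤ ∑ c, nrm (dif c F) :=
    sum_nonneg fun c _ => expect_nonneg fun s _ => sq_nonneg _
  positivity

section

variable {E S ι Q : Type} [Fintype E] [Fintype ι] [LinearOrder ι] [Fintype Q] [DecidableEq Q]
  (Γ : Gad E S ι Q) {H : ℕ} [NeZero H] {r : ℕ} (G : PtQ ι Q H → ℝ)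

open Classical in
/-- Defect of the moves inside `A` if they are allowed. -/
noncomputable def core2Fm (A : Finset Q) (W : ι × ι → E) : ℝ :=
  if ∀ c ∈ A, ∀ c' ∈ A, Γ.Cl W c c' then mdef (fun s => G (view Γ.g W, s)) A else 0

omit [Fintype E] [Fintype ι] in
theorem core2Fm_pos {A : Finset Q} {W : ι × ι → E} (h : ∀ c ∈ A, ∀ c' ∈ A, Γ.Cl W c c') :
    core2Fm Γ G A W = mdef (fun s => G (view Γ.g W, s)) A := if_pos h

omit [Fintype E] [Fintype ι] in
theorem core2Fm_neg {A : Finset Q} {W : ι × ι → E} (h : ¬ ∀ c ∈ A, ∀ c' ∈ A, Γ.Cl W c c') :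
    core2Fm Γ G A W = 0 := if_neg h

theorem core2_move (τ : Ty ι Q r H) (hτ : τ.1 = true) :
    𝔼 y : Ys E ι Q H, dfc (G (Γ.p1 (τ, y)) - G (Γ.p2 (τ, y))) =
      𝔼 W : ι × ι → E, core2Fm Γ G (Γ.mov τ) W := by
  rw [core2_prod]
  refine expect_congr rfl fun W _ => ?_
  rw [core2_prod]
  by_cases h : ∀ c ∈ Γ.mov τ, ∀ c' ∈ Γ.mov τ, Γ.Cl W c c'
  · rw [core2Fm_pos Γ G h]
    unfold mdef
    refine expect_congr rfl fun s _ => expect_congr rfl fun β _ => ?_
    unfold Gad.p1 Gad.p2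
    rw [if_pos hτ, if_pos hτ, if_pos h, core2_dfc_comm]
  · rw [core2Fm_neg Γ G h]
    refine expect_eq_zero fun s _ => expect_eq_zero fun β _ => ?_
    unfold Gad.p1 Gad.p2
    rw [if_pos hτ, if_pos hτ, if_neg h, core2_dfc_self]

theorem core2_shrink (R : Finset ι) (a : ι) (t : Fin r → Q) (j : ℕ) (hj : j < H) :
    𝔼 y : Ys E ι Q H,
      dfc (G (Γ.p1 ((false, false, a, t, fun b => decide (b ∈ R), ⟨j, hj⟩), y)) -
        G (Γ.p2 ((false, false, a, t, fun b => decide (b ∈ R), ⟨j, hj⟩), y))) =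
      𝔼 W : ι × ι → E, 𝔼 s : Tor Q H,
        dfc (G (mask R (view Γ.g W), Γ.shr R a (j + 1) s) -
          G (mask (if j = 0 then insert a R else R) (view Γ.g W), Γ.shr R a j s)) := by
  have hR : Ty.rows ((false, false, a, t, fun b => decide (b ∈ R), ⟨j, hj⟩) : Ty ι Q r H) = R := by
    ext b
    simp [Ty.rows]
  rw [core2_prod]
  refine expect_congr rfl fun W _ => ?_
  rw [core2_prod]
  refine expect_congr rfl fun s _ => ?_
  unfold Gad.p1 Gad.p2
  simp only [Bool.false_eq_true, if_false, hR]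
  exact Fintype.expect_const _

theorem core2_spr (K : ℕ) :
    𝔼 d : Ds E ι Q H K, |G (Γ.d1 d) - G (Γ.d2 d)| =
      𝔼 W : ι × ι → E, spr K fun s => G (view Γ.g W, s) := by
  rw [core2_prod]
  refine expect_congr rfl fun W _ => ?_
  rw [core2_prod]
  unfold spr
  refine expect_congr rfl fun s _ => ?_
  rw [core2_prod]
  rfl

end

theorem core2_ok (h1 : TeleSt) (h2 : AnaSt) (h3 : AbsSt) (h4 : MaskSt) (h5 : NS2St) :
    Core2St := by
  intro E S ι Q _ _ _ _ _ _ _ Γ H _ K m n r e θ ε μ hm hn hK hθ hr hrm hε hmε hμ hμ1 hτ hz hNo G hG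
  have hK' : (0 : ℝ) < K := by exact_mod_cast hK
  have hr0 : 0 < r := by
    rcases Nat.eq_zero_or_pos r with h | h
    · rw [h] at hr
      norm_num at hr
    · exact h
  have : Nonempty (Fin r) := ⟨⟨0, hr0⟩⟩
  have : Nonempty (Fin K) := ⟨⟨0, hK⟩⟩
  obtain ⟨c0⟩ : Nonempty Q := inferInstance
  have a0 : ι := e (⟨0, hm⟩, ⟨0, hn⟩)
  have hH : 0 < H := Nat.pos_of_ne_zero (NeZero.ne H)
  -- the three kinds of moves
  have m1 : ∀ a, 𝔼 W : ι × ι → E, mdef (fun s => G (view Γ.g W, s)) (rowS Γ.row a) ≤ μ := by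
    intro a
    have := hG (true, true, a, fun _ => c0, fun _ => false, ⟨0, hH⟩)
    rw [core2_move Γ G _ rfl] at this
    refine le_trans (le_of_eq (expect_congr rfl fun W _ => ?_)) this
    refine (core2Fm_pos Γ G (A := rowS Γ.row a) fun c hc c' hc' => Or.inl ?_).symm
    simp only [rowS, mem_filter, mem_univ, true_and] at hc hc'
    rw [hc, hc']
  have m2 : ∀ t : Fin r → Q, 𝔼 W : ι × ι → E, core2Fm Γ G (image t univ) W ≤ μ := by
    intro t
    have := hG (true, false, a0, t, fun _ => false, ⟨0, hH⟩)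
    rw [core2_move Γ G _ rfl] at this
    exact this
  have m3 : ∀ c, 𝔼 W : ι × ι → E, mdef (fun s => G (view Γ.g W, s)) {c} ≤ μ := by
    intro c
    have := m2 fun _ => c
    rw [image_const univ_nonempty] at this
    refine le_trans (le_of_eq (expect_congr rfl fun W _ => ?_)) this
    refine (core2Fm_pos Γ G (A := {c}) fun c1 hc c2 hc' => Or.inl ?_).symm
    rw [mem_singleton.1 hc, mem_singleton.1 hc']
  have m4 := h4 E S ι Q Γ H G fun R a j hj => by
    rw [← core2_shrink Γ G R a (fun _ : Fin r => c0) j hj]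
    exact (hG _).trans hμ1
  -- the error term
  have e1 : ∀ c, 𝔼 W : ι × ι → E, nrm (dif c fun s => G (view Γ.g W, s)) ≤ 6 := by
    intro c
    have b1 : 𝔼 W : ι × ι → E, nrm (dif c fun s => G (view Γ.g W, s)) ≤
        𝔼 W : ι × ι → E, (2 + 4 * mdef (fun s => G (view Γ.g W, s)) {c}) :=
      expect_le_expect fun W _ => (h2 Q H K hK _).2.2 c
    rw [expect_add_distrib, Fintype.expect_const, ← mul_expect] at b1
    have := m3 c
    linarith
  have e2 : 𝔼 W : ι × ι → E, err K (fun s => G (view Γ.g W, s)) ≤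
      24 * (Fintype.card Q : ℝ) ^ 5 / K := by
    unfold err
    rw [← expect_div, ← mul_expect, expect_sum_comm]
    refine div_le_div_of_nonneg_right ?_ hK'.le
    have b1 : ∑ c : Q, 𝔼 W : ι × ι → E, nrm (dif c fun s => G (view Γ.g W, s)) ≤
        ∑ _c : Q, (6 : ℝ) := sum_le_sum fun c _ => e1 c
    rw [sum_const, card_univ, nsmul_eq_mul] at b1
    calc _ ≤ 4 * (Fintype.card Q : ℝ) ^ 4 * (Fintype.card Q * 6) :=
          mul_le_mul_of_nonneg_left b1 (by positivity)
      _ = _ := by ring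
  have e3 : 6 * (24 * (Fintype.card Q : ℝ) ^ 5 / K) = 144 * (Fintype.card Q : ℝ) ^ 5 / K := by
    ring
  have main := h3 (ι × ι → E) (Fin K × Tor Q H) ι Q m n r e Γ.row Γ.Cl
    (fun W => psi fun s => G (view Γ.g W, s))
    (fun R W => psi fun s => G (mask R (view Γ.g W), Γ.zer R s)) θ ε ((2 * m * H) ^ 2 / K)
    (3 * μ + 144 * (Fintype.card Q : ℝ) ^ 5 / K) hm hn hθ hr hrm hε (by positivity)
    (by positivity) hmε hτ hz (fun W c => Or.inl rfl) ?_ ?_ ?_ ?_
  · rw [core2_spr]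
    have s1 := core2_sq_expect fun W : ι × ι → E => spr K fun s => G (view Γ.g W, s)
    have s2 : 𝔼 W : ι × ι → E, (spr K fun s => G (view Γ.g W, s)) ^ 2 ≤
        𝔼 W : ι × ι → E, 2 * K * ((𝔼 ξ : Fin K × Tor Q H,
          ∑ c, psi (fun s => G (view Γ.g W, s)) ξ c ^ 2) + err K fun s => G (view Γ.g W, s)) :=
      expect_le_expect fun W _ => (h2 Q H K hK _).1
    rw [← mul_expect, expect_add_distrib] at s2
    have q1 : (1 : ℝ) ≤ Fintype.card Q := by exact_mod_cast Fintype.card_pos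
    have q2 : (1 : ℝ) ≤ (2 * Fintype.card Q) ^ r := one_le_pow₀ (by linarith)
    have q3 : (0 : ℝ) ≤ 144 * (Fintype.card Q : ℝ) ^ 5 / K := by positivity
    have q4 : 6 * 1 * (3 * μ + 144 * (Fintype.card Q : ℝ) ^ 5 / K) ≤
        6 * (2 * Fintype.card Q) ^ r * (3 * μ + 144 * (Fintype.card Q : ℝ) ^ 5 / K) := by
      gcongr
    have q5 : (1 : ℝ) ≤ m * n := by exact_mod_cast Nat.mul_pos hm hn
    have q6 : θ * 1 ≤ θ * (m * n) := mul_le_mul_of_nonneg_left q5 hθ.le
    have q7 : 24 * (Fintype.card Q : ℝ) ^ 5 / K ≤ 4 * θ * (m * n) := by linarith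
    have s3 : 2 * (K : ℝ) * ((𝔼 W : ι × ι → E, 𝔼 ξ : Fin K × Tor Q H,
          ∑ c, psi (fun s => G (view Γ.g W, s)) ξ c ^ 2) +
          𝔼 W : ι × ι → E, err K fun s => G (view Γ.g W, s)) ≤
        2 * K * (4 * θ * (m * n) + 4 * θ * (m * n)) :=
      mul_le_mul_of_nonneg_left (add_le_add main (e2.trans q7)) (by positivity)
    refine le_of_sq_le_sq ?_ (by positivity)
    rw [mul_pow, Real.sq_sqrt (by positivity)]
    linarith
  · intro a
    have b1 : 𝔼 W : ι × ι → E, 𝔼 ξ : Fin K × Tor Q H,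
        zdef (rowS Γ.row a) (psi (fun s => G (view Γ.g W, s)) ξ) ≤
        𝔼 W : ι × ι → E, (3 * mdef (fun s => G (view Γ.g W, s)) (rowS Γ.row a) +
          6 * err K fun s => G (view Γ.g W, s)) :=
      expect_le_expect fun W _ => (h2 Q H K hK _).2.1 _
    rw [expect_add_distrib, ← mul_expect, ← mul_expect] at b1
    have := m1 a
    linarith
  · intro t
    refine le_trans (expect_le_expect (g := fun W => 3 * core2Fm Γ G (image t univ) W +
      6 * err K fun s => G (view Γ.g W, s)) fun W _ => ?_) ?_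
    · by_cases h : ∀ c ∈ image t univ, ∀ c' ∈ image t univ, Γ.Cl W c c'
      · rw [if_pos h, core2Fm_pos Γ G h]
        exact (h2 Q H K hK _).2.1 _
      · rw [if_neg h, core2Fm_neg Γ G h]
        have := core2_err_nonneg K fun s => G (view Γ.g W, s)
        linarith
    · rw [expect_add_distrib, ← mul_expect, ← mul_expect]
      have := m2 t
      linarith
  · intro R hR
    refine le_trans (expect_le_expect fun W _ => (h1 Q H K hK).1 _ _) ?_
    rw [← expect_div]
    refine div_le_div_of_nonneg_right ((m4 R).trans ?_) hK'.le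
    have : (#R : ℝ) ≤ m := by exact_mod_cast hR
    gcongr
  · intro ξ R R' a a' φ φ' haa ha' ha
    refine le_trans (core2_pr_mono fun W hW => ?_) (h5 E S ι Γ.g ε hNo R R' a a'
      (fun X => Γ.lab (φ (psi (fun s => G (X, Γ.zer R s)) ξ)) a')
      (fun X => Γ.lab (φ' (psi (fun s => G (X, Γ.zer R' s)) ξ)) a) haa ha' ha)
    obtain ⟨w1, w2, w3⟩ := hW
    intro hL
    refine w3 (Or.inr ?_)
    rw [w1, w2]
    exact hL

end Pool.Agent.P.MP_9cbceb_lc.Q
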