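import Pool.Agent.P.MP_9cbceb_lc.Q.DA

/-! Parallel repetition of projection games through the contraction constant. -/

namespace Pool.Agent.P.MP_9cbceb_lc.Q

open Finset
open scoped BigOperators

section

variable {U J S A : Type} [Fintype U] [Fintype J] [Fintype S] [Fintype A] [DecidableEq A]
  (P : PS U J S A)

noncomputable def dsOp {k : ℕ} (f : (Fin k → ℕ) → (Fin k → S) → ℝ) (u : Fin k → U)
    (al : Fin k → A) : ℝ :=
  𝔼 j : Fin k → J, ∑ be : Fin k → S,
    if ∀ i, P.pj (u i) (j i) (be i) = some (al i) then f (fun i => P.qu (u i) (j i)) be else 0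

theorem ds_expect_cons {X : Type} [Fintype X] {k : ℕ} (F : (Fin (k + 1) → X) → ℝ) :
    𝔼 w, F w = 𝔼 x : X, 𝔼 w : Fin k → X, F (Fin.cons x w) := by
  rw [← expect_product', univ_product_univ]
  exact (Fintype.expect_equiv (Fin.consEquiv fun _ => X) _ _ fun _ => rfl).symm

theorem ds_sum_cons {X : Type} [Fintype X] {k : ℕ} (F : (Fin (k + 1) → X) → ℝ) :
    ∑ w, F w = ∑ x : X, ∑ w : Fin k → X, F (Fin.cons x w) := by
  rw [← Fintype.sum_prod_type']
  exact (Fintype.sum_equiv (Fin.consEquiv fun _ => X) _ _ fun _ => rfl).symm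

omit [Fintype U] [Fintype A] in
theorem ds_cons {k : ℕ} (f : (Fin (k + 1) → ℕ) → (Fin (k + 1) → S) → ℝ) (u : U) (us : Fin k → U)
    (a : A) (al : Fin k → A) :
    dsOp P f (Fin.cons u us) (Fin.cons a al) =
      P.op (fun y b => dsOp P (fun v be => f (Fin.cons y v) (Fin.cons b be)) us al) u a := by
  unfold dsOp PS.op
  rw [ds_expect_cons]
  refine expect_congr rfl fun j _ => ?_
  simp only [ds_sum_cons (X := S)]
  rw [expect_sum_comm]
  refine sum_congr rfl fun b _ => ?_
  have e : ∀ w : Fin k → J, (fun i : Fin (k + 1) => P.qu ((Fin.cons u us : Fin (k + 1) → U) i)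
      ((Fin.cons j w : Fin (k + 1) → J) i)) = Fin.cons (P.qu u j) fun i => P.qu (us i) (w i) :=
    fun w => funext fun i => Fin.cases rfl (fun _ => rfl) i
  by_cases h : P.pj u j b = some a
  · simp only [Fin.forall_fin_succ, Fin.cons_zero, Fin.cons_succ, h, true_and, if_true, e]
  · simp [Fin.forall_fin_succ, h]

omit [Fintype U] [Fintype A] in
theorem ds_sum {k : ℕ} (g : S → (Fin k → ℕ) → (Fin k → S) → ℝ) (u : Fin k → U) (al : Fin k → A) :
    ∑ b, dsOp P (g b) u al = dsOp P (fun v be => ∑ b, g b v be) u al := by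
  unfold dsOp
  rw [← expect_sum_comm]
  refine expect_congr rfl fun j _ => ?_
  rw [sum_comm]
  refine sum_congr rfl fun be _ => ?_
  split_ifs <;> simp

omit [Fintype U] [Fintype A] in
theorem ds_nonneg {k : ℕ} {f : (Fin k → ℕ) → (Fin k → S) → ℝ} (hf : ∀ v be, 0 ≤ f v be)
    (u : Fin k → U) (al : Fin k → A) : 0 ≤ dsOp P f u al :=
  expect_nonneg fun _ _ => sum_nonneg fun _ _ => by split_ifs <;> simp [hf]

theorem ds_main [Nonempty U] [Nonempty J] {lam : ℝ} (h0 : 0 ≤ lam) (hc : P.Con lam) (k : ℕ) :
    ∀ f : (Fin k → ℕ) → (Fin k → S) → ℝ, (∀ v be, 0 ≤ f v be) → (∀ v, ∑ be, f v be ≤ 1) →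
      𝔼 u, ∑ al, dsOp P f u al ^ 2 ≤ lam ^ k := by
  induction k with
  | zero =>
    intro f hf h1
    refine expect_le univ_nonempty fun u _ => ?_
    have h2 : dsOp P f u default ≤ 1 := expect_le univ_nonempty fun j _ => by
      simpa only [IsEmpty.forall_iff, if_true] using h1 _
    have h3 := ds_nonneg P hf u default
    rw [Fintype.sum_unique, pow_zero]
    nlinarith
  | succ k ih =>
    intro f hf h1
    rw [ds_expect_cons]
    simp only [ds_sum_cons (X := A), ds_cons]
    rw [expect_comm]
    calc _ = 𝔼 us : Fin k → U, ∑ al : Fin k → A, 𝔼 u : U, ∑ a : A, P.op (fun y b =>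
          dsOp P (fun v be => f (Fin.cons y v) (Fin.cons b be)) us al) u a ^ 2 := by
          refine expect_congr rfl fun us _ => ?_
          rw [← expect_sum_comm]
          exact expect_congr rfl fun u _ => sum_comm
      _ ≤ 𝔼 us : Fin k → U, ∑ al : Fin k → A, lam * 𝔼 u : U, 𝔼 j : J, (dsOp P (fun v be =>
          ∑ b, f (Fin.cons (P.qu u j) v) (Fin.cons b be)) us al) ^ 2 := by
          refine expect_le_expect fun us _ => sum_le_sum fun al _ => ?_
          refine (hc _ fun y b => ds_nonneg P (fun _ _ => hf _ _) us al).trans (le_of_eq ?_)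
          simp only [ds_sum]
      _ = lam * 𝔼 u : U, 𝔼 j : J, 𝔼 us : Fin k → U, ∑ al : Fin k → A, (dsOp P (fun v be =>
          ∑ b, f (Fin.cons (P.qu u j) v) (Fin.cons b be)) us al) ^ 2 := by
          simp only [← mul_sum, ← mul_expect, ← expect_sum_comm]
          congr 1
          rw [expect_comm]
          exact expect_congr rfl fun u _ => expect_comm _ _ _
      _ ≤ lam * lam ^ k := by
          refine mul_le_mul_of_nonneg_left (expect_le univ_nonempty fun u _ =>
            expect_le univ_nonempty fun j _ => ih _ (fun _ _ => sum_nonneg fun _ _ => hf _ _)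
            fun v => ?_) h0
          rw [sum_comm, ← ds_sum_cons (fun be => f (Fin.cons (P.qu u j) v) be)]
          exact h1 _
      _ = _ := (pow_succ' _ _).symm

end

theorem ds_ok : DSSt := by
  intro U J S A _ _ _ _ _ _ _ P lam h0 hc k l1 l2
  classical
  let f : ((Fin k → ℕ) → Fin k → S) → (Fin k → ℕ) → (Fin k → S) → ℝ :=
    fun l v be => if be = l v then 1 else 0
  let c : ((Fin k → ℕ) → Fin k → S) → (Fin k → U) → (Fin k → A) → (Fin k → J) → ℝ :=
    fun l u al j => if ∀ i, P.pj (u i) (j i) (l (fun i => P.qu (u i) (j i)) i) = some (al i)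
      then 1 else 0
  have hm : ∀ l, 𝔼 u, ∑ al, dsOp P (f l) u al ^ 2 ≤ lam ^ k := fun l =>
    ds_main P h0 hc k (f l) (fun v be => by simp only [f]; split_ifs <;> norm_num)
      fun v => by simp [f]
  have hop : ∀ l u al, dsOp P (f l) u al = 𝔼 j, c l u al j := fun l u al => by
    refine expect_congr rfl fun j _ => ?_
    rw [sum_eq_single (l fun i => P.qu (u i) (j i))]
    · simp [f, c]
    · intro b _ hb
      simp [f, hb]
    · simp
  have hc0 : ∀ l u al j, 0 ≤ c l u al j := fun l u al j => by
    simp only [c]; split_ifs <;> norm_num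
  let E : (Fin k → U) × (Fin k → J) × (Fin k → J) ≃ (Fin k → U × J × J) :=
    { toFun := fun p i => (p.1 i, p.2.1 i, p.2.2 i)
      invFun := fun e => (fun i => (e i).1, fun i => (e i).2.1, fun i => (e i).2.2)
      left_inv := fun _ => rfl
      right_inv := fun _ => rfl }
  unfold pr
  rw [← Fintype.expect_equiv E _ _ fun _ => rfl, ← univ_product_univ, expect_product]
  calc _ ≤ 𝔼 u : Fin k → U, ∑ al, dsOp P (f l1) u al * dsOp P (f l2) u al := by
        refine expect_le_expect fun u _ => ?_
        simp only [hop, expect_mul_expect, ← expect_sum_comm]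
        rw [← univ_product_univ, expect_product]
        refine expect_le_expect fun j _ => expect_le_expect fun j' _ => ?_
        split_ifs with hw
        · choose al h1 h2 using hw
          refine le_trans ?_ (single_le_sum (f := fun al => c l1 u al j * c l2 u al j')
            (fun al _ => mul_nonneg (hc0 _ _ _ _) (hc0 _ _ _ _)) (mem_univ al))
          have e1 : c l1 u al j = 1 := if_pos h1
          have e2 : c l2 u al j' = 1 := if_pos h2
          rw [e1, e2, one_mul]
        · exact sum_nonneg fun al _ => mul_nonneg (hc0 _ _ _ _) (hc0 _ _ _ _)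
    _ ≤ 𝔼 u : Fin k → U, (∑ al, dsOp P (f l1) u al ^ 2 + ∑ al, dsOp P (f l2) u al ^ 2) / 2 := by
        refine expect_le_expect fun u _ => ?_
        rw [← sum_add_distrib, sum_div]
        exact sum_le_sum fun al _ => by
          nlinarith [sq_nonneg (dsOp P (f l1) u al - dsOp P (f l2) u al)]
    _ ≤ lam ^ k := by
        simp only [div_eq_mul_inv, ← expect_mul, expect_add_distrib]
        linarith [hm l1, hm l2]

end Pool.Agent.P.MP_9cbceb_lc.Q
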