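import Pool.Agent.P.MP_9cbceb_lc.Q.Tools
import Pool.Agent.P.MP_9cbceb_lc.Conv
import Pool.Agent.P.MP_9cbceb_lc.Main

/-! The decision procedure obtained from an approximation algorithm and the gap instances. -/

namespace Pool.Agent.P.MP_9cbceb_lc.Q

open Pool.Agent.Lib.helper21 Pool.Agent.Lib.helper77

def dec_conv (p : Prs × Prs) : ℕ × List (ℕ × ℕ × ℚ) × List (ℕ × ℕ × ℚ) :=
  (conv_n p, conv_l (conv_n p) p.1, conv_l (conv_n p) p.2)

theorem dec_nPT : PT conv_n := by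
  unfold conv_n
  fun_prop

theorem dec_run {A : Alg} (hA : N68a2faeb.IsPolyTime A) : PT fun p => A (dec_conv p) := by
  have hF : PT fun p => N487b59b3.bitEncode (dec_conv p) :=
    conv_pair (conv_nat dec_nPT)
      (conv_pair (conv_l_PT dec_nPT (by fun_prop)) (conv_l_PT dec_nPT (by fun_prop)))
  have h1 : Rl (N487b59b3.bitEncode : ℕ × List (ℕ × ℕ × ℚ) × List (ℕ × ℕ × ℚ) → List Bool)
      fun a => N487b59b3.bitEncode (A a) := MP_2989a6_lc.rl_of_tm2 hA
  have h2 : PT fun x => Raw.mk (N487b59b3.bitEncode (A (dec_conv x))) :=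
    Rl.comp (PT.toRaw hF) (Rl.reindex h1 dec_conv)
  exact (main_decPT.comp (PT.ofRaw.comp h2)).of_eq fun x => main_dec_enc _

/-- Number of pairs of `l` separated by the cut `T`. -/
def dec_c (T : List Bool) (l : Prs) : ℕ := cnt (fun y => T.getD y false) l

theorem dec_cPT {α : Type} [Enc α] {T : α → List Bool} {l : α → Prs} (hT : PT T) (hl : PT l) :
    PT fun a => dec_c (T a) (l a) := by
  have e : PT fun p : α × ℕ × ℕ => T p.1 := hT.comp (by fun_prop)
  exact (PT_countP (g := fun x p => Bool.xor ((T x).getD p.1 false) ((T x).getD p.2 false)) hl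
    ((e.getD (by fun_prop) (by fun_prop)).xor
      (e.getD (by fun_prop) (by fun_prop)))).of_eq fun x => rfl

/-- The test applied to the cut returned by the algorithm. -/
def dec_t (A : Alg) (z : ((Prs × Prs) × ℕ × ℕ) × ℕ) : Bool :=
  decide (0 < dec_c (A (dec_conv z.1.1)) z.1.1.2) &&
    decide (z.1.2.1 * dec_c (A (dec_conv z.1.1)) z.1.1.1 ≤
      z.2 * z.1.2.2 * dec_c (A (dec_conv z.1.1)) z.1.1.2)

theorem dec_tPT {A : Alg} (hA : N68a2faeb.IsPolyTime A) : PT (dec_t A) := by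
  have hT : PT fun z : ((Prs × Prs) × ℕ × ℕ) × ℕ => A (dec_conv z.1.1) :=
    (dec_run hA).comp (g := fun z : ((Prs × Prs) × ℕ × ℕ) × ℕ => z.1.1) (by fun_prop)
  have h1 : PT fun z : ((Prs × Prs) × ℕ × ℕ) × ℕ => dec_c (A (dec_conv z.1.1)) z.1.1.1 :=
    dec_cPT hT (by fun_prop)
  have h2 : PT fun z : ((Prs × Prs) × ℕ × ℕ) × ℕ => dec_c (A (dec_conv z.1.1)) z.1.1.2 :=
    dec_cPT hT (by fun_prop)
  unfold dec_t
  fun_prop

theorem dec_no (A : Alg) (P : Prs × Prs) (a b C : ℕ) (hb : 0 < b)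
    (h : ∀ S, (C + 1) * b * cnt S P.2 ≤ a * cnt S P.1) : dec_t A ((P, a, b), C) = false := by
  have h1 := h fun y => (A (dec_conv P)).getD y false
  unfold dec_t dec_c
  dsimp only
  generalize cnt (fun y => (A (dec_conv P)).getD y false) P.1 = x at h1 ⊢
  generalize cnt (fun y => (A (dec_conv P)).getD y false) P.2 = y at h1 ⊢
  by_cases h0 : 0 < y
  · have h2 : C * b * y < a * x := by
      have := Nat.mul_pos hb h0
      nlinarith
    rw [decide_eq_false (Nat.not_le.2 h2), Bool.and_false]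
  · rw [decide_eq_false h0, Bool.false_and]

theorem dec_yes (A : Alg) (ρ : ℕ → ℝ) (happ : ApproxF ρ A) (P : Prs × Prs) (a b C : ℕ)
    (ha : 0 < a) (hρ : ρ (conv_n P) ≤ C) (S : ℕ → Bool) (p1 : 0 < cnt S P.2)
    (p2 : a * cnt S P.1 ≤ b * cnt S P.2) : dec_t A ((P, a, b), C) = true := by
  have h1 : ∀ e ∈ P.1, e.1 < conv_n P ∧ e.2 < conv_n P :=
    fun e he => conv_lt P (List.mem_append_left _ he)
  have h2 : ∀ e ∈ P.2, e.1 < conv_n P ∧ e.2 < conv_n P :=
    fun e he => conv_lt P (List.mem_append_right _ he)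
  have q0 : 0 < cut (conv_l (conv_n P) P.2) ((List.range (conv_n P)).map S) := by
    rw [conv_cut _ _ _ h2, conv_cnt _ S _ h2]; exact_mod_cast p1
  obtain ⟨q1, q2⟩ := happ _ _ _ (conv_simple _ P.1) (conv_simple _ P.2) (conv_total _ _) _ q0
  rw [conv_cut _ _ _ h2] at q1
  rw [conv_cut _ _ _ h1, conv_cut _ _ _ h2, conv_cut _ _ _ h1, conv_cut _ _ _ h2,
    conv_cnt _ S _ h1, conv_cnt _ S _ h2] at q2
  unfold dec_t dec_c dec_conv
  dsimp only
  generalize cnt (fun y => (A (conv_n P, conv_l (conv_n P) P.1,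
    conv_l (conv_n P) P.2)).getD y false) P.1 = x at q2 ⊢
  generalize cnt (fun y => (A (conv_n P, conv_l (conv_n P) P.1,
    conv_l (conv_n P) P.2)).getD y false) P.2 = y at q1 q2 ⊢
  generalize cnt S P.1 = u at p2 q2
  generalize cnt S P.2 = v at p1 p2 q2
  have h0 : 0 < y := by exact_mod_cast q1
  have h5 : (0 : ℝ) < y := by exact_mod_cast h0
  have h6 : (0 : ℝ) < v := by exact_mod_cast p1
  have ha' : (0 : ℝ) < a := by exact_mod_cast ha
  have p3 : (a : ℝ) * u ≤ b * v := by exact_mod_cast p2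
  push_cast at q2
  have h7 : (u : ℝ) / v ≤ b / a := by
    rw [div_le_div_iff₀ h6 ha']
    linarith
  have h8 : (x : ℝ) / y ≤ C * b / a := by
    refine q2.trans ((mul_le_mul_of_nonneg_right hρ (by positivity)).trans ?_)
    rw [mul_div_assoc]
    exact mul_le_mul_of_nonneg_left h7 (by positivity)
  rw [div_le_div_iff₀ h5 ha'] at h8
  have h9 : a * x ≤ C * b * y := by
    have : (a : ℝ) * x ≤ C * b * y := by linarith
    exact_mod_cast this
  rw [decide_eq_true h0, decide_eq_true h9, Bool.and_true]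

theorem dec_mono {q d : ℕ} {G : Gr} {ε ε' : ℝ} (h : GGap q d G ε) (h' : ε' ≤ ε) :
    GGap q d G ε' := fun a ha =>
  (mul_le_mul_of_nonneg_right h' (by positivity)).trans (h a ha)

theorem dec_ok (h1 : PCPSt) (h2 : RegSt) (h3 : Gap2St) : DecSt := by
  obtain ⟨γ, hγ, hpcp⟩ := h1
  obtain ⟨d, c, hd, hc, hreg⟩ := h2
  obtain ⟨reg, hr, hrx⟩ := hreg 1024 (by norm_num)
  obtain ⟨E, f, hE, hf, hfx⟩ := h3 1024 d (min (γ / c) 1) (by norm_num) hd
    (lt_min (by positivity) one_pos) (min_le_right _ _)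
  refine ⟨E, hE, fun A hA L hL => ?_⟩
  obtain ⟨g, hg, hgx⟩ := hpcp L hL
  have hC : GP (fun p : List Bool × ℕ => E p.2) fun p : List Bool × ℕ => p.2 :=
    GP.of_pt (by fun_prop)
  have hG : GP (fun p : List Bool × ℕ => E p.2) fun p : List Bool × ℕ => reg (g p.1) :=
    GP.of_pt (hr.comp (hg.comp (g := fun p : List Bool × ℕ => p.1) (by fun_prop)))
  have hF : GP (fun p : List Bool × ℕ => E p.2) fun p : List Bool × ℕ => f (reg (g p.1)) p.2 :=
    hf _ _ _ _ hG hC (Bd.self _)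
  have hn : PT fun z : (Prs × Prs) × ℕ × ℕ => conv_n z.1 :=
    dec_nPT.comp (g := fun z : (Prs × Prs) × ℕ × ℕ => z.1) (by fun_prop)
  refine ⟨fun p => dec_t A (f (reg (g p.1)) p.2, p.2), fun p => conv_n (f (reg (g p.1)) p.2).1,
    GP.pt (dec_tPT hA) (hF.pair hC), (GP.pt hn hF).xbNat, fun ρ happ x C hρ => ?_⟩
  obtain ⟨hwf, hy, hno⟩ := hgx x
  obtain ⟨w1, -, -, w2, w3⟩ := hrx _ hwf
  obtain ⟨ha, hb, gy, gn⟩ := hfx _ C w1
  cases hx : L x with
  | false =>
    exact dec_no A _ _ _ C hb (gn (dec_mono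
      (w3 γ hγ.le fun a h => hno hx a a h h) (min_le_left _ _)))
  | true =>
    obtain ⟨S, p1, p2⟩ := gy (w2 (hy hx))
    exact dec_yes A ρ happ _ _ _ C ha hρ S p1 p2

end Pool.Agent.P.MP_9cbceb_lc.Q
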