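import Pool.Agent.P.MP_9cbceb_lc.Q.Tools

/-! The last steps: machines with explicit running times. -/

namespace Pool.Agent.P.MP_9cbceb_lc.Q

open Pool.Agent.Lib.helper21 Pool.Agent.Lib.helper26 Function

/-- A run shortens each register by at most its number of steps. -/
theorem fin_length_ge {ι : Type} [DecidableEq ι] {p : Prog ι} {s t : St ι} {n : ℕ}
    (h : Run p s t n) (r : ι) : (s r).length ≤ (t r).length + n := by
  induction h with
  | skip s => omega
  | push r' b s =>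
    by_cases h : r = r'
    · subst h; simp; omega
    · rw [update_of_ne h]; omega
  | seq _ _ ih1 ih2 => omega
  | caseN hs _ ih => omega
  | @caseC r' pn pb s t n b l hs _ ih =>
    by_cases h : r = r'
    · subst h; simp [hs] at ih ⊢; omega
    · rw [update_of_ne h] at ih; omega
  | loopN hs => omega
  | @loopC r' pb s t u m n b l hs _ _ ih1 ih2 =>
    by_cases h : r = r'
    · subst h; simp [hs] at ih1 ⊢; omega
    · rw [update_of_ne h] at ih1; omega
  | mono _ hmn ih => omega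

theorem fin_bd_in {α : Type} {B : α → ℕ} {i : α → List Bool} {o : α → Bool}
    (h : RealT B i fun a => [o a]) : Bd B fun a => (i a).length := by
  obtain ⟨ι, _, _, p, T, hT, hp⟩ := h
  exact ((Bd.const _ 1).add hT).mono fun a => fin_length_ge (hp a) none

theorem fin_pre {α β : Type} [Enc α] [Enc β] {g : α → β} (hg : PT g) {B : β → ℕ} {o : β → Bool}
    (h : RealT B Enc.enc fun p => [o p]) (hs : ∀ z, sz z ≤ sz (g z)) :
    RealT (fun z => B (g z)) Enc.enc fun z => [o (g z)] :=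
  (RealT.size hg (((fin_bd_in h).reindex g).mono hs)).comp (h.reindex g)

theorem fin_poly (q : Polynomial ℕ) : ∃ c, ∀ n, 2 ≤ n → q.eval n + 1 ≤ n ^ c := by
  induction q using Polynomial.induction_on' with
  | add p q hp hq =>
    obtain ⟨c, hc⟩ := hp
    obtain ⟨d, hd⟩ := hq
    refine ⟨c + d, fun n hn => ?_⟩
    have := Nat.mul_le_mul (hc n hn) (hd n hn)
    rw [Polynomial.eval_add, pow_add]
    nlinarith
  | monomial k c =>
    refine ⟨c + k, fun n hn => ?_⟩
    have h1 : c + 1 ≤ n ^ c := (Nat.lt_two_pow_self).trans_le (Nat.pow_le_pow_left hn _)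
    have h2 : 1 ≤ n ^ k := Nat.one_le_pow _ _ (by omega)
    rw [Polynomial.eval_monomial, pow_add]
    nlinarith [Nat.mul_le_mul_right (n ^ k) h1]

theorem fin_run {α : Type} {B : α → ℕ} {i : α → List Bool} {o : α → Bool}
    (h : RealT B i fun a => [o a]) (hB : ∀ a, 2 ≤ B a) :
    ∃ (c : ℕ) (M : Turing.TM2ComputableAux Bool Bool), 0 < c ∧
      ∀ a T, B a ^ c ≤ T → Outputs M (i a) (o a) T := by
  obtain ⟨ι, _, _, p, T, ⟨q, hT⟩, hp⟩ := h
  obtain ⟨c, hc⟩ := fin_poly q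
  refine ⟨c + 1, ⟨machine p, Equiv.refl _, Equiv.refl _⟩, by omega, fun a N hN => ?_⟩
  have h1 : q.eval (B a) + 1 ≤ N := (hc _ (hB a)).trans
    ((Nat.pow_le_pow_right (by have := hB a; omega) (by omega)).trans hN)
  have h2 := machine_run p _ _ (N - 1) ((hp a).mono ((hT a).trans (by omega)))
  have e1 : List.map (Equiv.refl Bool).invFun (i a) = i a := List.map_id _
  have e2 : N - 1 + 1 = N := by omega
  unfold Outputs
  exact e1.symm ▸ e2 ▸ h2

theorem fin_two_le (a : ℕ) {b : ℕ} (hb : 0 < b) (x : List Bool) (C : ℕ) : 2 ≤ bud a b x C :=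
  le_trans (by omega) (Nat.le_self_pow (n := b * 2 ^ C ^ a) (by positivity) (x.length + 2))

theorem fin_bud_pow (a b c : ℕ) (x : List Bool) (C : ℕ) :
    bud a b x C ^ c = bud a (b * c) x C := by
  rw [bud, bud, ← pow_mul]; congr 1; ring

theorem fin1_ok {a : ℕ} (h : TradeI a) : Fin1St a := by
  intro ρ A hρ hA hap L hL
  obtain ⟨b, dec, hb, hr, hc⟩ := h A hA L hL
  have hg : PT fun p : Raw × ℕ => (p.1.w, p.2) := (PT_ofRaw.comp PT.id.fst).pair PT.id.snd
  obtain ⟨c, M, h0, hM⟩ := fin_run (fin_pre hg hr fun z => by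
    have := length_le_sz z.1.w
    rw [sz_prod z, sz_pair, sz_raw]
    omega) fun z => fin_two_le a hb _ _
  refine ⟨b * c, M, fun x C hx => ?_⟩
  have h1 := hM (⟨x⟩, C) _ (fin_bud_pow a b c x C).le
  have h2 : bud a b x C ≤ bud a (b * c) x C :=
    (Nat.le_self_pow h0.ne' _).trans (fin_bud_pow a b c x C).le
  beta_reduce at h1
  rw [hc ρ hρ hap x C ((hρ h2).trans hx)] at h1
  exact h1

/-! ### The choice of the ratio -/

theorem fin_size {α : Type} [Enc α] {f : α → ℕ} (hf : PT f) : PT fun a => (f a).size := by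
  have h1 : PT fun p : α × ℕ => (fun s : ℕ => s / 2)^[p.2] (f p.1) :=
    PT.iterate_add (f := fun _ (s : ℕ) => s / 2) (by fun_prop) PT.id.snd (hf.comp PT.id.fst)
      (fun _ => 0) (Bd.const _ _) fun a s => by simpa using Nat.div_le_self _ _
  have h2 : ∀ i n : ℕ, (fun s : ℕ => s / 2)^[i] n = n / 2 ^ i := fun i n => by
    induction i with
    | zero => simp
    | succ i ih => rw [iterate_succ_apply', ih, Nat.div_div_eq_div_mul, pow_succ]
  refine (PT.filter (g := fun a i => decide (0 < (fun s : ℕ => s / 2)^[i] (f a))) hf.range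
    ((PT.const 0).decLt h1)).length.of_eq fun a => ?_
  have e : (fun i => decide (0 < (fun s : ℕ => s / 2)^[i] (f a))) =
      fun i => decide (i < (f a).size) := by
    funext i
    rw [decide_eq_decide, h2, Nat.lt_size, Nat.div_pos_iff]
    simp
  rw [e, length_filter_lt]
  exact min_eq_left (Nat.size_le.2 Nat.lt_two_pow_self)

/-- The least number whose power is at least `m`. -/
def fin_root (a m : ℕ) : ℕ := ((List.range m).filter fun t => decide (t ^ a < m)).length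

theorem fin_root_spec {a : ℕ} (ha : 0 < a) (m : ℕ) :
    m ≤ fin_root a m ^ a ∧ (fin_root a m - 1) ^ a ≤ m := by
  have ex : ∃ y, m ≤ y ^ a := ⟨m, Nat.le_self_pow ha.ne' m⟩
  have e : (fun t => decide (t ^ a < m)) = fun t => decide (t < Nat.find ex) := by
    funext t
    rw [decide_eq_decide]
    refine ⟨fun h => by_contra fun h' => ?_, fun h => not_le.1 (Nat.find_min ex h)⟩
    exact absurd ((Nat.find_spec ex).trans (Nat.pow_le_pow_left (not_lt.1 h') a)) (not_le.2 h)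
  have e2 : fin_root a m = Nat.find ex := by
    rw [fin_root, e, length_filter_lt]
    exact min_eq_left (Nat.find_min' ex (Nat.le_self_pow ha.ne' m))
  rw [e2]
  refine ⟨Nat.find_spec ex, ?_⟩
  rcases Nat.eq_zero_or_pos (Nat.find ex) with h | h
  · rw [h, Nat.zero_sub, zero_pow ha.ne']; exact Nat.zero_le _
  · exact (not_le.1 (Nat.find_min ex (by omega))).le

theorem fin_log {x : ℝ} {m : ℕ} (h0 : 0 < x) (h : x ≤ 2 ^ m) : Real.log x ≤ m := by
  have h1 := Real.log_le_log h0 h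
  have h2 := Real.log_two_lt_d9
  rw [Real.log_pow] at h1
  nlinarith [Nat.cast_nonneg (α := ℝ) m]

theorem fin_one_le (n : ℕ) : 1 ≤ Real.log (n + 16) := by
  rw [Real.le_log_iff_exp_le (by positivity)]
  have := Real.exp_one_lt_d9
  have := Nat.cast_nonneg (α := ℝ) n
  linarith

theorem fin_mono {K e : ℝ} (hK : 0 ≤ K) (he : 0 ≤ e) :
    Monotone fun n : ℕ => K * Real.log (Real.log (n + 16)) ^ e := fun m n h => by
  have h1 := fin_one_le m
  have h2 : (m : ℝ) ≤ n := by exact_mod_cast h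
  exact mul_le_mul_of_nonneg_left (Real.rpow_le_rpow (Real.log_nonneg h1)
    (Real.log_le_log (by linarith) (Real.log_le_log (by positivity) (by linarith))) he) hK

theorem fin_rho {K : ℝ} {a b n l C : ℕ} (hK : 1 ≤ K) (ha : 0 < a) (hb : 0 < b) (hl : 0 < l)
    (h1 : n ≤ 2 ^ l) (h2 : l ≤ 2 ^ C ^ a) (h3 : 5 * b ≤ C) (h4 : 3 * K ^ (a + 1) ≤ C) :
    K * Real.log (Real.log ((n ^ (b * 2 ^ C ^ a) : ℕ) + 16)) ^ (1 / (a + 1) : ℝ) ≤ C := by
  have e1 : 5 * b ≤ 2 ^ C ^ a :=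
    h3.trans ((Nat.le_self_pow ha.ne' C).trans Nat.lt_two_pow_self.le)
  have e2 : 0 < l * (b * 2 ^ C ^ a) := by positivity
  have e3 : l * (b * 2 ^ C ^ a) + 4 ≤ 2 ^ (3 * C ^ a) :=
    calc l * (b * 2 ^ C ^ a) + 4 ≤ l * (5 * b * 2 ^ C ^ a) := by nlinarith
      _ ≤ 2 ^ C ^ a * (2 ^ C ^ a * 2 ^ C ^ a) := by gcongr
      _ = _ := by rw [← pow_add, ← pow_add]; congr 1; ring
  have e4 : n ^ (b * 2 ^ C ^ a) + 16 ≤ 2 ^ (l * (b * 2 ^ C ^ a) + 4) := by
    have a1 : n ^ (b * 2 ^ C ^ a) ≤ 2 ^ (l * (b * 2 ^ C ^ a)) := by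
      rw [pow_mul 2 l]; exact Nat.pow_le_pow_left h1 _
    have a2 : 2 ^ 1 ≤ 2 ^ (l * (b * 2 ^ C ^ a)) := Nat.pow_le_pow_right (by omega) e2
    rw [pow_add]
    omega
  generalize n ^ (b * 2 ^ C ^ a) = N at e4 ⊢
  have e5 := fin_one_le N
  have e6 : Real.log (N + 16) ≤ (l * (b * 2 ^ C ^ a) + 4 : ℕ) :=
    fin_log (by positivity) (by exact_mod_cast e4)
  have e7 : Real.log (Real.log (N + 16)) ≤ (3 * C ^ a : ℕ) :=
    fin_log (by linarith) (e6.trans (by exact_mod_cast e3))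
  have hK0 : 0 < K := by linarith
  have e8 : Real.log (Real.log (N + 16)) ≤ (C / K) ^ (a + 1) := by
    rw [div_pow, le_div_iff₀ (by positivity), pow_succ (C : ℝ)]
    push_cast at e7
    have a1 : (0 : ℝ) ≤ (C : ℝ) ^ a := by positivity
    have a2 : (0 : ℝ) ≤ K ^ (a + 1) := by positivity
    nlinarith [mul_le_mul_of_nonneg_right e7 a2, mul_le_mul_of_nonneg_left h4 a1]
  have e9 := Real.rpow_le_rpow (Real.log_nonneg e5) e8 (z := 1 / (a + 1)) (by positivity)
  rw [one_div, ← Nat.cast_succ, Real.pow_rpow_inv_natCast (by positivity) (by omega),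
    le_div_iff₀' hK0] at e9
  rwa [one_div, ← Nat.cast_succ]

theorem fin_time (a b C₀ : ℕ) : ∃ k, ∀ n l ll y m : ℕ, n ≤ 2 ^ l → 2 ^ ll ≤ 2 * l → l ≤ m →
    2 ≤ m → (y - 1) ^ a ≤ ll → n ^ (b * 2 ^ (C₀ + y) ^ a) ≤ 2 ^ m ^ k := by
  refine ⟨1 + (b * 2 ^ (2 ^ a * (C₀ + 1) ^ a) + 2 * 2 ^ a), fun n l ll y m h1 h2 h3 h4 h5 => ?_⟩
  have e1 : (C₀ + y) ^ a ≤ 2 ^ a * (C₀ + 1) ^ a + ll * 2 ^ a :=
    calc (C₀ + y) ^ a ≤ ((C₀ + 1) + (y - 1)) ^ a := Nat.pow_le_pow_left (by omega) _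
      _ ≤ 2 ^ (a - 1) * ((C₀ + 1) ^ a + (y - 1) ^ a) :=
        add_pow_le (Nat.zero_le _) (Nat.zero_le _) _
      _ ≤ 2 ^ a * ((C₀ + 1) ^ a + ll) := by gcongr <;> omega
      _ = _ := by ring
  have e2 : 2 ^ (ll * 2 ^ a) ≤ m ^ (2 * 2 ^ a) := by
    rw [pow_mul, pow_mul]
    exact Nat.pow_le_pow_left (by nlinarith) _
  have e3 : 2 ^ (C₀ + y) ^ a ≤ 2 ^ (2 ^ a * (C₀ + 1) ^ a) * m ^ (2 * 2 ^ a) :=
    (Nat.pow_le_pow_right (by omega) e1).trans (by rw [pow_add]; gcongr)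
  generalize 2 ^ (2 ^ a * (C₀ + 1) ^ a) = D at e3 ⊢
  have e4 : b * D ≤ m ^ (b * D) := Nat.lt_two_pow_self.le.trans (Nat.pow_le_pow_left h4 _)
  calc n ^ (b * 2 ^ (C₀ + y) ^ a) ≤ (2 ^ l) ^ (b * 2 ^ (C₀ + y) ^ a) := Nat.pow_le_pow_left h1 _
    _ = 2 ^ (l * (b * 2 ^ (C₀ + y) ^ a)) := (pow_mul _ _ _).symm
    _ ≤ _ := Nat.pow_le_pow_right (by omega) <|
      calc l * (b * 2 ^ (C₀ + y) ^ a) ≤ m * (b * (D * m ^ (2 * 2 ^ a))) := by gcongr
        _ = m * (b * D * m ^ (2 * 2 ^ a)) := by ring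
        _ ≤ m * (m ^ (b * D) * m ^ (2 * 2 ^ a)) := by gcongr
        _ = _ := by rw [pow_add, pow_add, pow_one]

theorem fin2_ok {a : ℕ} (ha : 0 < a) (h : TradeI a) : Fin2St a := by
  intro K A hK hA hap L hL
  obtain ⟨b, dec, hb, hr, hc⟩ := h A hA L hL
  obtain ⟨C₁, hC₁⟩ := exists_nat_ge (3 * K ^ (a + 1))
  have hw : PT fun r : Raw => (r.w.length + 2).size.size :=
    fin_size (fin_size (PT_ofRaw.length.add (PT.const 2)))
  have hg : PT fun r : Raw => (r.w, 5 * b + C₁ + fin_root a (r.w.length + 2).size.size) := by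
    refine PT_ofRaw.pair ((PT.const _).add (PT.comp (f := fin_root a) ?_ hw))
    unfold fin_root
    fun_prop
  obtain ⟨c, M, h0, hM⟩ := fin_run (fin_pre hg hr fun z => by
    have := length_le_sz z.w
    rw [sz_pair, sz_raw]
    omega) fun z => fin_two_le a hb _ _
  obtain ⟨k, hk⟩ := fin_time a (b * c) (5 * b + C₁)
  refine ⟨k, M, fun x => ?_⟩
  obtain ⟨r1, r2⟩ := fin_root_spec ha (x.length + 2).size.size
  have s0 : 0 < (x.length + 2).size := Nat.size_pos.2 (by omega)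
  have s1 := (Nat.lt_size_self (x.length + 2)).le
  have s2 : 2 ^ (x.length + 2).size.size ≤ 2 * (x.length + 2).size := by
    have a1 : 0 < (x.length + 2).size.size := Nat.size_pos.2 s0
    have a2 := Nat.lt_size.1 (Nat.sub_one_lt a1.ne')
    have a3 := pow_succ 2 ((x.length + 2).size.size - 1)
    rw [show (x.length + 2).size.size - 1 + 1 = (x.length + 2).size.size by omega] at a3
    omega
  have s3 : (x.length + 2).size ≤ Nat.log 2 x.length + 2 := by
    have a1 := Nat.lt_pow_succ_log_self (b := 2) (by omega) x.length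
    have a2 : 2 ^ 1 ≤ 2 ^ (Nat.log 2 x.length).succ := Nat.pow_le_pow_right (by omega) (by omega)
    rw [Nat.size_le, pow_succ]
    omega
  have h1 := hM ⟨x⟩ _ ((fin_bud_pow a b c x _).le.trans (hk _ _ _ _ _ s1 s2 s3 (by omega) r2))
  beta_reduce at h1
  rw [hc _ (fin_mono (by linarith) (by positivity)) hap x _ (fin_rho hK ha hb s0 s1
    ((Nat.lt_size_self _).le.trans (Nat.pow_le_pow_right (by omega)
      (r1.trans (Nat.pow_le_pow_left (Nat.le_add_left _ _) _)))) (by omega)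
    (hC₁.trans (by exact_mod_cast (by omega))))] at h1
  exact h1

end Pool.Agent.P.MP_9cbceb_lc.Q
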