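import Pool.Agent.P.MP_9cbceb_lc.Q.Tools

/-! The gap reduction with all parameters explicit. -/

namespace Pool.Agent.P.MP_9cbceb_lc.Q

open Pool.Agent.Lib.helper21

section

variable {α : Type} [Enc α] {e u : α → ℕ}

theorem gap2_mon (hu : GP e u) (c k : ℕ) : GP e fun a => c * u a ^ k :=
  (GP.const c).mul (hu.pow (GP.const k) (Bd.const _ k))

theorem gap2_pY (hu : GP e u) : GP e fun a => pY (u a) :=
  (gap2_mon hu 1024 3).mul (gap2_mon hu 32 4)

theorem gap2_pN (hu : GP e u) : GP e fun a => pN (u a) :=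
  ((gap2_mon hu 32 4).mul (gap2_pY hu)).pow (GP.const 2) (Bd.const _ 2)

end

/-- The composed instance and the two thresholds. -/
def gap2_out (B : Prs × Prs × ℕ × ℕ) (l t n0 : ℕ) : (Prs × Prs) × ℕ × ℕ :=
  (comp2 B.1 B.2.1 B.2.2.1 l, l * B.2.2.2 * t, n0 * B.2.2.1)

theorem gap2_ok (h1 : RepSt) (h2 : Base2St) (h3 : BaseGPSt) (h4 : Comp2St) (h5 : ParSt) :
    Gap2St := by
  intro q d γ hq hd hγ hγ1
  obtain ⟨rep, r1, r2⟩ := h1 q d hq hd
  obtain ⟨n0, hn0, h2⟩ := h2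
  have l0 : 0 ≤ 1 - γ ^ 2 / 256 := by nlinarith
  obtain ⟨k0, hk0⟩ := exists_pow_lt_of_lt_one (x := (1 / 2 ^ 22 : ℝ)) (y := 1 - γ ^ 2 / 256)
    (by positivity) (by have := pow_pos hγ 2; linarith)
  have hQ : 0 < q * q := Nat.mul_pos hq hq
  obtain ⟨⟨p, hp⟩, p2, p3⟩ := h5 (q * q) k0 hQ
  let F : Gr → ℕ → (Prs × Prs) × ℕ × ℕ := fun G u =>
    gap2_out (baseL (rep G (k0 * u ^ 2)) (pQ (q * q) k0 u) (pN u) (pR u) (16 * pJ (q * q) k0 u)
      (pJ (q * q) k0 u ^ 2)) (pL (q * q) k0 u) (pM u * pY u * pJ (q * q) k0 u) n0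
  refine ⟨fun C => pE (q * q) k0 (8 * n0 * (C + 1)), fun G C => F G (8 * n0 * (C + 1)),
    ⟨p.comp (Polynomial.C (8 * n0) * (Polynomial.X + 1)), fun C => by simpa using hp _⟩,
    fun α _ e C G hG hC hb => ?_, fun G C hG => ?_⟩
  · have hu : GP e fun a => 8 * n0 * (C a + 1) := (GP.const _).mul (hC.add (GP.const 1))
    beta_reduce at hb ⊢
    revert hu hb
    generalize hw : (fun a => 8 * n0 * (C a + 1)) = u
    have hw' : ∀ a, 8 * n0 * (C a + 1) = u a := congrFun hw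
    simp only [hw']
    intro hb hu
    obtain ⟨g1, g2, g3⟩ := p2 α e u hu hb
    have hB := h3 α e (fun a => pQ (q * q) k0 (u a)) (fun a => pN (u a)) (fun a => pR (u a))
      (fun a => 16 * pJ (q * q) k0 (u a)) (fun a => pJ (q * q) k0 (u a) ^ 2)
      (fun a => rep (G a) (k0 * u a ^ 2))
      (r1 α e _ G hG (gap2_mon hu k0 2) (hb.mono fun a => by unfold pE; omega)) g1 (gap2_pN hu)
      (gap2_mon hu 16 2) ((GP.const 16).mul g2) (g2.pow (GP.const 2) (Bd.const _ 2))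
      (hb.mono fun a => by unfold pE; omega) (hb.mono fun a => by unfold pE; omega)
      (hb.mono fun a => by unfold pE; omega)
      (hb.mono fun a => show pC (q * q) k0 (u a) ≤ _ by unfold pE; omega)
    have b1 := GP.pt (g := fun B : Prs × Prs × ℕ × ℕ => B.1) PT.id.fst hB
    have b2 := GP.pt (g := fun B : Prs × Prs × ℕ × ℕ => B.2.1) PT.id.snd.fst hB
    have b3 := GP.pt (g := fun B : Prs × Prs × ℕ × ℕ => B.2.2.1) PT.id.snd.snd.fst hB
    have b4 := GP.pt (g := fun B : Prs × Prs × ℕ × ℕ => B.2.2.2) PT.id.snd.snd.snd hB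
    exact (h4.2.2 α e _ _ _ _ b1 b2 b3 g3 (hb.mono fun a => by unfold pE; omega)).pair
      (((g3.mul b4).mul (((gap2_mon hu 32 4).mul (gap2_pY hu)).mul g2)).pair
        ((GP.const n0).mul b3))
  · have hu : 0 < 8 * n0 * (C + 1) := by positivity
    beta_reduce
    generalize hw : 8 * n0 * (C + 1) = u at hu ⊢
    obtain ⟨a1, a2, a3⟩ := r2 G (k0 * u ^ 2) hG
    obtain ⟨c1, c2, c3, c4, c5, c6⟩ := p3 u hu
    have hm : 0 < pM u := by unfold pM; positivity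
    have hy : 0 < pY u := by unfold pY; positivity
    obtain ⟨d1, d2, d3, d4⟩ := h2 (rep G (k0 * u ^ 2)) (pQ (q * q) k0 u) (pM u) (pY u) (pR u)
      (pJ (q * q) k0 u) u (pW (q * q) k0 u) ((1 - γ ^ 2 / 256) ^ (k0 * u ^ 2)) a1
      (pow_pos hQ _) hm hy c1 hu c2 le_rfl (le_of_eq (by unfold pR pM; ring)) (pow_nonneg l0 _)
      (c6 _ l0 hk0.le) c4 le_rfl c5 _ rfl
    replace d3 := fun h => d3 (a2 h)
    replace d4 := fun h => d4 (a3 γ hγ hγ1 h)
    have ht : 0 < pM u * pY u * pJ (q * q) k0 u := by positivity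
    have ht' : u ≤ 4 * (pM u * pY u * pJ (q * q) k0 u) := by
      have e1 : u ≤ u ^ 4 := Nat.le_self_pow (by omega) u
      have e2 := Nat.le_mul_of_pos_right (pM u) (Nat.mul_pos hy c1)
      rw [← mul_assoc] at e2
      have e3 : pM u = 32 * u ^ 4 := rfl
      omega
    change 0 < (baseL _ _ (pN u) _ _ _).2.2.1 at d1
    change 0 < (baseL _ _ (pN u) _ _ _).2.2.2 at d2
    simp only [F, gap2_out]
    rw [show (pM u * pY u) ^ 2 = pN u from rfl] at d3 d4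
    rw [show 12 * (pN u * (16 * pJ (q * q) k0 u) + 1) ^ 2 * pW (q * q) k0 u * (tysL (pN u)
      (pN u * pQ (q * q) k0 u ^ pN u) (pR u) (16 * pJ (q * q) k0 u)).length = pL (q * q) k0 u
      from rfl, ← Nat.cast_mul (pM u), ← Nat.cast_mul (pM u * pY u)] at d4
    generalize baseL (rep G (k0 * u ^ 2)) (pQ (q * q) k0 u) (pN u) (pR u) (16 * pJ (q * q) k0 u)
      (pJ (q * q) k0 u ^ 2) = B at d1 d2 d3 d4 ⊢
    generalize pM u * pY u * pJ (q * q) k0 u = t at ht ht' d3 d4 ⊢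
    generalize pL (q * q) k0 u = l at c3 d4 ⊢
    clear c1 c2 c4 c5 c6 hm hy
    refine ⟨Nat.mul_pos (Nat.mul_pos c3 d2) ht, Nat.mul_pos hn0 d1, fun h => ?_, fun h T => ?_⟩
    · obtain ⟨S, s0, s1, s2, s3⟩ := d3 h
      obtain ⟨T, t1, t2⟩ := h4.1 B.1 B.2.1 B.2.2.1 S s0 s1 s2 l
      have s4 : 0 < cnt S B.2.1 :=
        Nat.pos_of_mul_pos_left ((Nat.mul_pos ht d2).trans_le s3)
      have s5 : 0 < l * cnt S B.2.1 * B.2.2.1 ^ l := by positivity
      refine ⟨T, Nat.pos_of_mul_pos_right (s5.trans_eq t2.symm), ?_⟩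
      rw [t1, mul_assoc n0, mul_comm B.2.2.1, t2]
      calc l * B.2.2.2 * t * B.2.2.1 ^ l = l * B.2.2.1 ^ l * (t * B.2.2.2) := by ring
        _ ≤ l * B.2.2.1 ^ l * (n0 * cnt S B.2.1) := Nat.mul_le_mul_left _ s3
        _ = _ := by ring
    · obtain ⟨κ, k1, k2, k3, k4⟩ := d4 h
      have hu' : (0 : ℝ) < u := by exact_mod_cast hu
      have e1 : (1 : ℝ) ≤ 4 * t / u := by
        rw [le_div_iff₀ hu', one_mul]
        exact_mod_cast ht'
      have e2 := h4.2.1 B.1 B.2.1 B.2.2.1 l (4 * t / u * B.2.2.2) κ (by positivity) k1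
        (k2.trans (mul_le_mul_of_nonneg_left (le_mul_of_one_le_left (by positivity) e1)
          (by positivity))) k3 k4 T
      have e3 : (u : ℝ) = 8 * n0 * (C + 1) := by exact_mod_cast hw.symm
      have e4 := mul_le_mul_of_nonneg_left e2 (div_pos hu' (by norm_num : (0 : ℝ) < 8)).le
      have e5 : (u : ℝ) / 8 * (2 * l * (4 * t / u * B.2.2.2) *
          cnt T (comp2 B.1 B.2.1 B.2.2.1 l).1) =
          l * B.2.2.2 * t * cnt T (comp2 B.1 B.2.1 B.2.2.1 l).1 := by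
        field_simp
        ring
      rw [e5, e3] at e4
      have e6 : ((C : ℝ) + 1) * (n0 * B.2.2.1) * cnt T (comp2 B.1 B.2.1 B.2.2.1 l).2 ≤
          l * B.2.2.2 * t * cnt T (comp2 B.1 B.2.1 B.2.2.1 l).1 := by linarith
      exact_mod_cast e6

end Pool.Agent.P.MP_9cbceb_lc.Q
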