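import Pool.Agent.P.MP_9cbceb_lc.Q.DA
import Pool.Agent.P.MP_9cbceb_lc.Honest

/-! The spread of a sum of independent tent coordinates. -/

namespace Pool.Agent.P.MP_9cbceb_lc.Q

open Finset
open scoped BigOperators

/-- number of steps -/
def hon_cnt {K : ℕ} (b : Fin K → Bool) : ℕ := #{k | b k = true}

theorem hon_walk {Q : Type} (H : ℕ) {K : ℕ} (ω : Fin K → Q → Bool) (c : Q) :
    walk H ω c = (hon_cnt (fun k => ω k c) : ZMod H) := by
  unfold walk hon_cnt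
  rw [Finset.sum_apply, card_filter]
  push_cast
  rfl

theorem hon_step {H : ℕ} [NeZero H] (x : ZMod H) : |(tent (x + 1) : ℝ) - tent x| ≤ 1 := by
  have h1 : x.val < H := ZMod.val_lt x
  have h2 : (x + 1).val = (x.val + 1) % H := by
    rw [ZMod.val_add, ZMod.val_one_eq_one_mod, Nat.add_mod_mod]
  have h3 : tent (x + 1) ≤ tent x + 1 ∧ tent x ≤ tent (x + 1) + 1 := by
    unfold tent
    rcases Nat.lt_or_ge (x.val + 1) H with h | h
    · rw [h2, Nat.mod_eq_of_lt h]; omega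
    · have : x.val + 1 = H := by omega
      rw [h2, this, Nat.mod_self]; omega
  have a1 : (tent (x + 1) : ℝ) ≤ tent x + 1 := by exact_mod_cast h3.1
  have a2 : (tent x : ℝ) ≤ tent (x + 1) + 1 := by exact_mod_cast h3.2
  rw [abs_le]
  constructor <;> linarith

theorem hon_lip {H : ℕ} [NeZero H] (x : ZMod H) (d : ℕ) : |(tent (H := H) (x + d) : ℝ) - tent x| ≤ d := by
  induction d with
  | zero => simp
  | succ d ih =>
    push_cast
    rw [← add_assoc]
    have := hon_step (H := H) (x + d)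
    have h := abs_sub_le (tent (H := H) (x + d + 1) : ℝ) (tent (H := H) (x + d)) (tent x)
    linarith

theorem hon_lip2 {H : ℕ} [NeZero H] (x : ZMod H) (p q : ℕ) :
    ((tent (H := H) (x + p) : ℝ) - tent (H := H) (x + q)) ^ 2 ≤ ((p : ℝ) - q) ^ 2 := by
  wlog h : q ≤ p generalizing p q
  · have := this q p (by omega)
    nlinarith
  obtain ⟨d, rfl⟩ := Nat.exists_eq_add_of_le h
  have := hon_lip (H := H) (x + q) d
  push_cast
  rw [← add_assoc, add_sub_cancel_left]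
  exact sq_le_sq' (abs_le.1 this).1 (abs_le.1 this).2

theorem hon_low0 {J H : ℕ} [NeZero H] (hH : H = 16 * J) (d : ℕ) (hd : d ≤ 4 * J) :
    (d : ℝ) ^ 2 / 4 ≤ 𝔼 x : ZMod H, ((tent (H := H) (x + d) : ℝ) - tent x) ^ 2 := by
  have h0 : 0 < H := Nat.pos_of_ne_zero (NeZero.ne H)
  rw [Fintype.expect_eq_sum_div_card, ZMod.card, le_div_iff₀ (by exact_mod_cast h0)]
  have hinj : Set.InjOn (fun i : ℕ => (i : ZMod H)) (range (4 * J) : Finset ℕ) := by
    intro i hi j hj e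
    have := congrArg ZMod.val e
    simp only [coe_range, Set.mem_Iio] at hi hj
    rwa [ZMod.val_cast_of_lt (by omega), ZMod.val_cast_of_lt (by omega)] at this
  refine le_trans ?_ (sum_le_sum_of_subset_of_nonneg
    (subset_univ ((range (4 * J)).image fun i : ℕ => (i : ZMod H))) fun _ _ _ => sq_nonneg _)
  rw [sum_image hinj]
  have : ∀ i ∈ range (4 * J), ((tent (H := H) ((i : ZMod H) + d) : ℝ) - tent (i : ZMod H)) ^ 2 =
      (d : ℝ) ^ 2 := by
    intro i hi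
    rw [mem_range] at hi
    have e1 : tent (H := H) ((i : ZMod H) + d) = i + d := by
      unfold tent
      rw [← Nat.cast_add, ZMod.val_cast_of_lt (by omega)]; omega
    have e2 : tent (i : ZMod H) = i := by
      unfold tent
      rw [ZMod.val_cast_of_lt (by omega)]; omega
    rw [e1, e2]; push_cast; ring
  rw [sum_congr rfl this, sum_const, card_range, nsmul_eq_mul, hH]
  push_cast
  exact le_of_eq (by ring)

theorem hon_low {J H : ℕ} [NeZero H] (hH : H = 16 * J) (p q : ℕ) :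
    ((p : ℝ) - q) ^ 2 / 4 - ((p : ℝ) - q) ^ 4 / (64 * (J : ℝ) ^ 2) ≤
      𝔼 x : ZMod H, ((tent (H := H) (x + p) : ℝ) - tent (H := H) (x + q)) ^ 2 := by
  have hJ : (0 : ℝ) < J := by
    have := NeZero.ne H
    exact_mod_cast (show 0 < J by omega)
  wlog h : q ≤ p generalizing p q
  · have := this q p (by omega)
    rw [expect_congr rfl fun x _ => show ((tent (x + (p : ZMod H)) : ℝ) - tent (H := H) (x + q)) ^ 2 =
      ((tent (x + (q : ZMod H)) : ℝ) - tent (H := H) (x + p)) ^ 2 by ring]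
    refine le_trans (le_of_eq ?_) this
    ring
  obtain ⟨d, rfl⟩ := Nat.exists_eq_add_of_le h
  have e : 𝔼 x : ZMod H, ((tent (x + ((q + d : ℕ) : ZMod H)) : ℝ) - tent (H := H) (x + q)) ^ 2 =
      𝔼 x : ZMod H, ((tent (H := H) (x + d) : ℝ) - tent x) ^ 2 :=
    Fintype.expect_equiv (Equiv.addRight (q : ZMod H)) _ _ fun x => by
      simp [add_assoc]
  rw [e]
  push_cast
  rw [add_sub_cancel_left]
  rcases le_or_gt d (4 * J) with hd | hd
  · refine le_trans ?_ (hon_low0 hH d hd)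
    have : 0 ≤ (d : ℝ) ^ 4 / (64 * (J : ℝ) ^ 2) := by positivity
    linarith
  · refine le_trans (sub_nonpos.2 ?_) (expect_nonneg fun _ _ => sq_nonneg _)
    have h1 : (4 * J : ℝ) ≤ d := by exact_mod_cast hd.le
    have h2 : (4 * J : ℝ) ^ 2 ≤ (d : ℝ) ^ 2 := pow_le_pow_left₀ (by positivity) h1 2
    rw [le_div_iff₀ (by positivity)]
    nlinarith [mul_le_mul_of_nonneg_left h2 (sq_nonneg (d : ℝ))]

theorem hon_diff {K : ℕ} (b b' : Fin K → Bool) :
    (hon_cnt b : ℝ) - hon_cnt b' = (honest_Z b - honest_Z b') / 2 := by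
  unfold hon_cnt
  rw [honest_card, honest_card]
  ring

theorem hon_Z2 (K : ℕ) : 𝔼 b : Fin K → Bool, 𝔼 b' : Fin K → Bool,
    ((hon_cnt b : ℝ) - hon_cnt b') ^ 2 = K / 2 := by
  obtain ⟨h1, h2, -⟩ := honest_Zmom K
  have : ∀ b : Fin K → Bool, 𝔼 b' : Fin K → Bool, ((hon_cnt b : ℝ) - hon_cnt b') ^ 2 =
      K / 4 + 0 * honest_Z b + 1 / 4 * honest_Z b ^ 2 + 0 * honest_Z b ^ 3 +
        0 * honest_Z b ^ 4 := by
    intro b
    have := honest_poly (fun b' : Fin K → Bool => honest_Z b') (honest_Z b ^ 2 / 4)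
      (-honest_Z b / 2) (1 / 4) 0 0
    rw [h1, h2] at this
    rw [expect_congr rfl fun b' _ => show ((hon_cnt b : ℝ) - hon_cnt b') ^ 2 =
      honest_Z b ^ 2 / 4 + -honest_Z b / 2 * honest_Z b' + 1 / 4 * honest_Z b' ^ 2 +
        0 * honest_Z b' ^ 3 + 0 * honest_Z b' ^ 4 by rw [hon_diff]; ring, this]
    ring
  simp only [this]
  rw [honest_poly (fun b : Fin K → Bool => honest_Z b), h1, h2]
  ring

theorem hon_Z4 (K : ℕ) : 𝔼 b : Fin K → Bool, 𝔼 b' : Fin K → Bool,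
    ((hon_cnt b : ℝ) - hon_cnt b') ^ 4 ≤ 3 * K ^ 2 := by
  obtain ⟨-, -, h4⟩ := honest_Zmom K
  have p : ∀ u v : ℝ, ((u - v) / 2) ^ 4 ≤ u ^ 4 / 2 + v ^ 4 / 2 := by
    intro u v
    have h1 : ((u - v) / 2) ^ 2 ≤ (u ^ 2 + v ^ 2) / 2 := by nlinarith [sq_nonneg (u + v)]
    have h2 := pow_le_pow_left₀ (sq_nonneg _) h1 2
    nlinarith [sq_nonneg (u ^ 2 - v ^ 2)]
  refine (expect_le_expect fun b _ => expect_le_expect fun b' _ =>
    (show ((hon_cnt b : ℝ) - hon_cnt b') ^ 4 ≤ honest_Z b ^ 4 / 2 + honest_Z b' ^ 4 / 2 by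
      rw [hon_diff]; exact p _ _)).trans ?_
  simp only [expect_add_distrib, ← expect_div, Fintype.expect_const]
  linarith

/-- one coordinate of the experiment -/
abbrev hon_T (H K : ℕ) := ZMod H × (Fin K → Bool) × (Fin K → Bool)

/-- the increment of one coordinate -/
def hon_Y {H K : ℕ} (t : hon_T H K) : ℝ :=
  (tent (H := H) (t.1 + hon_cnt t.2.1) : ℝ) - tent (H := H) (t.1 + hon_cnt t.2.2)

theorem hon_three {A B C : Type} [Fintype A] [Fintype B] [Fintype C] (f : A → B → C → ℝ) :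
    𝔼 t : A × B × C, f t.1 t.2.1 t.2.2 = 𝔼 a, 𝔼 b, 𝔼 c, f a b c := by
  rw [honest_prod fun a (p : B × C) => f a p.1 p.2]
  exact expect_congr rfl fun a _ => honest_prod (f a)

/-- regrouping by coordinates -/
def hon_eqv (Q : Type) (H K : ℕ) :
    (Q → hon_T H K) ≃ Tor Q H × (Fin K → Q → Bool) × (Fin K → Q → Bool) where
  toFun x := (fun c => (x c).1, fun k c => (x c).2.1 k, fun k c => (x c).2.2 k)
  invFun p c := (p.1 c, fun k => p.2.1 k c, fun k => p.2.2 k c)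
  left_inv _ := rfl
  right_inv _ := rfl

theorem hon_mom {J H : ℕ} [NeZero H] (hH : H = 16 * J) :
    (𝔼 t : hon_T H (J ^ 2), hon_Y t) = 0 ∧
    (J : ℝ) ^ 2 / 16 ≤ (𝔼 t : hon_T H (J ^ 2), hon_Y t ^ 2) ∧
    (𝔼 t : hon_T H (J ^ 2), hon_Y t ^ 2) ≤ (J : ℝ) ^ 2 ∧
    (𝔼 t : hon_T H (J ^ 2), hon_Y t ^ 4) ≤ 3 * ((J : ℝ) ^ 2) ^ 2 := by
  have hJ : (0 : ℝ) < J := by
    have := NeZero.ne H
    exact_mod_cast (show 0 < J by omega)
  have z2 := hon_Z2 (J ^ 2)
  have z4 := hon_Z4 (J ^ 2)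
  push_cast at z2 z4
  unfold hon_Y
  refine ⟨?_, ?_, ?_, ?_⟩
  · rw [hon_three fun (x : ZMod H) (b b' : Fin (J ^ 2) → Bool) =>
      (tent (H := H) (x + hon_cnt b) : ℝ) - tent (H := H) (x + hon_cnt b')]
    simp only [expect_sub_distrib, Fintype.expect_const, sub_self]
  · rw [hon_three fun (x : ZMod H) (b b' : Fin (J ^ 2) → Bool) =>
      ((tent (H := H) (x + hon_cnt b) : ℝ) - tent (H := H) (x + hon_cnt b')) ^ 2, expect_comm]
    refine le_trans ?_ (expect_le_expect fun b _ => le_trans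
      (expect_le_expect fun b' _ => hon_low hH (hon_cnt b) (hon_cnt b'))
      (expect_comm _ _ _).le)
    simp only [expect_sub_distrib, ← expect_div]
    rw [z2]
    have : (𝔼 b : Fin (J ^ 2) → Bool, 𝔼 b' : Fin (J ^ 2) → Bool,
        ((hon_cnt b : ℝ) - hon_cnt b') ^ 4) / (64 * (J : ℝ) ^ 2) ≤ 3 * (J : ℝ) ^ 2 / 64 := by
      rw [div_le_iff₀ (by positivity)]
      exact z4.trans (le_of_eq (by ring))
    nlinarith [sq_nonneg (J : ℝ)]
  · rw [hon_three fun (x : ZMod H) (b b' : Fin (J ^ 2) → Bool) =>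
      ((tent (H := H) (x + hon_cnt b) : ℝ) - tent (H := H) (x + hon_cnt b')) ^ 2]
    refine expect_le univ_nonempty fun x _ => le_trans (expect_le_expect fun b _ =>
      expect_le_expect fun b' _ => hon_lip2 x (hon_cnt b) (hon_cnt b')) ?_
    rw [z2]
    nlinarith [sq_nonneg (J : ℝ)]
  · rw [hon_three fun (x : ZMod H) (b b' : Fin (J ^ 2) → Bool) =>
      ((tent (H := H) (x + hon_cnt b) : ℝ) - tent (H := H) (x + hon_cnt b')) ^ 4]
    refine expect_le univ_nonempty fun x _ => le_trans (expect_le_expect fun b _ =>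
      expect_le_expect fun b' _ => ?_) z4
    have := pow_le_pow_left₀ (sq_nonneg _) (hon_lip2 x (hon_cnt b) (hon_cnt b')) 2
    rwa [← pow_mul, ← pow_mul] at this

theorem hon_ok : HonSt := by
  refine ⟨1000, by norm_num, fun J H _ hH Q ι _ _ _ hc hi => ?_⟩
  obtain ⟨m1, lo, hi2, hi4⟩ := hon_mom hH
  obtain ⟨_, m2, m4⟩ := honest_mom (Q := Q) (hon_Y (H := H) (K := J ^ 2))
    (3 * ((J : ℝ) ^ 2) ^ 2) m1
    ((pow_le_pow_left₀ (expect_nonneg fun _ _ => sq_nonneg _) hi2 2).trans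
      (by nlinarith [sq_nonneg ((J : ℝ) ^ 2)])) hi4 (univ.map ⟨hc, hi⟩)
  rw [card_map, card_univ] at m2 m4
  have hs : spr (J ^ 2) (fun s : Tor Q H => ∑ a, (tent (s (hc a)) : ℝ)) =
      𝔼 x : Q → hon_T H (J ^ 2), |∑ c ∈ univ.map ⟨hc, hi⟩, hon_Y (x c)| := by
    unfold spr
    rw [← hon_three]
    refine (Fintype.expect_equiv (hon_eqv Q H (J ^ 2)) _ _ fun x => ?_).symm
    rw [sum_map, ← sum_sub_distrib]
    simp only [Pi.add_apply, hon_walk]
    rfl
  rw [hs]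
  have hR0 : 0 ≤ √(Fintype.card ι : ℝ) * J := by positivity
  rcases hR0.eq_or_lt with hR | hR
  · rw [← hR]
    exact mul_nonneg (Nat.cast_nonneg _) (expect_nonneg fun _ _ => abs_nonneg _)
  have hR2 : (√(Fintype.card ι : ℝ) * J) ^ 2 = Fintype.card ι * (J : ℝ) ^ 2 := by
    rw [mul_pow, Real.sq_sqrt (Nat.cast_nonneg _)]
  generalize √(Fintype.card ι : ℝ) * J = R at *
  have hA : 0 < 24 * R := by positivity
  have key := expect_le_expect (s := univ) fun (x : Q → hon_T H (J ^ 2)) _ =>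
    honest_abs (y := ∑ c ∈ univ.map ⟨hc, hi⟩, hon_Y (x c)) hA
  rw [expect_sub_distrib, ← expect_div, ← expect_div, m2] at key
  have c1 : R / 384 ≤ Fintype.card ι * (𝔼 t : hon_T H (J ^ 2), hon_Y t ^ 2) / (24 * R) := by
    rw [le_div_iff₀ hA]
    nlinarith [mul_le_mul_of_nonneg_left lo (Nat.cast_nonneg (Fintype.card ι) :
      (0 : ℝ) ≤ Fintype.card ι)]
  have c2 : (𝔼 x : Q → hon_T H (J ^ 2), (∑ c ∈ univ.map ⟨hc, hi⟩, hon_Y (x c)) ^ 4) /
      (24 * R) ^ 3 ≤ 9 * R / 13824 := by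
    rw [div_le_iff₀ (by positivity)]
    refine m4.trans (le_of_eq ?_)
    rw [show 3 * (Fintype.card ι : ℝ) ^ 2 * (3 * ((J : ℝ) ^ 2) ^ 2) =
      9 * (Fintype.card ι * (J : ℝ) ^ 2) ^ 2 by ring, ← hR2]
    ring
  push_cast
  linarith

end Pool.Agent.P.MP_9cbceb_lc.Q
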