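import Pool.Agent.P.MP_9cbceb_lc.Q.DA
import Pool.Agent.P.MP_9cbceb_lc.CE

/-! Removing rows, the two-row no-signalling bound, and marginals. -/

namespace Pool.Agent.P.MP_9cbceb_lc.Q

open Finset
open scoped BigOperators

theorem mask_prod {A B : Type} [Fintype A] [Fintype B] (f : A × B → ℝ) :
    𝔼 x, f x = 𝔼 a, 𝔼 b, f (a, b) := by
  rw [← univ_product_univ, expect_product]

theorem mask_mink {Ω : Type} [Fintype Ω] {f g : Ω → ℝ} {A B : ℝ} (hA : 0 ≤ A) (hB : 0 ≤ B)
    (hf : 𝔼 x, f x ^ 2 ≤ A ^ 2) (hg : 𝔼 x, g x ^ 2 ≤ B ^ 2) :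
    𝔼 x, (f x + g x) ^ 2 ≤ (A + B) ^ 2 := by
  have h1 := (expect_mul_sq_le_sq_mul_sq univ f g).trans
    (mul_le_mul hf hg (expect_nonneg fun _ _ => sq_nonneg _) (sq_nonneg _))
  rw [← mul_pow] at h1
  have h2 := (abs_le_of_sq_le_sq' h1 (mul_nonneg hA hB)).2
  have h3 : 𝔼 x, (f x + g x) ^ 2 = 𝔼 x, f x ^ 2 + 2 * 𝔼 x, f x * g x + 𝔼 x, g x ^ 2 := by
    rw [mul_expect, ← expect_add_distrib, ← expect_add_distrib]
    exact expect_congr rfl fun x _ => by ring
  rw [h3, add_sq]
  linarith

theorem mask_sq_le (x : ℝ) : x ^ 2 ≤ 2 + 2 * dfc x := by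
  have h1 := le_max_left (|x| - 1) 0
  have h2 := le_max_right (|x| - 1) 0
  have h3 := abs_nonneg x
  rw [dfc, ← sq_abs]
  nlinarith [sq_nonneg (max (|x| - 1) 0 - 1)]

theorem mask_tele {Ω : Type} [Fintype Ω] [Nonempty Ω] (v : ℕ → Ω → ℝ) (k : ℕ)
    (h : ∀ j < k, 𝔼 x, dfc (v (j + 1) x - v j x) ≤ 1) :
    𝔼 x, (v k x - v 0 x) ^ 2 ≤ (2 * k) ^ 2 := by
  induction k with
  | zero => simp
  | succ k ih =>
    have h1 : 𝔼 x, (v (k + 1) x - v k x) ^ 2 ≤ 2 ^ 2 := by
      refine (expect_le_expect fun x _ => mask_sq_le _).trans ?_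
      rw [expect_add_distrib, Fintype.expect_const, ← mul_expect]
      linarith [h k k.lt_succ_self]
    have h2 := mask_mink zero_le_two (by positivity) h1 (ih fun j hj => h j (by omega))
    simp only [sub_add_sub_cancel] at h2
    refine h2.trans_eq ?_
    push_cast
    ring

theorem mask_ok : MaskSt := by
  intro E S ι Q _ _ _ _ _ _ Γ H _ G h R
  rw [← mask_prod fun x : (ι × ι → E) × Tor Q H =>
    (G (view Γ.g x.1, x.2) - G (mask R (view Γ.g x.1), Γ.zer R x.2)) ^ 2]
  induction R using Finset.induction_on with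
  | empty =>
    have e : ∀ x : (ι × ι → E) × Tor Q H,
        G (mask ∅ (view Γ.g x.1), Γ.zer ∅ x.2) = G (view Γ.g x.1, x.2) := fun x => rfl
    simp [e]
  | insert a R ha ih =>
    have h1 := mask_tele (fun j (x : (ι × ι → E) × Tor Q H) =>
      G (mask (if j = 0 then insert a R else R) (view Γ.g x.1), Γ.shr R a j x.2)) H fun j hj => by
        rw [mask_prod]
        simpa using h R a j hj
    have e1 : ∀ s : Tor Q H, Γ.shr R a H s = Γ.zer R s := fun s => funext fun c => by
      simp only [Gad.shr, Gad.zer, min_eq_left (ZMod.val_lt (s c)).le, ZMod.natCast_zmod_val,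
        ite_self]
    have e2 : ∀ s : Tor Q H, Γ.shr R a 0 s = Γ.zer (insert a R) s := fun s => funext fun c => by
      simp only [Gad.shr, Gad.zer, mem_insert, Nat.min_zero, Nat.cast_zero]
      by_cases h1 : Γ.row c ∈ R <;> by_cases h2 : Γ.row c = a <;> simp [h1, h2]
    simp only [e1, e2, if_neg (NeZero.ne H), if_true] at h1
    have h2 := mask_mink (by positivity) (by positivity) ih h1
    simp only [sub_add_sub_cancel] at h2
    refine h2.trans_eq ?_
    rw [card_insert_of_notMem ha]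
    push_cast
    ring

/-- one entry of a view is replaced -/
def mask_upd {ι : Type} [LinearOrder ι] (X : ι → ι → ℕ) (a a' : ι) (n : ℕ) : ι → ι → ℕ :=
  fun b q => if b = a ∧ q = a' then n else X b q

theorem mask_ns_lt {E S ι : Type} [Fintype E] [Nonempty E] [Fintype ι] [LinearOrder ι]
    {g : Game E S} {ε : ℝ} (hg : g.No (1 - ε)) {R R' : Finset ι} {a a' : ι}
    (Φ Φ' : (ι → ι → ℕ) → S) (hl : a < a') (h1 : a' ∈ R) (h2 : a ∈ R') :
    (pr fun W : ι × ι → E =>
      ¬ Lose g W a a' (Φ (mask R (view g W))) (Φ' (mask R' (view g W)))) ≤ ε := by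
  rw [pr, ← CE.expect_update (a, a')]
  refine expect_le univ_nonempty fun W _ => ?_
  have e1 : ∀ e, mask R (view g (Function.update W (a, a') e)) =
      mask R (mask_upd (view g W) a a' (g.v e)) := fun e => funext fun b => by
    by_cases hb : b ∈ R
    · simp only [mask, if_pos hb]
    · have hb' : b ≠ a' := fun h => hb (h ▸ h1)
      simp only [mask, if_neg hb]
      funext q
      by_cases hq : b = a ∧ q = a'
      · simp [mask_upd, view, hq.1, hq.2, hl]
      · simp only [mask_upd, view, if_neg hq]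
        rw [Function.update_of_ne (by simpa using hq), Function.update_of_ne (by simp [hb'])]
  have e2 : ∀ e, mask R' (view g (Function.update W (a, a') e)) =
      mask R' (mask_upd (view g W) a' a (g.u e)) := fun e => funext fun b => by
    by_cases hb : b ∈ R'
    · simp only [mask, if_pos hb]
    · have hb' : b ≠ a := fun h => hb (h ▸ h2)
      simp only [mask, if_neg hb]
      funext q
      by_cases hq : b = a' ∧ q = a
      · simp [mask_upd, view, hq.1, hq.2, hl.not_gt]
      · simp only [mask_upd, view, if_neg hq]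
        rw [Function.update_of_ne (by simp [hb']),
          Function.update_of_ne (by simpa [and_comm] using hq)]
  have h3 := hg (fun n => Φ (mask R (mask_upd (view g W) a a' n)))
    fun n => Φ' (mask R' (mask_upd (view g W) a' a n))
  simp only [e1, e2, Lose, if_pos hl, Function.update_self]
  have hc : (0 : ℝ) < Fintype.card E := by exact_mod_cast Fintype.card_pos
  rw [Fintype.expect_eq_sum_div_card, div_le_iff₀ hc, sum_boole]
  have h4 := card_filter_add_card_filter_not (s := (univ : Finset E)) fun e =>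
    g.R e (Φ (mask R (mask_upd (view g W) a a' (g.v e))))
      (Φ' (mask R' (mask_upd (view g W) a' a (g.u e)))) = false
  rw [card_univ, ← Nat.cast_inj (R := ℝ), Nat.cast_add] at h4
  convert (show _ ≤ ε * Fintype.card E by linarith : ((#{e | ¬ g.R e
    (Φ (mask R (mask_upd (view g W) a a' (g.v e))))
      (Φ' (mask R' (mask_upd (view g W) a' a (g.u e)))) = false} : ℕ) : ℝ) ≤ _)

theorem ns2_ok : NS2St := by
  intro E S ι _ _ _ _ g ε hg R R' a a' Φ Φ' hn h1 h2
  rcases lt_or_gt_of_ne hn with hl | hl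
  · exact mask_ns_lt hg Φ Φ' hl h1 h2
  · refine le_of_eq_of_le (congrArg pr (funext fun W => propext (not_congr ?_)))
      (mask_ns_lt hg Φ' Φ hl h2 h1)
    exact ⟨Lose.symm hn, Lose.symm hn.symm⟩

theorem marg_ok : MargSt := by
  intro E S ι Q _ _ _ _ _ Γ H _ K r τ0 h0 φ
  have sh : ∀ (X : ι → ι → ℕ) (x : Tor Q H), 𝔼 s : Tor Q H, φ (X, s + x) = 𝔼 s, φ (X, s) :=
    fun X x => Fintype.expect_equiv (Equiv.addRight x) _ _ fun _ => rfl
  simp only [mask_prod, Gad.d1, Gad.d2, Gad.p1, h0, if_true, Fintype.expect_const]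
  refine ⟨expect_congr rfl fun W _ => ?_, expect_congr rfl fun W _ => ?_⟩ <;>
    rw [expect_comm] <;> simp only [sh, Fintype.expect_const]

end Pool.Agent.P.MP_9cbceb_lc.Q
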