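import Pool.Agent.P.MP_9cbceb_lc.Q.Tools

/-! The table of one round of the projection game, and its parallel repetition. -/

namespace Pool.Agent.P.MP_9cbceb_lc.Q

open Pool.Agent.Lib.helper21 Pool.Agent.Lib.helper26 Finset

abbrev oneE := (Bool × ℕ) × (ℕ × Bool × ℕ) × (ℕ × Bool × ℕ)

def oneRel (q c a b : ℕ) : Bool := decide (c / (pows 2 (q * q)).getD (a * q + b) 0 % 2 = 1)

def oneOK (q d : ℕ) (G : Gr) (y x : ℕ) : Bool :=
  oneRel q (gcode G (y / d) (y % d)) (x / q) (x % q)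

def oneY (d : ℕ) (G : Gr) (u : Bool × ℕ) (j : ℕ × Bool × ℕ) : ℕ :=
  arcC d G (cond u.1 u.2 j.1) j.2.1 j.2.2

def onePr (q : ℕ) (σ : Bool) (x : ℕ) : ℕ := cond σ (x / q) (x % q)

def oneTb (q d : ℕ) (G : Gr) (e : oneE) : List Bool :=
  (List.range (q * q * (q * q))).map fun z =>
    oneOK q d G (oneY d G e.1 e.2.1) (z / (q * q)) &&
      oneOK q d G (oneY d G e.1 e.2.2) (z % (q * q)) &&
      (!e.1.1 || decide (onePr q e.2.1.2.1 (z / (q * q)) = onePr q e.2.2.2.1 (z % (q * q))))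

def oneJ (d : ℕ) (G : Gr) : List (ℕ × Bool × ℕ) :=
  prd (List.range G.length) (prd [true, false] (List.range d))

def oneL (q d : ℕ) (G : Gr) : Ins2 :=
  (prd (prd [true, false] (List.range G.length)) (prd (oneJ d G) (oneJ d G))).map fun e =>
    (oneY d G e.1 e.2.1, oneY d G e.1 e.2.2, oneTb q d G e)

section

variable {α : Type} [Enc α]

@[fun_prop] theorem one_gat {G : α → Gr} {v i : α → ℕ} (hG : PT G) (hv : PT v) (hi : PT i) :
    PT fun a => gat (G a) (v a) (i a) := by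
  unfold gat
  fun_prop

@[fun_prop] theorem one_rel (q : ℕ) {c x y : α → ℕ} (hc : PT c) (hx : PT x) (hy : PT y) :
    PT fun a => oneRel q (c a) (x a) (y a) := by
  unfold oneRel
  fun_prop

@[fun_prop] theorem one_oK (q d : ℕ) {G : α → Gr} {y x : α → ℕ} (hG : PT G) (hy : PT y)
    (hx : PT x) : PT fun a => oneOK q d (G a) (y a) (x a) := by
  unfold oneOK gcode
  fun_prop

@[fun_prop] theorem one_y (d : ℕ) {G : α → Gr} {u : α → Bool × ℕ} {j : α → ℕ × Bool × ℕ}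
    (hG : PT G) (hu : PT u) (hj : PT j) : PT fun a => oneY d (G a) (u a) (j a) := by
  unfold oneY arcC grot
  fun_prop

@[fun_prop] theorem one_pr (q : ℕ) {σ : α → Bool} {x : α → ℕ} (hσ : PT σ) (hx : PT x) :
    PT fun a => onePr q (σ a) (x a) := by
  unfold onePr
  fun_prop

@[fun_prop] theorem one_tb (q d : ℕ) {G : α → Gr} {e : α → oneE} (hG : PT G) (he : PT e) :
    PT fun a => oneTb q d (G a) (e a) := by
  unfold oneTb
  fun_prop

@[fun_prop] theorem one_j (d : ℕ) {G : α → Gr} (hG : PT G) : PT fun a => oneJ d (G a) := by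
  unfold oneJ
  fun_prop

end

theorem one_pt (q d : ℕ) : PT (oneL q d) := by
  unfold oneL
  fun_prop

theorem one_rel_eq {q a b : ℕ} (c : ℕ) (ha : a < q) (hb : b < q) : oneRel q c a b = rel q c a b := by
  have h : a * q + b < q * q := by nlinarith
  rw [oneRel, pows_getD h, rel, Nat.testBit_eq_decide_div_mod_eq]

theorem one_div {q : ℕ} (x : Fin q × Fin q) : (finProdFinEquiv x : ℕ) / q = x.1 := by
  have h : 0 < q := x.1.pos
  rw [finProdFinEquiv_apply_val, Nat.add_mul_div_left _ _ h, Nat.div_eq_of_lt x.2.2, zero_add]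

theorem one_mod {q : ℕ} (x : Fin q × Fin q) : (finProdFinEquiv x : ℕ) % q = x.2 := by
  rw [finProdFinEquiv_apply_val, Nat.add_mul_mod_self_left, Nat.mod_eq_of_lt x.2.2]

theorem one_oK_eq {q : ℕ} (d : ℕ) (G : Gr) (y : ℕ) (x : Fin q × Fin q) :
    oneOK q d G y (finProdFinEquiv x) = arcOK q d G y x.1 x.2 := by
  rw [oneOK, one_div, one_mod, one_rel_eq _ x.1.2 x.2.2, arcOK]

theorem one_tb_getD {q : ℕ} (d : ℕ) (G : Gr) (e : oneE) (x y : Fin q × Fin q) :
    (oneTb q d G e).getD (finProdFinEquiv x * (q * q) + finProdFinEquiv y) false =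
      (arcOK q d G (oneY d G e.1 e.2.1) x.1 x.2 && arcOK q d G (oneY d G e.1 e.2.2) y.1 y.2 &&
        (!e.1.1 || decide ((cond e.2.1.2.1 x.1 x.2 : ℕ) = (cond e.2.2.2.1 y.1 y.2 : ℕ)))) := by
  have hx := (finProdFinEquiv x).2
  have hy := (finProdFinEquiv y).2
  have h : finProdFinEquiv x * (q * q) + finProdFinEquiv y < q * q * (q * q) := by nlinarith
  have h1 := (Nat.div_mod_unique (a := finProdFinEquiv x * (q * q) + finProdFinEquiv y)
    (b := q * q) (c := finProdFinEquiv y) (d := finProdFinEquiv x) (by omega)).2 ⟨by ring, hy⟩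
  rw [oneTb, List.getD_eq_getElem _ _ (by simpa using h), List.getElem_map, List.getElem_range,
    h1.1, h1.2, one_oK_eq, one_oK_eq, onePr, onePr, one_div, one_mod, one_div, one_mod]

theorem one_rep (q d : ℕ) (G : Gr) : Rep1 (psOf q d G) (q * q) finProdFinEquiv (oneL q d G) := by
  have hJ : Enum (oneJ d G) fun j : Fin G.length × Bool × Fin d =>
      ((j.1 : ℕ), j.2.1, (j.2.2 : ℕ)) := (Enum.range _).prd (Enum.bool.prd (Enum.range d))
  refine ⟨fun e => oneTb q d G ((e.1.1, e.1.2), (e.2.1.1, e.2.1.2.1, e.2.1.2.2),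
    (e.2.2.1, e.2.2.2.1, e.2.2.2.2)), ?_, ?_⟩
  · refine (((Enum.bool.prd (Enum.range _)).prd (hJ.prd hJ)).map _).congr ?_
    rintro ⟨⟨b, v⟩, j, j'⟩
    cases b <;> rfl
  · rintro ⟨⟨b, v⟩, ⟨x1, s1, i1⟩, ⟨x2, s2, i2⟩⟩ x y
    rw [one_tb_getD]
    cases b <;> cases s1 <;> cases s2 <;> simp [psOf, oneY, Fin.ext_iff, and_assoc] <;>
      exact fun _ _ => eq_comm

theorem one_yes {q d : ℕ} {G : Gr} (hG : GWF q d G) (h : GSat q d G) : (psOf q d G).Yes := by
  obtain ⟨a, ha, h0⟩ := h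
  have hs : ∀ v < G.length, ∀ i < d, rel q (gcode G v i) (a v) (a (grot G v i).1) = true := by
    intro v hv i hi
    rw [aviol, card_eq_zero, filter_eq_empty_iff] at h0
    have := @h0 (v, i) (by simp [hv, hi])
    simpa using this
  have dv : ∀ v i, i < d → (v * d + i) / d = v ∧ (v * d + i) % d = i := fun v i hi =>
    (Nat.div_mod_unique (by omega)).2 ⟨by ring, hi⟩
  have key : ∀ x < G.length, ∀ (σ : Bool), ∀ i < d,
      arcOK q d G (arcC d G x σ i) (a (arcC d G x σ i / d))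
        (a (grot G (arcC d G x σ i / d) (arcC d G x σ i % d)).1) = true ∧
      cond σ (a (arcC d G x σ i / d))
        (a (grot G (arcC d G x σ i / d) (arcC d G x σ i % d)).1) = a x := by
    intro x hx σ i hi
    obtain ⟨r1, r2, r3⟩ := hG.2.1 x hx i hi
    cases σ
    · simp only [arcOK, arcC, cond_false, (dv _ _ r2).1, (dv _ _ r2).2]
      exact ⟨hs _ r1 _ r2, by rw [r3]⟩
    · simp only [arcOK, arcC, cond_true, (dv _ _ hi).1, (dv _ _ hi).2]
      exact ⟨hs _ hx _ hi, trivial⟩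
  refine ⟨fun y => (⟨a (y / d), ha _⟩, ⟨a (grot G (y / d) (y % d)).1, ha _⟩), ?_⟩
  rintro ⟨b, v⟩ ⟨x1, s1, i1⟩ ⟨x2, s2, i2⟩
  cases b
  · refine ⟨none, ?_, ?_⟩
    · exact if_pos (key x1 x1.2 s1 i1 i1.2).1
    · exact if_pos (key x2 x2.2 s2 i2 i2.2).1
  · refine ⟨some ⟨a v, ha _⟩, ?_, ?_⟩
    · refine (if_pos (key v v.2 s1 i1 i1.2).1).trans ?_
      have := (key v v.2 s1 i1 i1.2).2
      cases s1 <;> exact congrArg (fun t => some (some t)) (Fin.ext this)
    · refine (if_pos (key v v.2 s2 i2 i2.2).1).trans ?_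
      have := (key v v.2 s2 i2 i2.2).2
      cases s2 <;> exact congrArg (fun t => some (some t)) (Fin.ext this)

theorem one_ok : OneSt := fun q d _ =>
  ⟨oneL q d, one_pt q d, fun G hG => ⟨one_rep q d G, one_yes hG⟩⟩

theorem rep_ok (h1 : OneSt) (h2 : ProdSt) (h3 : DSSt) (h4 : ConSt) : RepSt := by
  intro q d hq hd
  obtain ⟨one, hpt, hone⟩ := h1 q d hq
  obtain ⟨prod, hgp, hprod⟩ := h2
  refine ⟨fun G k => prod (q * q) (one G) k, fun α _ e k G hG hk hb =>
    hgp α e (fun _ => q * q) k (fun a => one (G a)) (GP.const _) (GP.pt hpt hG) hk hb, ?_⟩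
  intro G k hG
  have : Nonempty (Fin G.length) := ⟨⟨0, hG.1⟩⟩
  have : Nonempty (Fin d) := ⟨⟨0, hd⟩⟩
  obtain ⟨p1, p2, p3⟩ := hprod _ _ _ _ (psOf q d G) (q * q) finProdFinEquiv (one G) k
    (Nat.mul_pos hq hq) (hone G hG).1
  refine ⟨p1, fun hs => p2 ((hone G hG).2 hs), fun γ h0 h1 hg => p3 _ ?_⟩
  exact h3 _ _ _ _ (psOf q d G) _ (by nlinarith) (h4 q d G γ hq hd hG h0 h1 hg) k

end Pool.Agent.P.MP_9cbceb_lc.Q
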