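import Pool.Agent.P.MP_9cbceb_lc.Q.Tools

/-! The parameters. -/

namespace Pool.Agent.P.MP_9cbceb_lc.Q

open Pool.Agent.Lib.helper21

theorem par_bd_pow {α : Type} {i f : α → ℕ} (hf : Bd i f) (k : ℕ) : Bd i fun a => f a ^ k := by
  induction k with
  | zero => simpa using Bd.const i 1
  | succ k ih => simpa only [pow_succ] using ih.mul hf

section

variable {α : Type} [Enc α] {e u : α → ℕ}

theorem par_gp_pow {f : α → ℕ} (hf : GP e f) (k : ℕ) : GP e fun a => f a ^ k :=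
  hf.pow (GP.const k) (Bd.const _ k)

omit [Enc α] in
theorem par_bd (hu : Bd e u) : (Bd e fun a => pR (u a)) ∧ Bd e fun a => pN (u a) := by
  have hM : Bd e fun a => pM (u a) := (Bd.const _ 32).mul (par_bd_pow hu 4)
  have hY : Bd e fun a => pY (u a) := ((Bd.const _ 1024).mul (par_bd_pow hu 3)).mul hM
  exact ⟨(Bd.const _ 16).mul (par_bd_pow hu 2), par_bd_pow (hM.mul hY) 2⟩

theorem par_gp (q k0 : ℕ) (hu : GP e u) (hb : Bd e u) :
    (GP e fun a => pQ q k0 (u a)) ∧ (GP e fun a => pJ q k0 (u a)) ∧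
      (GP e fun a => pL q k0 (u a)) ∧ GP e fun a => pE q k0 (u a) := by
  obtain ⟨bR, bN⟩ := par_bd hb
  have hR : GP e fun a => pR (u a) := (GP.const 16).mul (par_gp_pow hu 2)
  have hM : GP e fun a => pM (u a) := (GP.const 32).mul (par_gp_pow hu 4)
  have hY : GP e fun a => pY (u a) := ((GP.const 1024).mul (par_gp_pow hu 3)).mul hM
  have hN : GP e fun a => pN (u a) := par_gp_pow (hM.mul hY) 2
  have hk : GP e fun a => k0 * u a ^ 2 := (GP.const k0).mul (par_gp_pow hu 2)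
  have hQ : GP e fun a => pQ q k0 (u a) :=
    (GP.const q).pow hk ((Bd.const _ k0).mul (par_bd_pow hb 2))
  have hC : GP e fun a => pC q k0 (u a) := hN.mul (hQ.pow hN bN)
  have hW : GP e fun a => pW q k0 (u a) :=
    ((GP.const 72).mul (par_gp_pow hu 2)).mul (((GP.const 2).mul hC).pow hR bR)
  have hJ : GP e fun a => pJ q k0 (u a) := ((GP.const 48).mul hW).mul (par_gp_pow hC 3)
  have hH : GP e fun a => 16 * pJ q k0 (u a) := (GP.const 16).mul hJ
  have hL : GP e fun a => pL q k0 (u a) :=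
    ((((GP.const 12).mul (par_gp_pow ((hN.mul hH).add (GP.const 1)) 2)).mul hW).mul
      (((((GP.const 4).mul hN).mul (hC.pow hR bR)).mul ((GP.const 2).pow hN bN)).mul hH)).of_eq
      fun a => by rw [pL, tysL_length]
  exact ⟨hQ, hJ, hL,
    (((((hu.add hk).add hR).add hN).add hC).add (par_gp_pow hJ 2)).add hL⟩

end

theorem par_lam {k0 u : ℕ} (hu : 0 < u) {lam : ℝ} (h0 : 0 ≤ lam) (h : lam ^ k0 ≤ 1 / 2 ^ 22) :
    4 * (pM u : ℝ) ^ 2 * lam ^ (k0 * u ^ 2) * u ^ 2 ≤ 1 := by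
  have h1 : lam ^ (k0 * u ^ 2) ≤ (1 / 2 ^ 22) ^ u ^ 2 := by
    rw [pow_mul]; exact pow_le_pow_left₀ (pow_nonneg h0 _) h _
  have h2 : 4 * pM u ^ 2 * u ^ 2 ≤ (2 ^ 22) ^ u ^ 2 := by
    have a1 : u ≤ u ^ 2 := by nlinarith
    have a2 : u ^ 10 ≤ (2 ^ u) ^ 10 := Nat.pow_le_pow_left Nat.lt_two_pow_self.le _
    calc 4 * pM u ^ 2 * u ^ 2 = 2 ^ 12 * u ^ 10 := by rw [pM]; ring
      _ ≤ 2 ^ 12 * (2 ^ u) ^ 10 := Nat.mul_le_mul_left _ a2
      _ = 2 ^ (12 + u * 10) := by rw [← pow_mul, ← pow_add]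
      _ ≤ 2 ^ (22 * u ^ 2) := Nat.pow_le_pow_right two_pos (by omega)
      _ = (2 ^ 22) ^ u ^ 2 := pow_mul _ _ _
  have h3 : (4 * (pM u : ℝ) ^ 2 * u ^ 2) ≤ (2 ^ 22) ^ u ^ 2 := by exact_mod_cast h2
  calc 4 * (pM u : ℝ) ^ 2 * lam ^ (k0 * u ^ 2) * u ^ 2
      = (4 * (pM u : ℝ) ^ 2 * u ^ 2) * lam ^ (k0 * u ^ 2) := by ring
    _ ≤ (2 ^ 22) ^ u ^ 2 * (1 / 2 ^ 22) ^ u ^ 2 :=
        mul_le_mul h3 h1 (pow_nonneg h0 _) (by positivity)
    _ = 1 := by rw [← mul_pow, mul_one_div_cancel (by positivity), one_pow]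

theorem par_ok : ParSt := by
  intro q k0 hq
  refine ⟨?_, fun α _ e u hu hb => ?_, fun u hu => ?_⟩
  · obtain ⟨p, ⟨r, hr⟩, h⟩ :=
      (par_gp (e := fun a : ℕ => a) q k0 (GP.of_pt PT.id) (Bd.self _)).2.2.2.xbNat
    refine ⟨(Polynomial.X + Polynomial.C 2) * r, fun u => (h u).trans ?_⟩
    rw [Polynomial.eval_mul, Polynomial.eval_add, Polynomial.eval_X, Polynomial.eval_C, pow_mul,
      sz_nat]
    exact (Nat.pow_le_pow_left Nat.lt_two_pow_self.le _).trans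
      (Nat.pow_le_pow_right (by positivity) (hr u))
  · have h := par_gp q k0 hu (hb.mono fun a => by unfold pE; omega)
    exact ⟨h.1, h.2.1, h.2.2.1⟩
  · have hM : 0 < pM u := by unfold pM; positivity
    have hY : 0 < pY u := by unfold pY; positivity
    have hN : 0 < pN u := by unfold pN; positivity
    have hQ : 0 < pQ q k0 u := by unfold pQ; positivity
    have hC : 0 < pC q k0 u := by unfold pC; positivity
    have hW : 0 < pW q k0 u := by unfold pW; positivity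
    have hJ : 0 < pJ q k0 u := by unfold pJ; positivity
    refine ⟨hJ, hW, by rw [pL, tysL_length]; positivity, ?_, ?_, fun lam h0 h => par_lam hu h0 h⟩
    · have a1 : u ^ 2 ≤ u ^ 6 := Nat.pow_le_pow_right hu (by norm_num)
      have a2 : pM u ≤ pM u ^ 2 := by nlinarith
      have a3 := Nat.mul_le_mul a1 a2
      rw [pY]
      nlinarith
    · have a1 : 0 < 48 * pW q k0 u * pC q k0 u := by positivity
      have a2 := Nat.mul_le_mul_left (48 * pW q k0 u * pC q k0 u ^ 5) a1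
      rw [pJ]
      refine le_trans (by omega) (a2.trans_eq (by ring))

end Pool.Agent.P.MP_9cbceb_lc.Q
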