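import Pool.Agent.P.MP_9cbceb_lc.Q.Tools

/-! The parallel repetition of a game given by tables. -/

namespace Pool.Agent.P.MP_9cbceb_lc.Q

open Pool.Agent.Lib.helper21 Pool.Agent.Lib.helper26 Finset

def prodT (q Q k : ℕ) (pq : List ℕ) (w : Ins2) : List Bool :=
  (List.range (Q * Q)).map fun z => (List.range k).all fun i =>
    (w.getD i (0, 0, [])).2.2.getD (z / Q / pq.getD i 0 % q * q + z % Q / pq.getD i 0 % q) false

def prodE (q Q k : ℕ) (pw pq : List ℕ) (w : Ins2) : Cn :=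
  (cod pw (w.map fun c => c.1), cod pw (w.map fun c => c.2.1), prodT q Q k pq w)

def prodL (q : ℕ) (I : Ins2) (k : ℕ) : Ins2 :=
  (conc_tup I k).map (prodE q (q ^ k) k (pows (sz I + 1) k) (pows q k))

section

variable {α : Type} [Enc α]

@[fun_prop] theorem prod_PT_T {q Q k : α → ℕ} {pq : α → List ℕ} {w : α → Ins2} (h1 : PT q)
    (h2 : PT Q) (h3 : PT k) (h4 : PT pq) (h5 : PT w) :
    PT fun a => prodT (q a) (Q a) (k a) (pq a) (w a) := by
  unfold prodT
  fun_prop

@[fun_prop] theorem prod_PT_E {q Q k : α → ℕ} {pw pq : α → List ℕ} {w : α → Ins2} (h1 : PT q)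
    (h2 : PT Q) (h3 : PT k) (h4 : PT pw) (h5 : PT pq) (h6 : PT w) :
    PT fun a => prodE (q a) (Q a) (k a) (pw a) (pq a) (w a) := by
  unfold prodE
  fun_prop

theorem prod_gp {e q k : α → ℕ} {I : α → Ins2} (hq : GP e q) (hI : GP e I) (hk : GP e k)
    (hb : Bd e k) : GP e fun a => prodL (q a) (I a) (k a) := by
  have h1 : GP e fun a => sz (I a) + 1 := GP.pt (g := fun I : Ins2 => sz I + 1) (by fun_prop) hI
  exact GP.pt (g := fun p : (ℕ × ℕ × ℕ) × List ℕ × List ℕ × List Ins2 =>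
    p.2.2.2.map (prodE p.1.1 p.1.2.1 p.1.2.2 p.2.1 p.2.2.1)) (by fun_prop)
    ((hq.pair ((hq.pow hk hb).pair hk)).pair
      ((h1.pows hk hb).pair ((hq.pows hk hb).pair (hI.tup hk hb))))

end

theorem prod_rel {q k : ℕ} (pw : List ℕ) (g : Fin k → Cn) (a b : ℕ) :
    relL (q ^ k) (prodE q (q ^ k) k pw (pows q k) (List.ofFn g)) a b = true ↔
      a < q ^ k ∧ b < q ^ k ∧
        ∀ i : Fin k, (g i).2.2.getD (a / q ^ (i : ℕ) % q * q + b / q ^ (i : ℕ) % q) false = true := by
  simp only [relL, Bool.and_eq_true, decide_eq_true_eq, and_assoc]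
  refine and_congr_right fun ha => and_congr_right fun hb => ?_
  have h1 : a * q ^ k + b < q ^ k * q ^ k := by nlinarith
  have h2 : (a * q ^ k + b) / q ^ k = a := by
    rw [add_comm, Nat.add_mul_div_right _ _ (by omega), Nat.div_eq_of_lt hb, zero_add]
  have h3 : (a * q ^ k + b) % q ^ k = b := by
    rw [add_comm, Nat.add_mul_mod_self_right, Nat.mod_eq_of_lt hb]
  have h4 : ∀ i : Fin k, (List.ofFn g).getD i (0, 0, []) = g i := fun i => by
    simp [List.getD_eq_getElem?_getD]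
  rw [prodE, prodT, List.getD_eq_getElem _ _ (by simpa using h1), List.getElem_map,
    List.getElem_range, h2, h3, List.all_eq_true]
  constructor
  · intro h i
    have := h i (List.mem_range.2 i.2)
    rwa [h4, pows_getD i.2] at this
  · intro h i hi
    have hi := List.mem_range.1 hi
    rw [h4 ⟨i, hi⟩, pows_getD hi]
    exact h ⟨i, hi⟩

theorem prod_lab {q k B : ℕ} (g : ℕ → Fin q) : ∃ lab : ℕ → ℕ, ∀ v : Fin k → ℕ, (∀ i, v i < B) →
    lab (cod (pows B k) (List.ofFn v)) < q ^ k ∧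
      ∀ i : Fin k, lab (cod (pows B k) (List.ofFn v)) / q ^ (i : ℕ) % q = g (v i) := by
  classical
  refine ⟨fun n => if h : ∃ v : Fin k → ℕ, (∀ i, v i < B) ∧ cod (pows B k) (List.ofFn v) = n then
    finFunctionFinEquiv fun i => g (h.choose i) else 0, fun v hv => ?_⟩
  have h : ∃ v' : Fin k → ℕ, (∀ i, v' i < B) ∧
    cod (pows B k) (List.ofFn v') = cod (pows B k) (List.ofFn v) := ⟨v, hv, rfl⟩
  have e : h.choose = v := List.ofFn_injective (cod_inj (by simp) (by simp)
    (List.forall_mem_ofFn_iff.2 h.choose_spec.1) (List.forall_mem_ofFn_iff.2 hv) h.choose_spec.2)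
  beta_reduce
  rw [dif_pos h, e]
  refine ⟨Fin.is_lt _, fun i => ?_⟩
  rw [← finFunctionFinEquiv_symm_apply_val, Equiv.symm_apply_apply]

theorem prod_ok : ProdSt := by
  refine ⟨prodL, fun α _ e q k I => prod_gp, ?_⟩
  intro U J S A _ _ _ _ P q ν I k hq ⟨tb, hE, htb⟩
  have hP : Enum (prodL q I k) _ := (hE.tup k).map _
  have hlen := hP.length
  refine ⟨fun h => ?_, fun ⟨l, hl⟩ => ?_, fun ε hε l1 l2 => ?_⟩
  · rw [h] at hlen
    exact Fintype.card_pos.ne hlen
  · obtain ⟨lab, hlab⟩ := prod_lab (k := k) (B := sz I + 1) fun n => ν (l n)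
    refine ⟨lab, lab, fun e => ?_⟩
    obtain ⟨x, hx⟩ := hP.exists (List.getElem_mem e.2)
    have b : ∀ i, P.qu (x i).1 (x i).2.1 < sz I + 1 ∧ P.qu (x i).1 (x i).2.2 < sz I + 1 :=
      fun i => by
        have := sz_mem (hE.mem (x i))
        simp only [sz_pair, sz_nat] at this
        omega
    have a1 := hlab _ fun i => (b i).1
    have a2 := hlab _ fun i => (b i).2
    change relL (q ^ k) (prodL q I k)[(e : ℕ)] (lab (prodL q I k)[(e : ℕ)].1)
      (lab (prodL q I k)[(e : ℕ)].2.1) = true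
    rw [← hx, prod_rel]
    simp only [prodE, List.map_ofFn, Function.comp_def]
    refine ⟨a1.1, a2.1, fun i => ?_⟩
    rw [a1.2, a2.2]
    exact (htb _ _ _).2 (hl _ _ _)
  · classical
    let lb : (ℕ → ℕ) → (Fin k → ℕ) → Fin k → S := fun l v i =>
      ν.symm ⟨l (cod (pows (sz I + 1) k) (List.ofFn v)) / q ^ (i : ℕ) % q, Nat.mod_lt _ hq⟩
    have h1 := hε (lb l1) (lb l2)
    have h2 := (Enum.self (prodL q I k)).countP fun c => !relL (q ^ k) c (l1 c.1) (l2 c.2.1)
    rw [hP.countP] at h2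
    simp only [Bool.not_eq_true'] at h2
    change _ ≤ ((#{e : Fin (prodL q I k).length | relL (q ^ k) (prodL q I k)[e]
      (l1 (prodL q I k)[e].1) (l2 (prodL q I k)[e].2.1) = false} : ℕ) : ℝ)
    rw [← h2, Fintype.card_fin, hlen]
    rw [pr, Fintype.expect_eq_sum_div_card, sum_boole,
      div_le_iff₀ (Nat.cast_pos.2 Fintype.card_pos)] at h1
    have h3 := card_filter_add_card_filter_not (s := univ) fun e : Fin k → U × J × J =>
      P.Win e (lb l1 fun i => P.qu (e i).1 (e i).2.1) (lb l2 fun i => P.qu (e i).1 (e i).2.2)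
    rw [card_univ] at h3
    refine le_trans (b := ((#{e : Fin k → U × J × J | ¬ P.Win e
      (lb l1 fun i => P.qu (e i).1 (e i).2.1)
      (lb l2 fun i => P.qu (e i).1 (e i).2.2)} : ℕ) : ℝ)) ?_
      (Nat.cast_le.2 (card_le_card fun x hx => ?_))
    · have h4 := congrArg (Nat.cast : ℕ → ℝ) h3
      rw [Nat.cast_add] at h4
      linarith
    · rw [mem_filter] at hx ⊢
      refine ⟨hx.1, Bool.eq_false_iff.2 fun h => hx.2 fun i => (htb _ _ _).1 ?_⟩
      rw [prod_rel] at h
      simpa only [lb, Equiv.apply_symm_apply, prodE, List.map_ofFn, Function.comp_def]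
        using h.2.2 i

end Pool.Agent.P.MP_9cbceb_lc.Q
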