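import Pool.Agent.P.MP_9cbceb_lc.Q.DA

/-! The error of the affine approximation on the discrete torus. -/

namespace Pool.Agent.P.MP_9cbceb_lc.Q

open Finset
open scoped BigOperators

theorem rem_tri {Ξ : Type} [Fintype Ξ] {f g : Ξ → ℝ} {a b : ℝ} (ha : 0 ≤ a) (hb : 0 ≤ b)
    (hf : 𝔼 ξ, f ξ ^ 2 ≤ a ^ 2) (hg : 𝔼 ξ, g ξ ^ 2 ≤ b ^ 2) :
    𝔼 ξ, (f ξ + g ξ) ^ 2 ≤ (a + b) ^ 2 := by
  have h1 : 𝔼 ξ, f ξ * g ξ ≤ a * b := by
    refine le_of_sq_le_sq ((expect_mul_sq_le_sq_mul_sq univ f g).trans ?_) (mul_nonneg ha hb)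
    rw [mul_pow]
    exact mul_le_mul hf hg (expect_nonneg fun _ _ => sq_nonneg _) (sq_nonneg _)
  have h2 : 𝔼 ξ, (f ξ + g ξ) ^ 2 = 𝔼 ξ, f ξ ^ 2 + 2 * 𝔼 ξ, f ξ * g ξ + 𝔼 ξ, g ξ ^ 2 := by
    rw [mul_expect, ← expect_add_distrib, ← expect_add_distrib]
    exact expect_congr rfl fun ξ _ => by ring
  rw [h2]
  nlinarith

variable {Q : Type} [DecidableEq Q] {H : ℕ}

/-- the indicator vector of a set of coordinates -/
def remI (H : ℕ) (A : Finset Q) : Tor Q H := bv H fun c => decide (c ∈ A)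

theorem rem_empty : remI H (∅ : Finset Q) = 0 := by
  ext c
  simp [remI, bv]

theorem rem_insert {A : Finset Q} {c : Q} (h : c ∉ A) :
    remI H (insert c A) = remI H A + Pi.single c 1 := by
  ext c'
  by_cases h1 : c' = c
  · subst h1
    simp [remI, bv, h]
  · simp [remI, bv, h1]

theorem rem_ok (h : TeleSt) : RemSt := by
  intro Q _ _ H _ K hK F β
  have hS : 0 ≤ 4 * (∑ c, nrm (dif c F)) / K := by
    refine div_nonneg (mul_nonneg (by norm_num) (sum_nonneg fun c _ => ?_)) (Nat.cast_nonneg _)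
    exact expect_nonneg fun _ _ => sq_nonneg _
  obtain ⟨e, he, he2⟩ : ∃ e : ℝ, 0 ≤ e ∧ e ^ 2 = 4 * (∑ c, nrm (dif c F)) / K :=
    ⟨_, Real.sqrt_nonneg _, Real.sq_sqrt hS⟩
  have h0 : ∀ (c c' : Q) (x : Tor Q H), 𝔼 ξ : Fin K × Tor Q H,
      dif c' (dif c (top^[ξ.1] F)) (ξ.2 + x) ^ 2 ≤ e ^ 2 := fun c c' x => by
    rw [← univ_product_univ, expect_product, he2]
    refine (le_of_eq (expect_congr rfl fun j _ => ?_)).trans (((h Q H K hK).2.1 F c c').trans ?_)
    · exact Fintype.expect_equiv (Equiv.addRight x) _ _ fun s => rfl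
    · refine div_le_div_of_nonneg_right (mul_le_mul_of_nonneg_left ?_ (by norm_num))
        (Nat.cast_nonneg _)
      exact single_le_sum (f := fun c => nrm (dif c F))
        (fun c _ => expect_nonneg fun _ _ => sq_nonneg _) (mem_univ c)
  have h1 : ∀ (c : Q) (A : Finset Q), 𝔼 ξ : Fin K × Tor Q H,
      (dif c (top^[ξ.1] F) (ξ.2 + remI H A) - dif c (top^[ξ.1] F) ξ.2) ^ 2 ≤ (#A * e) ^ 2 := by
    intro c A
    induction A using Finset.induction_on with
    | empty => simp [rem_empty]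
    | insert c' A hc ih =>
      refine (le_of_eq (expect_congr rfl fun ξ _ => ?_)).trans
        ((rem_tri (by positivity) he ih (h0 c c' (remI H A))).trans_eq ?_)
      · rw [rem_insert hc, ← add_assoc]
        simp only [dif]
        ring
      · rw [card_insert_of_notMem hc]
        push_cast
        ring
  have h2 : ∀ A : Finset Q, 𝔼 ξ : Fin K × Tor Q H, ((top^[ξ.1] F) (ξ.2 + remI H A) -
      (top^[ξ.1] F) ξ.2 - ∑ c ∈ A, dif c (top^[ξ.1] F) ξ.2) ^ 2 ≤ (#A ^ 2 * e) ^ 2 := by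
    intro A
    induction A using Finset.induction_on with
    | empty => simp [rem_empty]
    | insert c A hc ih =>
      refine (le_of_eq (expect_congr rfl fun ξ _ => ?_)).trans
        ((rem_tri (by positivity) (by positivity) ih (h1 c A)).trans ?_)
      · rw [rem_insert hc, ← add_assoc, sum_insert hc]
        simp only [dif]
        ring
      · rw [card_insert_of_notMem hc]
        refine pow_le_pow_left₀ (by positivity) ?_ 2
        push_cast
        nlinarith [mul_nonneg (Nat.cast_nonneg (α := ℝ) #A) he]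
  have h3 : bv H β = remI H (univ.filter fun c => β c = true) := by
    ext c
    simp [remI, bv]
  refine (le_of_eq (expect_congr rfl fun ξ _ => ?_)).trans
    ((h2 (univ.filter fun c => β c = true)).trans ?_)
  · rw [rem, h3, sum_filter]
  · rw [mul_pow, he2, err, ← pow_mul, mul_div_assoc, mul_div_assoc, mul_comm (4 : ℝ) (_ ^ 4),
      mul_assoc]
    refine mul_le_mul_of_nonneg_right (pow_le_pow_left₀ (Nat.cast_nonneg _) ?_ _)
      (by rwa [← mul_div_assoc])
    exact_mod_cast card_le_univ _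

end Pool.Agent.P.MP_9cbceb_lc.Q
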