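import Pool.Agent.P.MP_9cbceb_lc.Q.DA
import Pool.Agent.P.MP_9cbceb_lc.Cube

/-! Riesz products, and the mass of one row. -/

namespace Pool.Agent.P.MP_9cbceb_lc.Q

open Finset
open scoped BigOperators

section

variable {Q : Type} [Fintype Q] [DecidableEq Q]

theorem riesz_univ (f : Q → Bool → ℝ) :
    𝔼 β : Q → Bool, ∏ c, f c (β c) = ∏ c, (f c true + f c false) / 2 := by
  have h := prod_univ_sum (fun _ : Q => (univ : Finset Bool)) f
  rw [Fintype.piFinset_univ] at h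
  rw [Fintype.expect_eq_sum_div_card, ← h, prod_div_distrib]
  simp

theorem riesz_prod (A : Finset Q) (f : Q → Bool → ℝ) :
    𝔼 β : Q → Bool, ∏ c ∈ A, f c (β c) = ∏ c ∈ A, (f c true + f c false) / 2 := by
  have h := riesz_univ fun c b => if c ∈ A then f c b else 1
  simp only [Fintype.prod_ite_mem] at h
  rw [h, ← Fintype.prod_ite_mem A]
  exact prod_congr rfl fun c _ => by split_ifs <;> norm_num

theorem riesz_dfc (x : ℝ) : x ^ 2 ≤ 2 + 2 * dfc x := by
  have h1 : |x| ≤ 1 + max (|x| - 1) 0 := by linarith [le_max_left (|x| - 1) 0]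
  have h2 := pow_le_pow_left₀ (abs_nonneg x) h1 2
  rw [sq_abs] at h2
  unfold dfc
  nlinarith [sq_nonneg (1 - max (|x| - 1) 0)]

theorem riesz_nonneg (A : Finset Q) (Ψ : Q → ℝ) : 0 ≤ zdef A Ψ :=
  expect_nonneg fun _ _ => sq_nonneg _

theorem riesz_sq (A : Finset Q) (Ψ : Q → ℝ) :
    𝔼 β : Q → Bool, (∑ c ∈ A, Ψ c * chi (β c)) ^ 2 = ∑ c ∈ A, Ψ c ^ 2 := by
  have h := cube_ident (Q := Q) (fun _ => 0) 0 fun c => if c ∈ A then Ψ c else 0
  simpa [Fintype.sum_ite_mem] using h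

end

theorem riesz_ok : RieszSt := by
  intro Q _ _ A Ψ
  refine ⟨?_, fun l hl => ?_⟩
  · rw [← riesz_sq]
    refine (expect_le_expect fun β _ => riesz_dfc _).trans_eq ?_
    rw [expect_add_distrib, Fintype.expect_const, ← mul_expect]
    rfl
  set ρ : (Q → Bool) → ℝ := fun β => ∏ c ∈ A, (1 + l c * chi (β c)) with hρ
  have h0 : ∀ β, 0 ≤ ρ β := fun β => prod_nonneg fun c hc => by
    have := abs_le.1 (hl c hc)
    cases β c <;> simp [chi] <;> linarith
  have h1 : 𝔼 β, ρ β = 1 :=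
    (riesz_prod A fun c b => 1 + l c * chi b).trans (prod_eq_one fun c _ => by simp [chi]; ring)
  have h2 : 𝔼 β, ρ β ^ 2 = ∏ c ∈ A, (1 + l c ^ 2) := by
    simp only [hρ, ← prod_pow]
    exact (riesz_prod A fun c b => (1 + l c * chi b) ^ 2).trans
      (prod_congr rfl fun c _ => by simp [chi]; ring)
  have h3 : ∀ c ∈ A, 𝔼 β, ρ β * chi (β c) = l c := fun c hc => by
    have h := riesz_prod A fun c' b => (1 + l c' * chi b) * if c' = c then chi b else 1
    simp only [prod_mul_distrib, prod_ite_eq', hc, if_true] at h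
    refine h.trans ((prod_eq_single_of_mem c hc fun c' _ h' => ?_).trans ?_)
    · simp [chi, h']; ring
    · simp [chi]; ring
  have h4 : ∑ c ∈ A, l c * Ψ c = 𝔼 β, ρ β * ∑ c ∈ A, Ψ c * chi (β c) := by
    simp only [mul_sum]
    rw [expect_sum_comm]
    refine sum_congr rfl fun c hc => ?_
    rw [← h3 c hc, expect_mul]
    exact expect_congr rfl fun β _ => by ring
  have h5 := expect_mul_sq_le_sq_mul_sq univ ρ
    fun β => max (|∑ c ∈ A, Ψ c * chi (β c)| - 1) 0
  rw [h2] at h5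
  have h6 := Real.le_sqrt_of_sq_le h5
  rw [Real.sqrt_mul (prod_nonneg fun c _ => by positivity)] at h6
  rw [h4]
  refine le_trans (expect_le_expect fun β _ => ?_) ((expect_add_distrib _ _ _).trans_le
    (add_le_add h1.le h6))
  have h7 := le_abs_self (∑ c ∈ A, Ψ c * chi (β c))
  have h8 := le_max_left (|∑ c ∈ A, Ψ c * chi (β c)| - 1) 0
  nlinarith [h0 β]

theorem riesz_one (h : RieszSt) {Q : Type} [Fintype Q] [DecidableEq Q] {A : Finset Q}
    {Ψ l : Q → ℝ} {M : ℝ} (h1 : ∀ c ∈ A, |l c| ≤ 1) (h2 : 2 ≤ ∑ c ∈ A, l c * Ψ c)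
    (h3 : ∏ c ∈ A, (1 + l c ^ 2) ≤ M) : 1 ≤ M * zdef A Ψ := by
  have h4 := (h Q A Ψ).2 l h1
  rw [← Real.sqrt_mul (prod_nonneg fun c _ => by positivity)] at h4
  exact (Real.one_le_sqrt.1 (by linarith)).trans
    (mul_le_mul_of_nonneg_right h3 (riesz_nonneg A Ψ))

theorem row_ok (h : RieszSt) : RowSt := by
  intro Q _ _ A Ψ θ r hθ hr
  have hZ := riesz_nonneg A Ψ
  have hA := (h Q A Ψ).1
  refine ⟨fun Ψ' => ?_, fun hc hΨ => ?_⟩
  · have h0 : 0 ≤ ∑ c ∈ A, (Ψ c - Ψ' c) ^ 2 := sum_nonneg fun _ _ => sq_nonneg _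
    have h1 : 0 ≤ 2 ^ r * zdef A Ψ := by positivity
    split_ifs with h2
    · linarith
    by_cases h3 : 1 ≤ 2 ^ r * zdef A Ψ
    · linarith
    push Not at h2
    obtain ⟨s, hs⟩ : ∃ s, s = ∑ c ∈ A, if |Ψ c| ≤ θ / 2 then Ψ c ^ 2 else 0 := ⟨_, rfl⟩
    have hm : ∀ x, x * s = ∑ c ∈ A, if |Ψ c| ≤ θ / 2 then x * Ψ c ^ 2 else 0 := fun x => by
      simp only [hs, mul_sum, mul_ite, mul_zero]
    have h4 : s ≤ θ := by
      by_contra h4
      push Not at h4
      have h5 := hθ.trans h4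
      refine h3 (riesz_one h (l := fun c => if |Ψ c| ≤ θ / 2 then 2 * Ψ c / s else 0)
        (fun c _ => ?_) (le_of_eq ?_) ?_)
      · split_ifs with h6
        · rw [abs_div, abs_mul, abs_two, abs_of_pos h5, div_le_one h5]
          linarith
        · simp
      · have : ∑ c ∈ A, (if |Ψ c| ≤ θ / 2 then 2 * Ψ c / s else 0) * Ψ c = 2 / s * s := by
          rw [hm]
          exact sum_congr rfl fun c _ => by split_ifs <;> ring
        rw [this, div_mul_cancel₀ _ h5.ne']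
      · have h6 : ∑ c ∈ A, (if |Ψ c| ≤ θ / 2 then 2 * Ψ c / s else 0) ^ 2 = 4 / s ^ 2 * s := by
          rw [hm]
          exact sum_congr rfl fun c _ => by split_ifs <;> ring
        have h7 : 4 / s ^ 2 * s ≤ r * (1 / 4) := by
          rw [show 4 / s ^ 2 * s = 4 / s by field_simp, div_le_iff₀ h5]
          nlinarith [(Nat.cast_nonneg r : (0 : ℝ) ≤ r)]
        have h8 : Real.exp (1 / 4) ≤ 2 :=
          (Real.exp_bound_div_one_sub_of_interval (by norm_num) (by norm_num)).trans (by norm_num)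
        calc _ ≤ ∏ c ∈ A, Real.exp ((if |Ψ c| ≤ θ / 2 then 2 * Ψ c / s else 0) ^ 2) :=
              prod_le_prod (fun c _ => by positivity) fun c _ => by
                linarith [Real.add_one_le_exp ((if |Ψ c| ≤ θ / 2 then 2 * Ψ c / s else 0) ^ 2)]
          _ ≤ Real.exp (1 / 4) ^ r := by
              rw [← Real.exp_sum, h6, ← Real.exp_nat_mul]
              exact Real.exp_le_exp.2 h7
          _ ≤ 2 ^ r := pow_le_pow_left₀ (Real.exp_pos _).le h8 r
    have h5 : ∑ c ∈ A, Ψ c ^ 2 ≤ s + 4 * ∑ c ∈ A, (Ψ c - Ψ' c) ^ 2 := by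
      rw [hs, mul_sum, ← sum_add_distrib]
      refine sum_le_sum fun c hc => ?_
      split_ifs with h6
      · linarith [sq_nonneg (Ψ c - Ψ' c)]
      · have h7 : |Ψ c| ≤ 2 * |Ψ c - Ψ' c| := by
          linarith [abs_sub_abs_le_abs_sub (Ψ c) (Ψ' c), h2 c hc]
        have h8 := pow_le_pow_left₀ (abs_nonneg _) h7 2
        rw [mul_pow, sq_abs, sq_abs] at h8
        linarith
    linarith
  · refine riesz_one h (l := fun c => if 0 ≤ Ψ c then 1 else -1) (fun c _ => ?_) ?_ ?_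
    · split_ifs <;> simp
    · have h1 := card_nsmul_le_sum A (fun c => (if 0 ≤ Ψ c then 1 else -1) * Ψ c) (θ / 8)
        fun c hc => (hΨ c hc).trans_eq (by
          split_ifs with h1
          · rw [abs_of_nonneg h1, one_mul]
          · rw [abs_of_neg (not_le.1 h1), neg_one_mul])
      rw [hc, nsmul_eq_mul] at h1
      linarith
    · rw [← hc, ← prod_const]
      exact (prod_congr rfl fun c _ => by split_ifs <;> norm_num).le

end Pool.Agent.P.MP_9cbceb_lc.Q
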