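import Pool.Agent.P.MP_9cbceb_lc.Q.DA
import Pool.Agent.P.MP_9cbceb_lc.Cube

/-! Telescoping estimates for the walk on the discrete torus. -/

namespace Pool.Agent.P.MP_9cbceb_lc.Q

open Finset
open scoped BigOperators

theorem tele_jensen {I : Type} [Fintype I] [Nonempty I] (f : I → ℝ) :
    (𝔼 i, f i) ^ 2 ≤ 𝔼 i, f i ^ 2 := by
  have h0 : 0 ≤ 𝔼 i, (f i - 𝔼 j, f j) ^ 2 := expect_nonneg fun _ _ => sq_nonneg _
  have h1 : ∀ i, (f i - 𝔼 j, f j) ^ 2 = f i ^ 2 - 2 * (𝔼 j, f j) * f i + (𝔼 j, f j) ^ 2 :=
    fun i => by ring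
  simp only [h1, expect_add_distrib, expect_sub_distrib, ← mul_expect, Fintype.expect_const] at h0
  nlinarith

theorem tele_pair {I : Type} [Fintype I] [Nonempty I] (f : I → ℝ) :
    𝔼 i, 𝔼 j, (f i - f j) ^ 2 = 2 * ((𝔼 i, f i ^ 2) - (𝔼 i, f i) ^ 2) := by
  have h1 : ∀ i j, (f i - f j) ^ 2 = f i ^ 2 - 2 * f i * f j + f j ^ 2 := fun i j => by ring
  simp only [h1, expect_add_distrib, expect_sub_distrib, ← mul_expect, ← expect_mul,
    Fintype.expect_const]
  ring

theorem tele_prod {I J : Type} [Fintype I] [Fintype J] (f : I × J → ℝ) :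
    𝔼 x, f x = 𝔼 i, 𝔼 j, f (i, j) := by
  rw [← univ_product_univ, expect_product]

theorem tele_tel {K : ℕ} (a : ℕ → ℝ) :
    𝔼 j : Fin K, (a j - a (j + 1)) = (a 0 - a K) / K := by
  rw [Fintype.expect_eq_sum_div_card, Fin.sum_univ_eq_sum_range (fun j => a j - a (j + 1)),
    sum_range_sub', Fintype.card_fin]

section

variable {Q : Type} [Fintype Q] [DecidableEq Q] {H : ℕ}

theorem tele_flip (X : (Q → Bool) → ℝ) (c : Q) :
    𝔼 β, (X β - X (Function.update β c (!β c))) ^ 2 ≤ 4 * ((𝔼 β, X β ^ 2) - (𝔼 β, X β) ^ 2) := by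
  have hi : Function.Involutive fun β : Q → Bool => Function.update β c (!β c) := fun β => by
    simp
  have h1 : 𝔼 β, X (Function.update β c (!β c)) = 𝔼 β, X β :=
    Fintype.expect_bijective _ hi.bijective _ _ fun β => rfl
  have h2 : 𝔼 β, X (Function.update β c (!β c)) ^ 2 = 𝔼 β, X β ^ 2 :=
    Fintype.expect_bijective _ hi.bijective _ _ fun β => rfl
  have h3 := tele_jensen fun β => X β + X (Function.update β c (!β c))
  have h4 : ∀ β, (X β + X (Function.update β c (!β c))) ^ 2 =
      2 * X β ^ 2 + 2 * X (Function.update β c (!β c)) ^ 2 -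
        (X β - X (Function.update β c (!β c))) ^ 2 := fun β => by ring
  simp only [h4] at h3
  rw [expect_add_distrib, expect_sub_distrib, expect_add_distrib, ← mul_expect, ← mul_expect, h1,
    h2] at h3
  nlinarith

theorem tele_top_sub (F F' : Tor Q H → ℝ) :
    top (fun s => F s - F' s) = fun s => top F s - top F' s := by
  funext s
  simp only [top, expect_sub_distrib]

theorem tele_iter_sub (j : ℕ) (F F' : Tor Q H → ℝ) :
    top^[j] (fun s => F s - F' s) = fun s => top^[j] F s - top^[j] F' s := by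
  induction j with
  | zero => rfl
  | succ j ih => simp only [Function.iterate_succ_apply', ih, tele_top_sub]

theorem tele_dif_top (c : Q) (F : Tor Q H → ℝ) : dif c (top F) = top (dif c F) := by
  funext s
  simp only [top, dif, expect_sub_distrib, add_right_comm s (Pi.single c 1)]

theorem tele_dif_iter (c : Q) (j : ℕ) (F : Tor Q H → ℝ) :
    dif c (top^[j] F) = top^[j] (dif c F) := by
  induction j with
  | zero => rfl
  | succ j ih => simp only [Function.iterate_succ_apply', tele_dif_top, ih]

theorem tele_walk (K : ℕ) (F : Tor Q H → ℝ) (s : Tor Q H) :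
    𝔼 ω : Fin K → Q → Bool, F (s + walk H ω) = top^[K] F s := by
  induction K generalizing F with
  | zero => simp [walk]
  | succ K ih =>
    rw [Function.iterate_succ_apply, ← ih (top F),
      ← Fintype.expect_equiv (Fin.consEquiv fun _ => Q → Bool)
        (fun p => F (s + walk H p.2 + bv H p.1)) _ (fun p => by
          simp only [walk, Fin.sum_univ_succ, Fin.consEquiv_apply, Fin.cons_zero, Fin.cons_succ]
          congr 1
          abel), tele_prod, expect_comm]
    rfl

omit [Fintype Q] in
theorem tele_bv (β : Q → Bool) (c : Q) :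
    bv H (Function.update β c true) = bv H (Function.update β c false) + Pi.single c 1 := by
  funext c'
  by_cases h : c' = c
  · subst h; simp [bv]
  · simp [bv, h]

variable [NeZero H]

theorem tele_shift (f : Tor Q H → ℝ) (x : Tor Q H) : 𝔼 s, f (s + x) = 𝔼 s, f s :=
  Fintype.expect_equiv (Equiv.addRight x) _ _ fun _ => rfl

theorem tele_var (G : Tor Q H → ℝ) :
    𝔼 s, ((𝔼 β : Q → Bool, G (s + bv H β) ^ 2) - (𝔼 β : Q → Bool, G (s + bv H β)) ^ 2) =
      nrm G - nrm (top G) := by
  rw [expect_sub_distrib, expect_comm]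
  simp only [tele_shift fun s => G s ^ 2, Fintype.expect_const]
  rfl

theorem tele_nrm_nonneg (G : Tor Q H → ℝ) : 0 ≤ nrm G := expect_nonneg fun _ _ => sq_nonneg _

theorem tele_varsum (K : ℕ) (G : Tor Q H → ℝ) :
    𝔼 ξ : Fin K × Tor Q H, ((𝔼 β : Q → Bool, (top^[ξ.1] G) (ξ.2 + bv H β) ^ 2) -
      (𝔼 β : Q → Bool, (top^[ξ.1] G) (ξ.2 + bv H β)) ^ 2) = (nrm G - nrm (top^[K] G)) / K := by
  rw [tele_prod]
  simp only [tele_var]
  have := tele_tel (K := K) fun j => nrm (top^[j] G)
  simp only [Function.iterate_succ_apply'] at this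
  exact this

theorem tele_dif_le (c : Q) (G : Tor Q H → ℝ) : nrm (dif c G) ≤ 4 * (nrm G - nrm (top G)) := by
  rw [← tele_var, mul_expect]
  refine le_trans ?_ (expect_le_expect fun s _ => tele_flip (fun β => G (s + bv H β)) c)
  rw [expect_comm]
  refine le_of_eq (Eq.symm ?_)
  rw [← Fintype.expect_const (ι := Q → Bool) (nrm (dif c G))]
  refine expect_congr rfl fun β _ => ?_
  rw [nrm, ← tele_shift (fun s => dif c G s ^ 2) (bv H (Function.update β c false))]
  refine expect_congr rfl fun s _ => ?_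
  rw [dif, add_assoc, ← tele_bv]
  cases h : β c
  · have : Function.update β c false = β := by rw [← h, Function.update_eq_self]
    rw [this, Bool.not_false]
    ring
  · have : Function.update β c true = β := by rw [← h, Function.update_eq_self]
    rw [this, Bool.not_true]

end

theorem tele_ok : TeleSt := by
  intro Q _ _ H _ K hK
  have hK' : (0 : ℝ) < K := by exact_mod_cast hK
  have : Nonempty (Fin K) := ⟨⟨0, hK⟩⟩
  refine ⟨fun F F' => ?_, fun F c c' => ?_, fun F => ?_⟩
  · have h1 : ∀ (ξ : Fin K × Tor Q H) c, psi F ξ c - psi F' ξ c =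
        psi (fun s => F s - F' s) ξ c := fun ξ c => by
      simp only [psi, cor, tele_iter_sub, sub_mul, expect_sub_distrib]
    simp only [h1]
    refine le_trans (expect_le_expect fun ξ _ =>
      (cube_ok Q fun β => (top^[ξ.1] fun s => F s - F' s) (ξ.2 + bv H β)).1) ?_
    rw [tele_varsum]
    have := tele_nrm_nonneg (top^[K] fun s => F s - F' s)
    gcongr
    linarith
  · simp only [tele_dif_iter c]
    refine le_trans (expect_le_expect fun j _ => tele_dif_le c' _) ?_
    have := tele_tel (K := K) fun j => nrm (top^[j] (dif c F))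
    simp only [Function.iterate_succ_apply'] at this
    rw [← mul_expect, this, mul_div_assoc]
    have := tele_nrm_nonneg (top^[K] (dif c F))
    gcongr
    simp only [Function.iterate_zero, id]
    linarith
  · rw [tele_varsum, mul_assoc, mul_div_cancel₀ _ hK'.ne']
    refine (tele_jensen _).trans ?_
    have h2 : ∀ s : Tor Q H, (𝔼 ω : Fin K → Q → Bool, 𝔼 ω' : Fin K → Q → Bool,
        |F (s + walk H ω) - F (s + walk H ω')|) ^ 2 ≤
        2 * ((𝔼 ω : Fin K → Q → Bool, F (s + walk H ω) ^ 2) - top^[K] F s ^ 2) := fun s => by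
      rw [← tele_walk, ← tele_pair]
      refine (tele_jensen _).trans (expect_le_expect fun ω _ => (tele_jensen _).trans_eq ?_)
      simp only [sq_abs]
    refine (expect_le_expect fun s _ => h2 s).trans_eq ?_
    rw [← mul_expect, expect_sub_distrib, expect_comm]
    simp only [tele_shift fun s => F s ^ 2, Fintype.expect_const]
    rfl

end Pool.Agent.P.MP_9cbceb_lc.Q
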