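import Pool.Agent.P.MP_9cbceb_lc.Q.Tools

/-! The padded computation becomes a computation within the time budget. -/

namespace Pool.Agent.P.MP_9cbceb_lc.Q

open Pool.Agent.Lib.helper21 Pool.Agent.Lib.helper26 Function

section

variable {α β γ : Type} [Enc α] [Enc β] [Enc γ] {T : α → ℕ} {v : α → β}

theorem trade_pt (hT : Bd T sz) (hv : RealT T Enc.enc fun a => Enc.enc (v a)) {g : β → γ}
    (hg : PT g) : RealT T Enc.enc fun a => Enc.enc (g (v a)) :=
  hv.comp (RealT.size (Rl.reindex hg v) (hv.bd hT))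

theorem trade_pow (hT : Bd T sz) (hv : RealT T Enc.enc fun a => Enc.enc (v a)) {n m : β → ℕ}
    (hn : PT n) (hm : PT m) (h0 : ∀ b, 0 < m b) (hB : Bd T fun a => m (v a) ^ n (v a)) :
    RealT T Enc.enc fun a => Enc.enc (v a, m (v a) ^ n (v a)) := by
  let step : β × ℕ × ℕ → β × ℕ × ℕ := fun s => (s.1, s.2.1 - 1, s.2.2 * m s.1)
  let go : β × ℕ × ℕ → Bool := fun s => !decide (s.2.1 = 0)
  let init : β → β × ℕ × ℕ := fun I => (I, n I, 1)
  have hs : PT step := by fun_prop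
  have hg : PT go := by fun_prop
  have hi : PT init := by fun_prop
  have hit : ∀ (j : ℕ) (I : β), step^[j] (init I) = (I, n I - j, m I ^ j) := by
    intro j I
    induction j with
    | zero => rfl
    | succ j ih => rw [iterate_succ_apply', ih]; rfl
  have b0 : Bd T fun a => sz (v a) := hv.bd hT
  have b2 : Bd T fun a => n (v a) := b0.trans (hn.bdNat.reindex v)
  have h1 := RealT.whileLoop Enc.enc go step
    (Rl.reindex (Rl.consBit (hg.comp hs) hs) Subtype.val) T (fun a => init (v a))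
    (fun a => n (v a)) (fun a j hj => by simp [hit, go]; omega) (fun a => by simp [hit, go])
    b2 (fun a => 2 * sz (v a) + 2 * n (v a) + m (v a) ^ n (v a) + 2)
    (((((Bd.const _ _).mul b0).add ((Bd.const _ _).mul b2)).add hB).add (Bd.const _ _))
    fun a j hj => by
      have : m (v a) ^ j ≤ m (v a) ^ n (v a) := Nat.pow_le_pow_right (h0 _) hj.le
      show sz _ ≤ _
      simp only [hit, sz_pair, sz_nat]
      omega
  have h3 := (hv.comp (RealT.size (Rl.reindex (Rl.consBit (hg.comp hi) hi) v) b0)).comp h1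
  refine (trade_pt hT h3 (g := fun s : β × ℕ × ℕ => (s.1, s.2.2)) (by fun_prop)).congr fun a => ?_
  rw [hit]

end

theorem trade_exp (q : Polynomial ℕ) : ∃ c, ∀ y k, y ≤ 2 ^ k → q.eval y ≤ 2 ^ (c * (k + 1)) := by
  induction q using Polynomial.induction_on' with
  | add p q hp hq =>
    obtain ⟨c, hc⟩ := hp
    obtain ⟨d, hd⟩ := hq
    refine ⟨c + d + 1, fun y k h => ?_⟩
    have h1 := (hc y k h).trans
      (Nat.pow_le_pow_right two_pos (Nat.mul_le_mul_right (k + 1) (Nat.le_add_right c d)))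
    have h2 := (hd y k h).trans
      (Nat.pow_le_pow_right two_pos (Nat.mul_le_mul_right (k + 1) (Nat.le_add_left d c)))
    have h3 : 2 ^ ((c + d) * (k + 1) + 1) ≤ 2 ^ ((c + d + 1) * (k + 1)) :=
      Nat.pow_le_pow_right two_pos (by rw [Nat.succ_mul (c + d)]; omega)
    rw [pow_succ] at h3
    rw [Polynomial.eval_add]
    omega
  | monomial n c =>
    refine ⟨c + n, fun y k h => ?_⟩
    rw [Polynomial.eval_monomial]
    calc c * y ^ n ≤ 2 ^ c * (2 ^ k) ^ n :=
          Nat.mul_le_mul Nat.lt_two_pow_self.le (Nat.pow_le_pow_left h n)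
      _ = 2 ^ (c + k * n) := by rw [pow_add, pow_mul]
      _ ≤ _ := Nat.pow_le_pow_right two_pos (by nlinarith)

theorem trade_deg (r : Polynomial ℕ) : ∃ K d, ∀ C, r.eval C ≤ K * (C + 1) ^ d := by
  induction r using Polynomial.induction_on' with
  | add p q hp hq =>
    obtain ⟨K, d, h1⟩ := hp
    obtain ⟨K', d', h2⟩ := hq
    refine ⟨K + K', d + d', fun C => ?_⟩
    have h3 := (h1 C).trans (Nat.mul_le_mul_left K
      (Nat.pow_le_pow_right (Nat.succ_pos C) (Nat.le_add_right d d')))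
    have h4 := (h2 C).trans (Nat.mul_le_mul_left K'
      (Nat.pow_le_pow_right (Nat.succ_pos C) (Nat.le_add_left d' d)))
    rw [Polynomial.eval_add, add_mul]
    exact add_le_add h3 h4
  | monomial n c =>
    refine ⟨c, n, fun C => ?_⟩
    rw [Polynomial.eval_monomial]
    exact Nat.mul_le_mul_left c (Nat.pow_le_pow_left (Nat.le_succ C) n)

theorem trade_abs (r : Polynomial ℕ) :
    ∃ a, 0 < a ∧ ∀ c, ∃ b, ∀ C, c * r.eval C ≤ C ^ a + b := by
  obtain ⟨K, d, h⟩ := trade_deg r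
  refine ⟨d + 1, Nat.succ_pos d, fun c => ⟨c * r.eval (c * K * 2 ^ d), fun C => ?_⟩⟩
  rcases le_or_gt C (c * K * 2 ^ d) with hC | hC
  · exact (Nat.mul_le_mul_left c (eval_mono r hC)).trans (Nat.le_add_left _ _)
  · refine le_trans ?_ (Nat.le_add_right _ _)
    calc c * r.eval C ≤ c * (K * (2 * C) ^ d) := Nat.mul_le_mul_left c ((h C).trans
          (Nat.mul_le_mul_left K (Nat.pow_le_pow_left (by omega) d)))
      _ = c * K * 2 ^ d * C ^ d := by rw [mul_pow]; ring
      _ ≤ C * C ^ d := Nat.mul_le_mul_right _ hC.le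
      _ = C ^ (d + 1) := (pow_succ' C d).symm

theorem trade_sz (x : List Bool) (C : ℕ) : sz (x, C) ≤ 8 * x.length + C + 3 := by
  have := sz_list_le x 1 fun a _ => (sz_bool a).le
  rw [sz_pair, sz_nat]
  omega

theorem trade_sz2 (x : List Bool) (C : ℕ) : sz (x, C) + 2 ≤ (x.length + 2) ^ (3 + C) := by
  have h1 := trade_sz x C
  have h2 : C + 1 ≤ (x.length + 2) ^ C :=
    Nat.lt_two_pow_self.trans_le (Nat.pow_le_pow_left (by omega) C)
  have h3 : 8 * x.length + 8 ≤ (x.length + 2) ^ 3 := by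
    generalize x.length = n
    nlinarith [Nat.zero_le (n ^ 3), Nat.zero_le (n ^ 2)]
  have h4 := Nat.mul_le_mul h3 h2
  rw [pow_add]
  nlinarith

theorem trade_mono (a : ℕ) {b b' : ℕ} (h : b ≤ b') (x : List Bool) (C : ℕ) :
    bud a b x C ≤ bud a b' x C :=
  Nat.pow_le_pow_right (Nat.succ_pos _) (Nat.mul_le_mul_right _ h)

theorem trade_xb {E : ℕ → ℕ} {p : Polynomial ℕ} (hp : ∀ C, E C ≤ 2 ^ p.eval C) :
    ∃ a, 0 < a ∧ ∀ g : List Bool × ℕ → ℕ, XB (fun s => E s.2) g →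
      ∃ b, 0 < b ∧ ∀ x C, g (x, C) ≤ bud a b x C := by
  obtain ⟨a, ha, h⟩ := trade_abs (p + Polynomial.X + Polynomial.C 3)
  refine ⟨a, ha, fun g ⟨u, ⟨q, hq⟩, hg⟩ => ?_⟩
  obtain ⟨c, hc⟩ := trade_exp q
  obtain ⟨b, hb⟩ := h (c + 1)
  refine ⟨2 ^ b, Nat.two_pow_pos b, fun x C => ?_⟩
  have h1 : u (x, C) ≤ 2 ^ (c * (p.eval C + 1)) := (hq (x, C)).trans (hc _ _ (hp C))
  have h2 : 3 + C ≤ 2 ^ (C + 2) := by
    have := Nat.lt_two_pow_self (n := C)
    rw [pow_add]
    omega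
  have h3 := hb C
  simp only [Polynomial.eval_add, Polynomial.eval_X, Polynomial.eval_C] at h3
  calc g (x, C) ≤ ((x.length + 2) ^ (3 + C)) ^ u (x, C) :=
        (hg _).trans (Nat.pow_le_pow_left (trade_sz2 x C) _)
    _ ≤ _ := by
      rw [← pow_mul]
      refine Nat.pow_le_pow_right (Nat.succ_pos _) ((Nat.mul_le_mul h2 h1).trans ?_)
      rw [← pow_add, ← pow_add]
      exact Nat.pow_le_pow_right two_pos (by nlinarith [Nat.zero_le (c * C)])

theorem trade_two {b : ℕ} (hb : 0 < b) (a : ℕ) (x : List Bool) (C : ℕ) :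
    2 ^ C ^ a ≤ bud a b x C :=
  (Nat.le_mul_of_pos_left _ hb).trans
    (Nat.lt_two_pow_self.le.trans (Nat.pow_le_pow_left (Nat.le_add_left 2 _) _))

theorem trade_bd {a b : ℕ} (ha : 0 < a) (hb : 0 < b) :
    Bd (fun s : List Bool × ℕ => bud a b s.1 s.2) sz := by
  refine ((((Bd.const _ 8).mul (Bd.self _)).add (Bd.self _)).add (Bd.const _ 3)).mono
    fun ⟨x, C⟩ => ?_
  have h1 := trade_sz x C
  have h2 : x.length + 2 ≤ bud a b x C :=
    Nat.le_self_pow (Nat.mul_pos hb (Nat.two_pow_pos _)).ne' _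
  have h3 : C ≤ bud a b x C :=
    (Nat.le_self_pow ha.ne' C).trans (Nat.lt_two_pow_self.le.trans (trade_two hb a x C))
  show _ ≤ 8 * bud a b x C + bud a b x C + 3
  omega

theorem trade_ok (h : DecSt) : TradeSt := by
  obtain ⟨E, ⟨p, hp⟩, h⟩ := h
  obtain ⟨a, ha, hx⟩ := trade_xb hp
  refine ⟨a, ha, fun A hA L hL => ?_⟩
  obtain ⟨dec, nv, ⟨B, hB, F, hF, hd⟩, hn, hc⟩ := h A hA L hL
  obtain ⟨b, hb, h1⟩ := hx _ (hB.add hn)
  refine ⟨b, dec, hb, ?_, fun ρ hρ hA' x C h2 => hc ρ hA' x C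
    ((hρ ((Nat.le_add_left _ _).trans (h1 x C))).trans h2)⟩
  have hT := trade_bd ha hb
  have s1 := trade_pow (v := fun s : List Bool × ℕ => s) hT (RealT.size PT.id hT)
    (n := fun s => s.2 ^ a) (m := fun _ => 2) (by fun_prop) (by fun_prop) (fun _ => two_pos)
    ((Bd.self _).mono fun s => trade_two hb a s.1 s.2)
  have s2 := trade_pow hT s1 (n := fun w => b * w.2) (m := fun w => w.1.1.length + 2)
    (by fun_prop) (by fun_prop) (fun _ => Nat.succ_pos _) (Bd.self _)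
  refine (trade_pt hT s2 (g := fun w => F (w.1.1, w.2)) (hF.comp (by fun_prop))).congr
    fun ⟨x, C⟩ => ?_
  exact congrArg (fun z => [z]) (hd (x, C) _ ((Nat.le_add_right _ _).trans (h1 x C)))

end Pool.Agent.P.MP_9cbceb_lc.Q
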