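import Pool.Agent.P.MP_9cbceb_lc.All
import Pool.Agent.P.MP_9cbceb_lc.Sanity
import Pool.Agent.P.MP_9cbceb_lc.Q.Abs
import Pool.Agent.P.MP_9cbceb_lc.Q.Ana
import Pool.Agent.P.MP_9cbceb_lc.Q.Base2
import Pool.Agent.P.MP_9cbceb_lc.Q.BaseGP
import Pool.Agent.P.MP_9cbceb_lc.Q.BaseN2
import Pool.Agent.P.MP_9cbceb_lc.Q.BaseY2
import Pool.Agent.P.MP_9cbceb_lc.Q.Cliq
import Pool.Agent.P.MP_9cbceb_lc.Q.Comp2
import Pool.Agent.P.MP_9cbceb_lc.Q.Contr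
import Pool.Agent.P.MP_9cbceb_lc.Q.Conc2
import Pool.Agent.P.MP_9cbceb_lc.Q.Core2
import Pool.Agent.P.MP_9cbceb_lc.Q.DS
import Pool.Agent.P.MP_9cbceb_lc.Q.Dec
import Pool.Agent.P.MP_9cbceb_lc.Q.Fin
import Pool.Agent.P.MP_9cbceb_lc.Q.Gap2
import Pool.Agent.P.MP_9cbceb_lc.Q.Hon
import Pool.Agent.P.MP_9cbceb_lc.Q.Mask
import Pool.Agent.P.MP_9cbceb_lc.Q.One
import Pool.Agent.P.MP_9cbceb_lc.Q.Par
import Pool.Agent.P.MP_9cbceb_lc.Q.Prod
import Pool.Agent.P.MP_9cbceb_lc.Q.Pt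
import Pool.Agent.P.MP_9cbceb_lc.Q.Rem
import Pool.Agent.P.MP_9cbceb_lc.Q.Riesz
import Pool.Agent.P.MP_9cbceb_lc.Q.Tele
import Pool.Agent.P.MP_9cbceb_lc.Q.Trade

/-! Assembly of the quantitative version. -/

namespace Pool.Agent.P.MP_9cbceb_lc.Q

theorem core2_thm : Core2St :=
  core2_ok tele_ok (ana_ok tele_ok (rem_ok tele_ok))
    (abs_ok (row_ok riesz_ok) (cliq_ok (row_ok riesz_ok))) mask_ok ns2_ok

theorem rep_thm : RepSt := rep_ok one_ok prod_ok ds_ok con_ok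

theorem base2_thm : Base2St :=
  base2_ok hon_ok core2_thm baseNo2_ok marg_ok baseYes2_ok (conc2_ok pt_ok enum_ok name_ok)

theorem gap2_thm : Gap2St := gap2_ok rep_thm base2_thm baseGP_ok comp2_ok par_ok

theorem trade_thm : TradeSt := trade_ok (dec_ok pcp_thm reg_thm gap2_thm)

/-- The trade-off between the ratio and the running time. -/
theorem fin1_thm : ∃ a : ℕ, 0 < a ∧ Fin1St a :=
  trade_thm.imp fun _ h => ⟨h.1, fin1_ok h.2⟩

/-- A power of `log log n` as ratio puts `NP` in quasi-polynomial time. -/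
theorem fin2_thm : ∃ a : ℕ, 0 < a ∧ Fin2St a :=
  trade_thm.imp fun _ h => ⟨h.1, fin2_ok h.1 h.2⟩

/-- Sanity check: exact optima exist and are not longer than the input. -/
theorem sanity2 : ∃ A : Alg, (∀ p, (A p).length ≤ p.2.2.length + 1) ∧ ApproxF (fun _ => 1) A :=
  sanity_opt

end Pool.Agent.P.MP_9cbceb_lc.Q
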