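import Pool.Agent.P.MP_9cbceb_lc.Q.DA
import Pool.Agent.P.MP_9cbceb_lc.CE

/-! Contraction property of the projection system of a constraint graph with a gap. -/

namespace Pool.Agent.P.MP_9cbceb_lc.Q

open Finset
open scoped BigOperators

theorem con_prod {X I : Type} [Fintype X] [Fintype I] (F : X × I → ℝ) :
    𝔼 e, F e = 𝔼 x, 𝔼 j, F (x, j) := by
  rw [← univ_product_univ, expect_product]

open Classical in
theorem con_abs {X I S A : Type} [Fintype X] [Nonempty X] [Fintype I] [Nonempty I] [Fintype S]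
    [Nonempty S] [Fintype A] [DecidableEq A] (arc : X → I → ℕ) (pj : X → I → S → Option A)
    {g : ℝ} (g0 : 0 < g) (g1 : g ≤ 1)
    (gap : ∀ l1 l2 : ℕ → S, g ≤ 𝔼 e : X × I × I, if ∃ α, pj e.1 e.2.1 (l1 (arc e.1 e.2.1)) = some α ∧
      pj e.1 e.2.2 (l2 (arc e.1 e.2.2)) = some α then (0 : ℝ) else 1)
    (h : ℕ → S → ℝ) (h0 : ∀ v β, 0 ≤ h v β) :
    (𝔼 x, 𝔼 j, ∑ β, h (arc x j) β) ^ 2 +
      𝔼 x, ∑ α, (𝔼 j, ∑ β, if pj x j β = some α then h (arc x j) β else 0) ^ 2 ≤
      (2 - g ^ 2 / 32) * 𝔼 x, 𝔼 j, (∑ β, h (arc x j) β) ^ 2 := by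
  set z : ℕ → ℝ := fun y => ∑ β, h y β with hz
  have z0 : ∀ y, 0 ≤ z y := fun y => sum_nonneg fun β _ => h0 y β
  set m := 𝔼 x, 𝔼 j, z (arc x j) with hm
  set s := 𝔼 x, 𝔼 j, z (arc x j) ^ 2 with hs
  let L : X × I × I → S → S → ℝ := fun e β β' =>
    if ∃ α, pj e.1 e.2.1 β = some α ∧ pj e.1 e.2.2 β' = some α then 0 else 1
  have L0 : ∀ e a b, 0 ≤ L e a b := fun e a b => by simp only [L]; split_ifs <;> norm_num
  have L1 : ∀ e a b, L e a b ≤ 1 := fun e a b => by simp only [L]; split_ifs <;> norm_num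
  set Λ := 𝔼 e : X × I × I, ∑ a, ∑ b, h (arc e.1 e.2.1) a * h (arc e.1 e.2.2) b * L e a b with hΛ
  have Λ0 : 0 ≤ Λ := expect_nonneg fun e _ => sum_nonneg fun a _ => sum_nonneg fun b _ =>
    mul_nonneg (mul_nonneg (h0 _ _) (h0 _ _)) (L0 _ _ _)
  have m1 : ∀ F : ℕ → ℝ, 𝔼 e : X × I × I, F (arc e.1 e.2.1) = 𝔼 x, 𝔼 j, F (arc x j) := fun F => by
    simp only [con_prod, Fintype.expect_const]
  have m2 : ∀ F : ℕ → ℝ, 𝔼 e : X × I × I, F (arc e.1 e.2.2) = 𝔼 x, 𝔼 j, F (arc x j) := fun F => by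
    simp only [con_prod, Fintype.expect_const]
  have hA : 𝔼 x, ∑ α, (𝔼 j, ∑ β, if pj x j β = some α then h (arc x j) β else 0) ^ 2 =
      𝔼 e : X × I × I, z (arc e.1 e.2.1) * z (arc e.1 e.2.2) - Λ := by
    rw [hΛ, ← expect_sub_distrib]
    simp only [con_prod, pow_two, expect_mul_expect, ← expect_sum_comm]
    refine expect_congr rfl fun x _ => expect_congr rfl fun j _ => expect_congr rfl fun j' _ => ?_
    simp only [hz, sum_mul_sum, ← sum_sub_distrib]
    rw [sum_comm]
    refine sum_congr rfl fun a _ => ?_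
    rw [sum_comm]
    refine sum_congr rfl fun b _ => ?_
    simp only [L]
    split_ifs with e
    · obtain ⟨α, e1, e2⟩ := e
      rw [sum_eq_single α (fun α' _ e' => by simp [e1, e'.symm]) (by simp)]
      simp [e1, e2]
    · rw [sum_eq_zero fun α _ => ?_]
      · ring
      · by_cases e1 : pj x j a = some α
        · rw [if_neg fun e2 => e ⟨α, e1, e2⟩, mul_zero]
        · rw [if_neg e1, zero_mul]
  have hB : 𝔼 e : X × I × I, z (arc e.1 e.2.1) * z (arc e.1 e.2.2) ≤ s := by
    have := expect_le_expect (s := univ) (f := fun e : X × I × I => z (arc e.1 e.2.1) *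
      z (arc e.1 e.2.2)) (g := fun e => 2⁻¹ * (z (arc e.1 e.2.1) ^ 2 + z (arc e.1 e.2.2) ^ 2))
      fun e _ => by nlinarith [sq_nonneg (z (arc e.1 e.2.1) - z (arc e.1 e.2.2))]
    rw [← mul_expect, expect_add_distrib, m1 fun y => z y ^ 2, m2 fun y => z y ^ 2] at this
    linarith
  have hV : 𝔼 x, 𝔼 j, (z (arc x j) - m) ^ 2 = s - m ^ 2 := by
    simp only [sub_sq, expect_add_distrib, expect_sub_distrib, ← expect_mul, ← mul_expect,
      Fintype.expect_const, ← hm, ← hs]
    ring
  have hV0 : 0 ≤ s - m ^ 2 := hV ▸ expect_nonneg fun _ _ => expect_nonneg fun _ _ => sq_nonneg _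
  have m0 : 0 ≤ m := expect_nonneg fun _ _ => expect_nonneg fun _ _ => z0 _
  rw [hA]
  by_cases hc : m ^ 2 ≤ (1 - g ^ 2 / 32) * s
  · linarith
  have g2 : g ^ 2 ≤ g := by nlinarith
  have s0 : 0 ≤ s := by nlinarith
  have s1 : s ≤ 2 * m ^ 2 := by nlinarith
  have mp : 0 < m := lt_of_le_of_ne m0 fun e => hc (by rw [← e]; nlinarith)
  have mx : ∀ y, 0 < max (z y) m := fun y => lt_max_of_lt_right mp
  have tot : ∀ y, ∑ β, h y β / max (z y) m = z y / max (z y) m := fun y => (sum_div _ _ _).symm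
  have dev : 𝔼 x, 𝔼 j, |z (arc x j) / max (z (arc x j)) m - 1| ≤ g / 4 := by
    have p : ∀ y, |z y / max (z y) m - 1| ≤ 2 / (g * m ^ 2) * (z y - m) ^ 2 + g / 8 := fun y => by
      rcases le_total (z y) m with e | e
      · rw [max_eq_right e, abs_sub_comm, abs_of_nonneg (sub_nonneg.2 ((div_le_one mp).2 e))]
        have : 2 / (g * m ^ 2) * (z y - m) ^ 2 + g / 8 - (1 - z y / m) =
            2 / g * ((1 - z y / m) - g / 4) ^ 2 := by field_simp; ring
        have : 0 ≤ 2 / g * ((1 - z y / m) - g / 4) ^ 2 := by positivity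
        linarith
      · rw [max_eq_left e, div_self (mp.trans_le e).ne', sub_self, abs_zero]
        positivity
    refine (expect_le_expect fun x _ => expect_le_expect fun j _ => p _).trans ?_
    simp only [expect_add_distrib, ← mul_expect, Fintype.expect_const, hV]
    have : 2 / (g * m ^ 2) * (s - m ^ 2) ≤ g / 8 := by
      rw [div_mul_eq_mul_div, div_le_iff₀ (by positivity)]
      nlinarith [sq_nonneg g]
    linarith
  have key := CE.game (fun e : X × I × I => arc e.1 e.2.1) (fun e => arc e.1 e.2.2) L L0 L1 gap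
    (fun e β => h (arc e.1 e.2.1) β / max (z (arc e.1 e.2.1)) m)
    (fun e β => h (arc e.1 e.2.2) β / max (z (arc e.1 e.2.2)) m)
    (fun e e' he => by simp only [he]) (fun e e' he => by simp only [he])
    (fun e a => div_nonneg (h0 _ _) (mx _).le) (fun e a => div_nonneg (h0 _ _) (mx _).le)
    (fun e => by rw [tot, div_le_one (mx _)]; exact le_max_left _ _) zero_le_one le_rfl zero_le_one
  simp only [tot] at key
  rw [m1 fun y => |z y / max (z y) m - 1|, m2 fun y => |z y / max (z y) m - 1|] at key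
  have k2 : m ^ 2 * 𝔼 e : X × I × I, ∑ a, ∑ b, h (arc e.1 e.2.1) a / max (z (arc e.1 e.2.1)) m *
      (h (arc e.1 e.2.2) b / max (z (arc e.1 e.2.2)) m) * L e a b ≤ Λ := by
    have q : ∀ y β, m * (h y β / max (z y) m) ≤ h y β := fun y β => by
      rw [← mul_div_assoc, div_le_iff₀ (mx y), mul_comm]
      exact mul_le_mul_of_nonneg_left (le_max_right _ _) (h0 _ _)
    simp only [mul_expect, mul_sum]
    refine expect_le_expect fun e _ => sum_le_sum fun a _ => sum_le_sum fun b _ => ?_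
    rw [← mul_assoc]
    refine mul_le_mul_of_nonneg_right ?_ (L0 _ _ _)
    rw [pow_two, mul_mul_mul_comm]
    exact mul_le_mul (q _ _) (q _ _) (mul_nonneg m0 (div_nonneg (h0 _ _) (mx _).le)) (h0 _ _)
  have k3 := mul_le_mul_of_nonneg_left (show g / 2 ≤ _ from le_trans (by linarith) key)
    (sq_nonneg m)
  nlinarith

open Classical in
theorem con_gap {q d : ℕ} {G : Gr} {γ : ℝ} (hq : 0 < q) (hd : 0 < d) (hG : GWF q d G)
    (gap : GGap q d G γ) (l1 l2 : ℕ → Fin q × Fin q) :
    γ / 2 ≤ 𝔼 e : Fin G.length × (Bool × Fin d) × (Bool × Fin d), if ∃ α,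
      (psOf q d G).pj (true, e.1) (e.1, e.2.1) (l1 (arcC d G e.1 e.2.1.1 e.2.1.2)) = some α ∧
      (psOf q d G).pj (true, e.1) (e.1, e.2.2) (l2 (arcC d G e.1 e.2.2.1 e.2.2.2)) = some α
      then (0 : ℝ) else 1 := by
  have : Nonempty (Fin d) := ⟨⟨0, hd⟩⟩
  let L : Fin G.length → Bool × Fin d → Bool × Fin d → ℝ := fun x j j' => if ∃ α,
    (psOf q d G).pj (true, x) (x, j) (l1 (arcC d G x j.1 j.2)) = some α ∧
    (psOf q d G).pj (true, x) (x, j') (l2 (arcC d G x j'.1 j'.2)) = some α then 0 else 1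
  have hb : ∀ x, ∃ j', 𝔼 j, L x j j' ≤ 𝔼 j, 𝔼 j', L x j j' := fun x => by
    obtain ⟨j', -, h⟩ := exists_min_image univ (fun j' => 𝔼 j, L x j j') univ_nonempty
    exact ⟨j', by rw [expect_comm]; exact le_expect univ_nonempty h⟩
  choose b hb using hb
  let a : ℕ → ℕ := fun x => if h : x < G.length then
    (cond (b ⟨x, h⟩).1 (l2 (arcC d G x (b ⟨x, h⟩).1 (b ⟨x, h⟩).2)).1
      (l2 (arcC d G x (b ⟨x, h⟩).1 (b ⟨x, h⟩).2)).2 : Fin q) else 0
  have ha : Bnd q a := fun x => by
    simp only [a]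
    split_ifs
    · exact Fin.isLt _
    · exact hq
  let B : Bool → ℕ → ℕ → ℝ := fun σ x i => if arcOK q d G (arcC d G x σ i) (l1 (arcC d G x σ i)).1
    (l1 (arcC d G x σ i)).2 = true ∧
      (cond σ (l1 (arcC d G x σ i)).1 (l1 (arcC d G x σ i)).2 : Fin q) = a x then 0 else 1
  have h1 : ∀ (x : Fin G.length) (j : Bool × Fin d), B j.1 x j.2 ≤ L x j (b x) := fun x j => by
    simp only [B, L]
    split_ifs with e1 e2 e2
    · exact le_rfl
    · exact zero_le_one
    · obtain ⟨α, e3, e4⟩ := e2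
      simp only [psOf, cond_true] at e3 e4
      split_ifs at e3 e4 with e5
      refine absurd ⟨e5, ?_⟩ e1
      simp only [a, dif_pos x.2]
      exact congrArg Fin.val (Option.some.inj (Option.some.inj (e3.trans e4.symm)))
    · exact le_rfl
  have h2 : (aviol q G.length d (grot G) (gcode G) a : ℝ) ≤
      ∑ x ∈ range G.length, ∑ i ∈ range d, (B true x i + B false x i) := by
    simp only [sum_add_distrib]
    rw [← hG.2.1.sum_rot (B false), ← sum_add_distrib, aviol, card_filter, sum_product]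
    push_cast
    refine sum_le_sum fun y hy => ?_
    rw [← sum_add_distrib]
    refine sum_le_sum fun i hi => ?_
    have e1 : arcC d G (grot G y i).1 false (grot G y i).2 = y * d + i := by
      simp only [arcC, cond_false, (hG.2.1 y (mem_range.1 hy) i (mem_range.1 hi)).2.2]
    have e2 : (y * d + i) / d = y := by
      rw [add_comm, Nat.add_mul_div_right _ _ hd, Nat.div_eq_of_lt (mem_range.1 hi), zero_add]
    have e3 : (y * d + i) % d = i := by
      rw [add_comm, Nat.add_mul_mod_self_right, Nat.mod_eq_of_lt (mem_range.1 hi)]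
    simp only [B, e1, show arcC d G y true i = y * d + i from rfl, arcOK, e2, e3, cond_true,
      cond_false]
    split_ifs with e4 e5 e6 <;> try norm_num
    rw [← e5.2, ← e6.2, e5.1] at e4
    exact absurd e4 (by decide)
  have n0 : (0 : ℝ) < G.length := by exact_mod_cast hG.1
  have d0 : (0 : ℝ) < d := by exact_mod_cast hd
  calc γ / 2 ≤ 𝔼 x : Fin G.length, 𝔼 j : Bool × Fin d, B j.1 x j.2 := by
        simp only [Fintype.expect_eq_sum_div_card, Fintype.sum_prod_type, Fintype.sum_bool,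
          ← sum_div, Fintype.card_prod, Fintype.card_bool, Fintype.card_fin, ← sum_add_distrib]
        rw [Fin.sum_univ_eq_sum_range (fun x => ∑ i : Fin d, (B true x i + B false x i)),
          sum_congr rfl fun x _ => Fin.sum_univ_eq_sum_range (fun i => B true x i + B false x i) d,
          div_div, div_le_div_iff₀ two_pos (by push_cast; positivity)]
        push_cast
        nlinarith [gap a ha]
    _ ≤ 𝔼 x, 𝔼 j, 𝔼 j', L x j j' :=
        expect_le_expect fun x _ => (expect_le_expect fun j _ => h1 x j).trans (hb x)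
    _ = _ := by simp only [con_prod (X := Fin G.length), con_prod (X := Bool × Fin d), L]

theorem con_ok : ConSt := by
  intro q d G γ hq hd hG g0 g1 gap h h0
  have : Nonempty (Fin d) := ⟨⟨0, hd⟩⟩
  have : Nonempty (Fin q) := ⟨⟨0, hq⟩⟩
  have : Nonempty (Fin G.length) := ⟨⟨0, hG.1⟩⟩
  have key := con_abs (fun (x : Fin G.length) (j : Bool × Fin d) => arcC d G x j.1 j.2)
    (fun x j => (psOf q d G).pj (true, x) (x, j)) (half_pos g0) (by linarith)
    (con_gap hq hd hG gap) h h0
  have e : ∀ F : Bool → ℝ, 𝔼 b, F b = (F true + F false) / 2 := fun F => by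
    rw [Fintype.expect_eq_sum_div_card]; simp
  have h1 : ∀ x : Fin G.length, ∑ α, (psOf q d G).op h (false, x) α ^ 2 ≤
      (𝔼 x : Fin G.length, 𝔼 j : Bool × Fin d, ∑ β, h (arcC d G x j.1 j.2) β) ^ 2 := fun x => by
    rw [sum_eq_single none (fun α _ e => by
      simp [PS.op, psOf, e.symm]) (by simp)]
    refine pow_le_pow_left₀ (expect_nonneg fun j _ => sum_nonneg fun β _ => ?_) ?_ 2
    · split_ifs
      · exact h0 _ _
      · exact le_rfl
    · rw [PS.op, con_prod]
      refine expect_le_expect fun y _ => expect_le_expect fun j _ => sum_le_sum fun β _ => ?_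
      split_ifs
      · exact le_rfl
      · exact h0 _ _
  have h2 := expect_le univ_nonempty fun x (_ : x ∈ univ) => h1 x
  have h3 : ∀ (x : Fin G.length) α, (psOf q d G).op h (true, x) α = 𝔼 j : Bool × Fin d, ∑ β,
      if (psOf q d G).pj (true, x) (x, j) β = some α then h (arcC d G x j.1 j.2) β else 0 :=
    fun x α => by
      rw [PS.op, con_prod]
      exact Fintype.expect_const (ι := Fin G.length) (𝔼 j : Bool × Fin d, ∑ β,
        if (psOf q d G).pj (true, x) (x, j) β = some α then h (arcC d G x j.1 j.2) β else 0)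
  rw [con_prod, con_prod, e, e]
  simp only [h3]
  simp only [con_prod (X := Fin G.length), psOf, cond_true, cond_false,
    Fintype.expect_const] at key h2 ⊢
  linarith

end Pool.Agent.P.MP_9cbceb_lc.Q
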