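import Pool.Agent.P.MP_9cbceb_lc.Basic

/-! Quantitative version: definitions and statements of the mathematical part. -/

namespace Pool.Agent.P.MP_9cbceb_lc.Q

open Finset
open scoped BigOperators

/-! ### Analysis on the discrete torus -/

abbrev Tor (Q : Type) (H : ℕ) := Q → ZMod H

/-- Squared excess of `|x|` over one. -/
noncomputable def dfc (x : ℝ) : ℝ := max (|x| - 1) 0 ^ 2

section Torus

variable {Q : Type} {H : ℕ}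

def bv (H : ℕ) (β : Q → Bool) : Tor Q H := fun c => if β c then 1 else 0

def tent (x : ZMod H) : ℕ := min x.val (H - x.val)

def walk (H : ℕ) {K : ℕ} (ω : Fin K → Q → Bool) : Tor Q H := ∑ k, bv H (ω k)

variable [DecidableEq Q]

def res (A : Finset Q) (β : Q → Bool) : Q → Bool := fun c => β c && decide (c ∈ A)

def dif (c : Q) (F : Tor Q H → ℝ) : Tor Q H → ℝ := fun s => F (s + Pi.single c 1) - F s

variable [Fintype Q]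

/-- One step of the walk. -/
noncomputable def top (F : Tor Q H → ℝ) : Tor Q H → ℝ := fun s => 𝔼 β : Q → Bool, F (s + bv H β)

noncomputable def cor (F : Tor Q H → ℝ) (s : Tor Q H) (c : Q) : ℝ :=
  𝔼 β : Q → Bool, F (s + bv H β) * chi (β c)

noncomputable def psi {K : ℕ} (F : Tor Q H → ℝ) (ξ : Fin K × Tor Q H) (c : Q) : ℝ :=
  cor (top^[ξ.1] F) ξ.2 c

/-- Error of the affine approximation. -/
noncomputable def rem (F : Tor Q H → ℝ) (s : Tor Q H) (β : Q → Bool) : ℝ :=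
  F (s + bv H β) - F s - ∑ c, if β c then dif c F s else 0

/-- Defect of a random sign combination. -/
noncomputable def zdef (A : Finset Q) (Ψ : Q → ℝ) : ℝ :=
  𝔼 β : Q → Bool, dfc (∑ c ∈ A, Ψ c * chi (β c))

variable [NeZero H]

noncomputable def nrm (F : Tor Q H → ℝ) : ℝ := 𝔼 s, F s ^ 2

noncomputable def spr (K : ℕ) (F : Tor Q H → ℝ) : ℝ :=
  𝔼 s, 𝔼 ω : Fin K → Q → Bool, 𝔼 ω' : Fin K → Q → Bool, |F (s + walk H ω) - F (s + walk H ω')|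

/-- Defect of the random moves inside `A`. -/
noncomputable def mdef (F : Tor Q H → ℝ) (A : Finset Q) : ℝ :=
  𝔼 s, 𝔼 β : Q → Bool, dfc (F (s + bv H (res A β)) - F s)

noncomputable def err (K : ℕ) (F : Tor Q H → ℝ) : ℝ :=
  4 * (Fintype.card Q : ℝ) ^ 4 * (∑ c, nrm (dif c F)) / K

end Torus

def TeleSt : Prop := ∀ (Q : Type) [Fintype Q] [DecidableEq Q] (H : ℕ) [NeZero H] (K : ℕ), 0 < K →
  (∀ F F' : Tor Q H → ℝ, 𝔼 ξ : Fin K × Tor Q H, ∑ c, (psi F ξ c - psi F' ξ c) ^ 2 ≤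
    nrm (fun s => F s - F' s) / K) ∧
  (∀ (F : Tor Q H → ℝ) (c c' : Q),
    𝔼 j : Fin K, nrm (dif c' (dif c (top^[j] F))) ≤ 4 * nrm (dif c F) / K) ∧
  ∀ F : Tor Q H → ℝ, spr K F ^ 2 ≤ 2 * K * 𝔼 ξ : Fin K × Tor Q H,
    ((𝔼 β : Q → Bool, (top^[ξ.1] F) (ξ.2 + bv H β) ^ 2) -
      (𝔼 β : Q → Bool, (top^[ξ.1] F) (ξ.2 + bv H β)) ^ 2)

def RemSt : Prop := ∀ (Q : Type) [Fintype Q] [DecidableEq Q] (H : ℕ) [NeZero H] (K : ℕ), 0 < K →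
  ∀ (F : Tor Q H → ℝ) (β : Q → Bool),
    𝔼 ξ : Fin K × Tor Q H, rem (top^[ξ.1] F) ξ.2 β ^ 2 ≤ err K F

def AnaSt : Prop := ∀ (Q : Type) [Fintype Q] [DecidableEq Q] (H : ℕ) [NeZero H] (K : ℕ), 0 < K →
  ∀ F : Tor Q H → ℝ,
  spr K F ^ 2 ≤ 2 * K * ((𝔼 ξ : Fin K × Tor Q H, ∑ c, psi F ξ c ^ 2) + err K F) ∧
  (∀ A : Finset Q, 𝔼 ξ : Fin K × Tor Q H, zdef A (psi F ξ) ≤ 3 * mdef F A + 6 * err K F) ∧
  ∀ c, nrm (dif c F) ≤ 2 + 4 * mdef F {c}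

def RieszSt : Prop := ∀ (Q : Type) [Fintype Q] [DecidableEq Q] (A : Finset Q) (Ψ : Q → ℝ),
  (∑ c ∈ A, Ψ c ^ 2 ≤ 2 + 2 * zdef A Ψ) ∧
  ∀ l : Q → ℝ, (∀ c ∈ A, |l c| ≤ 1) →
    ∑ c ∈ A, l c * Ψ c ≤ 1 + √(∏ c ∈ A, (1 + l c ^ 2)) * √(zdef A Ψ)

open Classical in
def RowSt : Prop := ∀ (Q : Type) [Fintype Q] [DecidableEq Q] (A : Finset Q) (Ψ : Q → ℝ) (θ : ℝ)
  (r : ℕ), 0 < θ → 16 ≤ θ * r →
  (∀ Ψ' : Q → ℝ, ∑ c ∈ A, Ψ c ^ 2 ≤ θ + 4 * ∑ c ∈ A, (Ψ c - Ψ' c) ^ 2 +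
    2 * (if ∃ c ∈ A, θ / 4 ≤ |Ψ' c| then 1 else 0) + (2 + 2 * 2 ^ r) * zdef A Ψ) ∧
  (#A = r → (∀ c ∈ A, θ / 8 ≤ |Ψ c|) → 1 ≤ 2 ^ r * zdef A Ψ)

def HonSt : Prop := ∃ n0 : ℕ, 0 < n0 ∧ ∀ (J H : ℕ) [NeZero H], H = 16 * J →
  ∀ (Q ι : Type) [Fintype Q] [DecidableEq Q] [Fintype ι] (hc : ι → Q), Function.Injective hc →
    √(Fintype.card ι) * J ≤ n0 * spr (J ^ 2) fun s : Tor Q H => ∑ a, (tent (s (hc a)) : ℝ)

/-! ### The combinatorial core -/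

def rowS {Q ι : Type} [Fintype Q] [DecidableEq ι] (row : Q → ι) (a : ι) : Finset Q :=
  {c | row c = a}

open Classical in
/-- Few rows can be active at the same time. -/
def CliqSt : Prop := ∀ (ι Q : Type) [Fintype Q] [DecidableEq Q] [DecidableEq ι] (row : Q → ι)
  (Cl : Q → Q → Prop) (B : Finset ι) (act : ι → Prop) (ch : ι → Q) (Ψ : Q → ℝ) (Ψ' : ι → Q → ℝ)
  (θ : ℝ) (r : ℕ), 0 < θ → 16 ≤ θ * r → (∀ c, Cl c c) →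
  (∀ a ∈ B, act a → row (ch a) = a ∧ θ / 4 ≤ |Ψ' a (ch a)|) →
  (∑ a ∈ B, if act a then (1 : ℝ) else 0) ≤ r + #B *
    ((∑ a ∈ B, ∑ a' ∈ B.erase a,
        if row (ch a) = a ∧ row (ch a') = a' ∧ ¬ Cl (ch a) (ch a') then (1 : ℝ) else 0) +
      64 / θ ^ 2 * (∑ a ∈ B, ∑ c ∈ rowS row a, (Ψ c - Ψ' a c) ^ 2) +
      2 ^ r * ∑ t : Fin r → Q, if ∀ c ∈ image t univ, ∀ c' ∈ image t univ, Cl c c' then
        zdef (image t univ) Ψ else 0)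

open Classical in
def AbsSt : Prop := ∀ (Ω Ξ ι Q : Type) [Fintype Ω] [Nonempty Ω] [Fintype Ξ] [Nonempty Ξ]
  [Fintype ι] [DecidableEq ι] [Fintype Q] [DecidableEq Q] [Nonempty Q] (m n r : ℕ)
  (_ : Fin m × Fin n ≃ ι) (row : Q → ι) (Cl : Ω → Q → Q → Prop) (Ψ : Ω → Ξ → Q → ℝ)
  (ΨR : Finset ι → Ω → Ξ → Q → ℝ) (θ ε τ z : ℝ), 0 < m → 0 < n → 0 < θ → 16 ≤ θ * r →
  2 * r ≤ θ * m → 0 ≤ ε → 0 ≤ τ → 0 ≤ z → 4 * m ^ 2 * ε ≤ θ →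
  (4 + 128 * m / θ ^ 2) * (τ / n) ≤ θ / 2 → 6 * (2 * Fintype.card Q) ^ r * z ≤ θ / 2 →
  (∀ W c, Cl W c c) →
  (∀ a, 𝔼 W, 𝔼 ξ, zdef (rowS row a) (Ψ W ξ) ≤ z) →
  (∀ t : Fin r → Q, (𝔼 W, if ∀ c ∈ image t univ, ∀ c' ∈ image t univ, Cl W c c' then
    𝔼 ξ, zdef (image t univ) (Ψ W ξ) else 0) ≤ z) →
  (∀ R : Finset ι, #R ≤ m → 𝔼 W, 𝔼 ξ, ∑ c, (Ψ W ξ c - ΨR R W ξ c) ^ 2 ≤ τ) →
  (∀ (ξ : Ξ) (R R' : Finset ι) (a a' : ι) (φ φ' : (Q → ℝ) → Q), a ≠ a' → a' ∈ R → a ∈ R' →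
    (pr fun W => row (φ (ΨR R W ξ)) = a ∧ row (φ' (ΨR R' W ξ)) = a' ∧
      ¬ Cl W (φ (ΨR R W ξ)) (φ' (ΨR R' W ξ))) ≤ ε) →
  𝔼 W, 𝔼 ξ, ∑ c, Ψ W ξ c ^ 2 ≤ 4 * θ * (m * n)

/-! ### The gadget -/

/-- A game, and coordinates that carry a row and a label for each port. -/
structure Gad (E S ι Q : Type) where
  g : Game E S
  row : Q → ι
  lab : Q → ι → S

abbrev PtQ (ι Q : Type) (H : ℕ) := (ι → ι → ℕ) × Tor Q H

/-- Types of moves. -/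
abbrev Ty (ι Q : Type) (r H : ℕ) := Bool × Bool × ι × (Fin r → Q) × (ι → Bool) × Fin H

abbrev Ys (E ι Q : Type) (H : ℕ) := (ι × ι → E) × Tor Q H × (Q → Bool)

abbrev Ds (E ι Q : Type) (H K : ℕ) :=
  (ι × ι → E) × Tor Q H × (Fin K → Q → Bool) × (Fin K → Q → Bool)

section Gadget

variable {E S ι Q : Type} [LinearOrder ι] (Γ : Gad E S ι Q) {H r K : ℕ}

def Gad.Cl (W : ι × ι → E) (c c' : Q) : Prop :=
  Γ.row c = Γ.row c' ∨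
    Lose Γ.g W (Γ.row c) (Γ.row c') (Γ.lab c (Γ.row c')) (Γ.lab c' (Γ.row c))

def Gad.zer (R : Finset ι) (s : Tor Q H) : Tor Q H := fun c => if Γ.row c ∈ R then 0 else s c

/-- Rows in `R` are zero, row `a` is cut off at height `j`. -/
def Gad.shr (R : Finset ι) (a : ι) (j : ℕ) (s : Tor Q H) : Tor Q H := fun c =>
  if Γ.row c ∈ R then 0 else if Γ.row c = a then ((min (s c).val j : ℕ) : ZMod H) else s c

def Gad.d1 (d : Ds E ι Q H K) : PtQ ι Q H := (view Γ.g d.1, d.2.1 + walk H d.2.2.1)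

def Gad.d2 (d : Ds E ι Q H K) : PtQ ι Q H := (view Γ.g d.1, d.2.1 + walk H d.2.2.2)

variable [Fintype ι]

def Ty.rows (τ : Ty ι Q r H) : Finset ι := {a | τ.2.2.2.2.1 a = true}

def Gad.p1 (z : Ty ι Q r H × Ys E ι Q H) : PtQ ι Q H :=
  if z.1.1 then (view Γ.g z.2.1, z.2.2.1) else
    (mask z.1.rows (view Γ.g z.2.1), Γ.shr z.1.rows z.1.2.2.1 (z.1.2.2.2.2.2 + 1) z.2.2.1)

variable [Fintype Q] [DecidableEq Q]

def Gad.mov (τ : Ty ι Q r H) : Finset Q :=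
  if τ.2.1 then rowS Γ.row τ.2.2.1 else image τ.2.2.2.1 univ

open Classical in
noncomputable def Gad.p2 (z : Ty ι Q r H × Ys E ι Q H) : PtQ ι Q H :=
  if z.1.1 then
    (view Γ.g z.2.1, if ∀ c ∈ Γ.mov z.1, ∀ c' ∈ Γ.mov z.1, Γ.Cl z.2.1 c c' then
      z.2.2.1 + bv H (res (Γ.mov z.1) z.2.2.2) else z.2.2.1)
  else (mask (if (z.1.2.2.2.2.2 : ℕ) = 0 then insert z.1.2.2.1 z.1.rows else z.1.rows)
      (view Γ.g z.2.1), Γ.shr z.1.rows z.1.2.2.1 z.1.2.2.2.2.2 z.2.2.1)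

end Gadget

def MaskSt : Prop := ∀ (E S ι Q : Type) [Fintype E] [Nonempty E] [Fintype ι] [LinearOrder ι]
  [Fintype Q] [DecidableEq Q] (Γ : Gad E S ι Q) (H : ℕ) [NeZero H] (G : PtQ ι Q H → ℝ),
  (∀ (R : Finset ι) (a : ι), ∀ j < H, 𝔼 W : ι × ι → E, 𝔼 s : Tor Q H,
    dfc (G (mask R (view Γ.g W), Γ.shr R a (j + 1) s) -
      G (mask (if j = 0 then insert a R else R) (view Γ.g W), Γ.shr R a j s)) ≤ 1) →
  ∀ R : Finset ι, 𝔼 W : ι × ι → E, 𝔼 s : Tor Q H,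
    (G (view Γ.g W, s) - G (mask R (view Γ.g W), Γ.zer R s)) ^ 2 ≤ (2 * #R * H) ^ 2

def NS2St : Prop := ∀ (E S ι : Type) [Fintype E] [Nonempty E] [Fintype ι] [LinearOrder ι]
  (g : Game E S) (ε : ℝ), g.No (1 - ε) → ∀ (R R' : Finset ι) (a a' : ι)
  (Φ Φ' : (ι → ι → ℕ) → S), a ≠ a' → a' ∈ R → a ∈ R' →
  (pr fun W : ι × ι → E =>
    ¬ Lose g W a a' (Φ (mask R (view g W))) (Φ' (mask R' (view g W)))) ≤ ε

def Core2St : Prop := ∀ (E S ι Q : Type) [Fintype E] [Nonempty E] [Fintype ι] [LinearOrder ι]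
  [Fintype Q] [DecidableEq Q] [Nonempty Q] (Γ : Gad E S ι Q) (H : ℕ) [NeZero H] (K m n r : ℕ)
  (_ : Fin m × Fin n ≃ ι) (θ ε μ : ℝ), 0 < m → 0 < n → 0 < K → 0 < θ → 16 ≤ θ * r →
  2 * r ≤ θ * m → 0 ≤ ε → 4 * m ^ 2 * ε ≤ θ → 0 ≤ μ → μ ≤ 1 →
  (4 + 128 * m / θ ^ 2) * ((2 * m * H) ^ 2 / K / n) ≤ θ / 2 →
  6 * (2 * Fintype.card Q) ^ r * (3 * μ + 144 * (Fintype.card Q : ℝ) ^ 5 / K) ≤ θ / 2 →
  Γ.g.No (1 - ε) → ∀ G : PtQ ι Q H → ℝ,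
  (∀ τ : Ty ι Q r H, 𝔼 y : Ys E ι Q H, dfc (G (Γ.p1 (τ, y)) - G (Γ.p2 (τ, y))) ≤ μ) →
  𝔼 d : Ds E ι Q H K, |G (Γ.d1 d) - G (Γ.d2 d)| ≤ 4 * √(θ * (m * n) * K)

/-! ### The base instance -/

/-- Number of demand pairs separated by `S`. -/
def demF {D X : Type} [Fintype D] (L : ℕ) (d1 d2 : D → X) (S : X → ℕ → Bool) : ℕ :=
  ∑ d, ∑ i ∈ range L, sep (S (d1 d) i) (S (d2 d) i)

def BaseNo2St : Prop := ∀ (T Y D X : Type) [Fintype T] [Fintype Y] [Nonempty Y] [Fintype D]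
  [Nonempty D] (L : ℕ) (P P' : T × Y → X) (d1 d2 : D → X) (τ0 : T) (η μ : ℝ), 0 < L → 0 < μ →
  μ ≤ 1 → 0 ≤ η → (∀ φ : X → ℝ, 𝔼 d, φ (d1 d) = 𝔼 y, φ (P (τ0, y))) →
  (∀ φ : X → ℝ, 𝔼 d, φ (d2 d) = 𝔼 y, φ (P (τ0, y))) →
  (∀ G : X → ℝ, (∀ τ, 𝔼 y, dfc (G (P (τ, y)) - G (P' (τ, y))) ≤ μ) →
    𝔼 d, |G (d1 d) - G (d2 d)| ≤ η) →
  ∀ (S : X → ℕ → Bool) (s0 s1 : Bool), (∀ x, S x 0 = s0) → (∀ x, S x L = s1) →
    (s0 ≠ s1 → 4 * Fintype.card (T × Y) ≤ capF L P P' S ∧ demF L d1 d2 S ≤ η * Fintype.card D +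
      3 * L ^ 2 * Fintype.card D / (μ * Fintype.card Y) *
        (capF L P P' S - (4 * Fintype.card (T × Y) : ℕ))) ∧
    (s0 = s1 → demF L d1 d2 S ≤
      3 * L ^ 2 * Fintype.card D / (μ * Fintype.card Y) * capF L P P' S)

def MargSt : Prop := ∀ (E S ι Q : Type) [Fintype E] [Fintype ι] [LinearOrder ι]
  [Fintype Q] [DecidableEq Q] (Γ : Gad E S ι Q) (H : ℕ) [NeZero H] (K r : ℕ) (τ0 : Ty ι Q r H),
  τ0.1 = true → ∀ φ : PtQ ι Q H → ℝ,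
    𝔼 d : Ds E ι Q H K, φ (Γ.d1 d) = 𝔼 y : Ys E ι Q H, φ (Γ.p1 (τ0, y)) ∧
    𝔼 d : Ds E ι Q H K, φ (Γ.d2 d) = 𝔼 y : Ys E ι Q H, φ (Γ.p1 (τ0, y))

def BaseYes2St : Prop := ∀ (E S ι Q : Type) [Fintype E] [Fintype ι] [LinearOrder ι]
  [Fintype Q] [DecidableEq Q] (Γ : Gad E S ι Q) (H : ℕ) [NeZero H] (K r : ℕ) (η : ℝ)
  (l1 l2 : ℕ → S), (∀ e, Γ.g.R e (l1 (Γ.g.v e)) (l2 (Γ.g.u e)) = true) →
  (∀ (a : ι) (x : ι → ℕ), ∃ c, Γ.row c = a ∧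
    ∀ p, Γ.lab c p = if a < p then l1 (x p) else l2 (x p)) →
  (∀ hc : ι → Q, Function.Injective hc →
    η ≤ spr K fun s : Tor Q H => ∑ a, (tent (s (hc a)) : ℝ)) →
  ∃ C : PtQ ι Q H → ℕ → Bool, (∀ x, C x 0 = true) ∧ (∀ x, C x (Fintype.card ι * H + 1) = false) ∧
    capF (Fintype.card ι * H + 1) (Γ.p1 (r := r)) Γ.p2 C =
      4 * Fintype.card (Ty ι Q r H × Ys E ι Q H) ∧
    η * Fintype.card (Ds E ι Q H K) ≤ demF (Fintype.card ι * H + 1) (Γ.d1 (K := K)) Γ.d2 C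

/-! ### Parallel repetition of projection games -/

/-- At `u`, the incidence `j` asks the question `qu u j` and projects answers by `pj u j`. -/
structure PS (U J S A : Type) where
  qu : U → J → ℕ
  pj : U → J → S → Option A

section PS

variable {U J S A : Type} (P : PS U J S A)

def PS.Win {k : ℕ} (e : Fin k → U × J × J) (x y : Fin k → S) : Prop :=
  ∀ i, ∃ α, P.pj (e i).1 (e i).2.1 (x i) = some α ∧ P.pj (e i).1 (e i).2.2 (y i) = some α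

variable [Fintype U] [Fintype J] [Fintype S] [Fintype A] [DecidableEq A]

noncomputable def PS.op (h : ℕ → S → ℝ) (u : U) (α : A) : ℝ :=
  𝔼 j, ∑ β, if P.pj u j β = some α then h (P.qu u j) β else 0

def PS.Con (lam : ℝ) : Prop := ∀ h : ℕ → S → ℝ, (∀ v β, 0 ≤ h v β) →
  𝔼 u, ∑ α, P.op h u α ^ 2 ≤ lam * 𝔼 u, 𝔼 j, (∑ β, h (P.qu u j) β) ^ 2

end PS

def DSSt : Prop := ∀ (U J S A : Type) [Fintype U] [Nonempty U] [Fintype J] [Nonempty J]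
  [Fintype S] [Fintype A] [DecidableEq A] (P : PS U J S A) (lam : ℝ), 0 ≤ lam → P.Con lam →
  ∀ (k : ℕ) (l1 l2 : (Fin k → ℕ) → Fin k → S),
    (pr fun e : Fin k → U × J × J => P.Win e (l1 fun i => P.qu (e i).1 (e i).2.1)
      (l2 fun i => P.qu (e i).1 (e i).2.2)) ≤ lam ^ k

/-- Code of the arc number `i` leaving (`σ = true`) or entering the vertex `x`. -/
def arcC (d : ℕ) (G : Gr) (x : ℕ) (σ : Bool) (i : ℕ) : ℕ :=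
  cond σ (x * d + i) ((grot G x i).1 * d + (grot G x i).2)

/-- The pair `(a, b)` satisfies the constraint on the arc with code `y`. -/
def arcOK (q d : ℕ) (G : Gr) (y a b : ℕ) : Bool := rel q (gcode G (y / d) (y % d)) a b

/-- The projection system of a regular constraint graph. -/
def psOf (q d : ℕ) (G : Gr) :
    PS (Bool × Fin G.length) (Fin G.length × Bool × Fin d) (Fin q × Fin q) (Option (Fin q)) where
  qu u j := arcC d G (cond u.1 u.2 j.1) j.2.1 j.2.2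
  pj u j β := if arcOK q d G (arcC d G (cond u.1 u.2 j.1) j.2.1 j.2.2) β.1 β.2 = true then
    some (cond u.1 (some (cond j.2.1 β.1 β.2)) none) else none

def ConSt : Prop := ∀ (q d : ℕ) (G : Gr) (γ : ℝ), 0 < q → 0 < d → GWF q d G → 0 < γ → γ ≤ 1 →
  GGap q d G γ → (psOf q d G).Con (1 - γ ^ 2 / 256)

end Pool.Agent.P.MP_9cbceb_lc.Q
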