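import Pool.Agent.P.MP_9cbceb_lc.Stm

/-! Approximation ratios that depend on the number of vertices, and quasi-polynomial time. -/

namespace Pool.Agent.P.MP_9cbceb_lc.Q

/-- On every instance (number `n` of vertices, capacities, demands) with a cut of positive demand,
`A` returns a cut of positive demand whose sparsity is at most `ρ n` times the sparsity of any
such cut. -/
def ApproxF (ρ : ℕ → ℝ) (A : ℕ × List (ℕ × ℕ × ℚ) × List (ℕ × ℕ × ℚ) → List Bool) : Prop :=
  ∀ (n : ℕ) (c D : List (ℕ × ℕ × ℚ)), Simple n c → Simple n D → Total n D →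
    ∀ T : List Bool, 0 < cut D T → 0 < cut D (A (n, c, D)) ∧
      ((cut c (A (n, c, D)) / cut D (A (n, c, D)) : ℚ) : ℝ) ≤ ρ n * ((cut c T / cut D T : ℚ) : ℝ)

/-- The machine `M`, started on the word `x`, halts with the bit `b` within `T` steps. -/
def Outputs (M : Turing.TM2ComputableAux Bool Bool) (x : List Bool) (b : Bool) (T : ℕ) : Prop :=
  Nonempty (Turing.TM2OutputsInTime M.tm (x.map M.inputAlphabet.invFun)
    (some ([b].map M.outputAlphabet.invFun)) T)

/-- Languages decided in quasi-polynomial time. -/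
def QP : Set (List Bool → Bool) :=
  {L | ∃ (k : ℕ) (M : Turing.TM2ComputableAux Bool Bool), ∀ x : List Bool,
    Outputs M x (L x) (2 ^ (Nat.log 2 x.length + 2) ^ k)}

end Pool.Agent.P.MP_9cbceb_lc.Q
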