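import Pool.Agent.P.MP_9cbceb_lc.Q.GP
import Pool.Agent.P.MP_9cbceb_lc.Q.Stm

/-! Quantitative version: programs and statements of the computational part. -/

namespace Pool.Agent.P.MP_9cbceb_lc.Q

open Pool.Agent.Lib.helper21 Finset
open scoped BigOperators

/-! ### Enumerations and codes -/

/-- The list `L` contains the values of `f`, each argument being used once. -/
def Enum {α A : Type} [Fintype A] (L : List α) (f : A → α) : Prop :=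
  ∀ F : α → ℕ, (L.map F).sum = ∑ a, F (f a)

def prd {α β : Type} (L : List α) (M : List β) : List (α × β) :=
  L.flatMap fun a => M.map fun b => (a, b)

/-- Value of the digits `l` for the weights `pw`. -/
def cod (pw l : List ℕ) : ℕ := ((List.range l.length).map fun i => l.getD i 0 * pw.getD i 0).sum

/-! ### Games given by tables -/

abbrev Cn := ℕ × ℕ × List Bool

abbrev Ins2 := List Cn

def relL (q : ℕ) (e : Cn) (a b : ℕ) : Bool :=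
  decide (a < q) && decide (b < q) && e.2.2.getD (a * q + b) false

def gm (q : ℕ) (I : Ins2) : Game (Fin I.length) ℕ where
  v e := I[e].1
  u e := I[e].2.1
  R e a b := relL q I[e] a b

/-- `I` lists the rounds of the projection system `P`. -/
def Rep1 {U J S A : Type} [Fintype U] [Fintype J] (P : PS U J S A) (q : ℕ) (ν : S ≃ Fin q)
    (I : Ins2) : Prop :=
  ∃ tb : U × J × J → List Bool,
    Enum I (fun e : U × J × J => (P.qu e.1 e.2.1, P.qu e.1 e.2.2, tb e)) ∧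
    ∀ e x y, (tb e).getD (ν x * q + ν y) false = true ↔
      ∃ α, P.pj e.1 e.2.1 x = some α ∧ P.pj e.1 e.2.2 y = some α

def PS.Yes {U J S A : Type} (P : PS U J S A) : Prop :=
  ∃ l : ℕ → S, ∀ u j j', ∃ α, P.pj u j (l (P.qu u j)) = some α ∧ P.pj u j' (l (P.qu u j')) = some α

def OneSt : Prop := ∀ q d : ℕ, 0 < q → ∃ one : Gr → Ins2, PT one ∧ ∀ G, GWF q d G →
  Rep1 (psOf q d G) (q * q) finProdFinEquiv (one G) ∧ (GSat q d G → (psOf q d G).Yes)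

def ProdSt : Prop := ∃ prod : ℕ → Ins2 → ℕ → Ins2,
  (∀ (α : Type) [Enc α] (e q k : α → ℕ) (I : α → Ins2), GP e q → GP e I → GP e k → Bd e k →
    GP e fun a => prod (q a) (I a) (k a)) ∧
  ∀ (U J S A : Type) [Fintype U] [Nonempty U] [Fintype J] [Nonempty J] (P : PS U J S A) (q : ℕ)
    (ν : S ≃ Fin q) (I : Ins2) (k : ℕ), 0 < q → Rep1 P q ν I → prod q I k ≠ [] ∧
    (P.Yes → (gm (q ^ k) (prod q I k)).Yes) ∧
    ∀ ε : ℝ, (∀ l1 l2 : (Fin k → ℕ) → Fin k → S,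
      (pr fun e : Fin k → U × J × J => P.Win e (l1 fun i => P.qu (e i).1 (e i).2.1)
        (l2 fun i => P.qu (e i).1 (e i).2.2)) ≤ ε) → (gm (q ^ k) (prod q I k)).No (1 - ε)

def RepSt : Prop := ∀ q d : ℕ, 0 < q → 0 < d → ∃ rep : Gr → ℕ → Ins2,
  (∀ (α : Type) [Enc α] (e k : α → ℕ) (G : α → Gr), GP e G → GP e k → Bd e k →
    GP e fun a => rep (G a) (k a)) ∧
  ∀ G k, GWF q d G → rep G k ≠ [] ∧ (GSat q d G → (gm ((q * q) ^ k) (rep G k)).Yes) ∧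
    ∀ γ : ℝ, 0 < γ → γ ≤ 1 → GGap q d G γ →
      (gm ((q * q) ^ k) (rep G k)).No (1 - (1 - γ ^ 2 / 256) ^ k)

/-! ### The base instance as a list -/

/-- The gadget of a game given by tables. -/
def gad (q N : ℕ) (hN : 0 < N) (I : Ins2) : Gad (Fin I.length) ℕ (Fin N) (Fin (N * q ^ N)) where
  g := gm q I
  row c := ⟨c % N, Nat.mod_lt _ hN⟩
  lab c p := c / N / q ^ (p : ℕ) % q

abbrev PtL := List ℕ × List ℕ
abbrev TyL := Bool × Bool × ℕ × List ℕ × List Bool × ℕ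
abbrev YsL := Ins2 × List ℕ × List Bool
abbrev DsL := Ins2 × List ℕ × List (List Bool) × List (List Bool)

def vwL (N : ℕ) (W : Ins2) : List ℕ := (List.range (N * N)).map fun k =>
  cond (decide (k / N < k % N)) (W.getD k (0, 0, [])).1 (W.getD (k % N * N + k / N) (0, 0, [])).2.1

def mkL (N : ℕ) (R : List Bool) (X : List ℕ) : List ℕ :=
  (List.range (N * N)).map fun k => cond (R.getD (k / N) false) 0 (X.getD k 0)

def labL (N q : ℕ) (pq : List ℕ) (c p : ℕ) : ℕ := c / N / pq.getD p 0 % q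

def clL (N q : ℕ) (pq : List ℕ) (W : Ins2) (c c' : ℕ) : Bool :=
  decide (c % N = c' % N) || cond (decide (c % N < c' % N))
    (!relL q (W.getD (c % N * N + c' % N) (0, 0, [])) (labL N q pq c (c' % N))
      (labL N q pq c' (c % N)))
    (!relL q (W.getD (c' % N * N + c % N) (0, 0, [])) (labL N q pq c' (c % N))
      (labL N q pq c (c' % N)))

def movL (N n : ℕ) (τ : TyL) : List ℕ :=
  cond τ.2.1 ((List.range n).filter fun c => decide (c % N = τ.2.2.1)) τ.2.2.2.1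

def addL (H n : ℕ) (s A : List ℕ) (β : List Bool) : List ℕ := (List.range n).map fun c =>
  (s.getD c 0 + cond (β.getD c false && A.any fun x => decide (x = c)) 1 0) % H

def shrL (N n : ℕ) (R : List Bool) (a j : ℕ) (s : List ℕ) : List ℕ := (List.range n).map fun c =>
  cond (R.getD (c % N) false) 0 (cond (decide (c % N = a)) (min (s.getD c 0) j) (s.getD c 0))

def insL (N : ℕ) (R : List Bool) (a : ℕ) : List Bool :=
  (List.range N).map fun b => R.getD b false || decide (b = a)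

def wkL (H n : ℕ) (s : List ℕ) (ω : List (List Bool)) : List ℕ :=
  (List.range n).map fun c => (s.getD c 0 + ω.countP fun β => β.getD c false) % H

def p1L (N n : ℕ) (z : TyL × YsL) : PtL :=
  cond z.1.1 (vwL N z.2.1, z.2.2.1) (mkL N z.1.2.2.2.2.1 (vwL N z.2.1),
    shrL N n z.1.2.2.2.2.1 z.1.2.2.1 (z.1.2.2.2.2.2 + 1) z.2.2.1)

def p2L (N n q H : ℕ) (pq : List ℕ) (z : TyL × YsL) : PtL :=
  cond z.1.1 (vwL N z.2.1,
      cond ((movL N n z.1).all fun c => (movL N n z.1).all fun c' => clL N q pq z.2.1 c c')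
        (addL H n z.2.2.1 (movL N n z.1) z.2.2.2) z.2.2.1)
    (mkL N (cond (decide (z.1.2.2.2.2.2 = 0)) (insL N z.1.2.2.2.2.1 z.1.2.2.1) z.1.2.2.2.2.1)
      (vwL N z.2.1), shrL N n z.1.2.2.2.2.1 z.1.2.2.1 z.1.2.2.2.2.2 z.2.2.1)

def d1L (N n H : ℕ) (d : DsL) : PtL := (vwL N d.1, wkL H n d.2.1 d.2.2.1)

def d2L (N n H : ℕ) (d : DsL) : PtL := (vwL N d.1, wkL H n d.2.1 d.2.2.2)

/-- Name of the vertex at level `i` over the point `x`. -/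
def nmL (pw : List ℕ) (L : ℕ) (x : PtL) (i : ℕ) : ℕ :=
  cond (decide (i = 0)) 0 (cond (decide (L ≤ i)) 1 (cod pw (i :: (x.1 ++ x.2)) + 2))

def arcL (pw : List ℕ) (L : ℕ) (x y : PtL) : Prs := (List.range L).flatMap fun i =>
  [(nmL pw L x i, nmL pw L y (i + 1)), (nmL pw L y i, nmL pw L x (i + 1)),
    (nmL pw L x i, nmL pw L x (i + 1)), (nmL pw L y i, nmL pw L y (i + 1))]

def tysL (N n r H : ℕ) : List TyL :=
  prd [true, false] (prd [true, false] (prd (List.range N) (prd (conc_tup (List.range n) r)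
    (prd (conc_tup [true, false] N) (List.range H)))))

def ysL (I : Ins2) (N n H : ℕ) : List YsL :=
  prd (conc_tup I (N * N)) (prd (conc_tup (List.range H) n) (conc_tup [true, false] n))

def dsL (I : Ins2) (N n H K : ℕ) : List DsL :=
  prd (conc_tup I (N * N)) (prd (conc_tup (List.range H) n)
    (prd (conc_tup (conc_tup [true, false] n) K) (conc_tup (conc_tup [true, false] n) K)))

/-- Weights for the names of the vertices. -/
def pwL (I : Ins2) (N n H : ℕ) : List ℕ := pows (sz I + H + (N * H + 1)) (N * N + n + 1)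

/-- Supply pairs, demand pairs, number of arcs and number of demand columns. -/
def baseL (I : Ins2) (q N r H K : ℕ) : Prs × Prs × ℕ × ℕ :=
  ((prd (tysL N (N * q ^ N) r H) (ysL I N (N * q ^ N) H)).flatMap fun z =>
      arcL (pwL I N (N * q ^ N) H) (N * H + 1) (p1L N (N * q ^ N) z)
        (p2L N (N * q ^ N) q H (pows q N) z),
    (dsL I N (N * q ^ N) H K).flatMap fun d => (List.range (N * H + 1)).map fun i =>
      (nmL (pwL I N (N * q ^ N) H) (N * H + 1) (d1L N (N * q ^ N) H d) i,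
        nmL (pwL I N (N * q ^ N) H) (N * H + 1) (d2L N (N * q ^ N) H d) i),
    4 * (prd (tysL N (N * q ^ N) r H) (ysL I N (N * q ^ N) H)).length,
    (dsL I N (N * q ^ N) H K).length)

section Encode

variable {N n r H K : ℕ}

def encW (I : Ins2) (W : Fin N × Fin N → Fin I.length) : Ins2 :=
  List.ofFn fun k : Fin (N * N) => I[W (finProdFinEquiv.symm k)]

def encS (s : Tor (Fin n) H) : List ℕ := List.ofFn fun c => (s c).val

def encP (x : PtQ (Fin N) (Fin n) H) : PtL :=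
  (List.ofFn fun k : Fin (N * N) => x.1 (finProdFinEquiv.symm k).1 (finProdFinEquiv.symm k).2,
    encS x.2)

def encT (τ : Ty (Fin N) (Fin n) r H) : TyL :=
  (τ.1, τ.2.1, τ.2.2.1, List.ofFn fun i => (τ.2.2.2.1 i : ℕ), List.ofFn τ.2.2.2.2.1, τ.2.2.2.2.2)

def encY (I : Ins2) (y : Ys (Fin I.length) (Fin N) (Fin n) H) : YsL :=
  (encW I y.1, encS y.2.1, List.ofFn y.2.2)

def encD (I : Ins2) (d : Ds (Fin I.length) (Fin N) (Fin n) H K) : DsL :=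
  (encW I d.1, encS d.2.1, List.ofFn fun k => List.ofFn (d.2.2.1 k),
    List.ofFn fun k => List.ofFn (d.2.2.2 k))

end Encode

def PtSt : Prop := ∀ (I : Ins2) (q N r H K : ℕ) [NeZero H] (hN : 0 < N),
  (∀ (τ : Ty (Fin N) (Fin (N * q ^ N)) r H) (y : Ys (Fin I.length) (Fin N) (Fin (N * q ^ N)) H),
    p1L N (N * q ^ N) (encT τ, encY I y) = encP ((gad q N hN I).p1 (τ, y)) ∧
    p2L N (N * q ^ N) q H (pows q N) (encT τ, encY I y) = encP ((gad q N hN I).p2 (τ, y))) ∧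
  ∀ d : Ds (Fin I.length) (Fin N) (Fin (N * q ^ N)) H K,
    d1L N (N * q ^ N) H (encD I d) = encP ((gad q N hN I).d1 d) ∧
    d2L N (N * q ^ N) H (encD I d) = encP ((gad q N hN I).d2 d)

def EnumSt : Prop := ∀ (I : Ins2) (N n r H K : ℕ) [NeZero H],
  Enum (tysL N n r H) (encT : Ty (Fin N) (Fin n) r H → TyL) ∧
  Enum (ysL I N n H) (encY I : Ys (Fin I.length) (Fin N) (Fin n) H → YsL) ∧
  Enum (dsL I N n H K) (encD I : Ds (Fin I.length) (Fin N) (Fin n) H K → DsL)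

/-- Different vertices over bounded points have different names. -/
def NameSt : Prop := ∀ (N n H L b : ℕ) [NeZero H], 0 < L → H ≤ b → L ≤ b →
  ∀ C : PtQ (Fin N) (Fin n) H → ℕ → Bool, (∀ x, C x 0 = true) → (∀ x, C x L = false) →
  ∃ S : ℕ → Bool, S 0 = true ∧ S 1 = false ∧ ∀ x : PtQ (Fin N) (Fin n) H,
    (∀ a p, x.1 a p < b) → ∀ i ≤ L, S (nmL (pows b (N * N + n + 1)) L (encP x) i) = C x i

def BaseGPSt : Prop := ∀ (α : Type) [Enc α] (e q N r H K : α → ℕ) (I : α → Ins2),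
  GP e I → GP e q → GP e N → GP e r → GP e H → GP e K → Bd e N → Bd e r → Bd e K →
  (Bd e fun a => N a * q a ^ N a) → GP e fun a => baseL (I a) (q a) (N a) (r a) (H a) (K a)

def Conc2St : Prop := ∀ (I : Ins2) (q N r H K : ℕ) [NeZero H] (hN : 0 < N),
  ∃ nm : PtQ (Fin N) (Fin (N * q ^ N)) H → ℕ → ℕ, (∀ x, nm x 0 = 0) ∧
  (∀ x, nm x (N * H + 1) = 1) ∧
  (baseL I q N r H K).2.2.1 = 4 * Fintype.card (Ty (Fin N) (Fin (N * q ^ N)) r H ×
    Ys (Fin I.length) (Fin N) (Fin (N * q ^ N)) H) ∧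
  (baseL I q N r H K).2.2.2 = Fintype.card (Ds (Fin I.length) (Fin N) (Fin (N * q ^ N)) H K) ∧
  (∀ S : ℕ → Bool, cnt S (baseL I q N r H K).1 =
      capF (N * H + 1) ((gad q N hN I).p1 (r := r)) (gad q N hN I).p2 (fun x i => S (nm x i)) ∧
    cnt S (baseL I q N r H K).2.1 =
      demF (N * H + 1) ((gad q N hN I).d1 (K := K)) (gad q N hN I).d2 fun x i => S (nm x i)) ∧
  ∀ C : PtQ (Fin N) (Fin (N * q ^ N)) H → ℕ → Bool, (∀ x, C x 0 = true) →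
    (∀ x, C x (N * H + 1) = false) → ∃ S : ℕ → Bool, S 0 = true ∧ S 1 = false ∧
    cnt S (baseL I q N r H K).1 =
      capF (N * H + 1) ((gad q N hN I).p1 (r := r)) (gad q N hN I).p2 C ∧
    cnt S (baseL I q N r H K).2.1 =
      demF (N * H + 1) ((gad q N hN I).d1 (K := K)) (gad q N hN I).d2 C

/-- Both cases for the base instance, with `κ` and `η` explicit. -/
def Base2St : Prop := ∃ n0 : ℕ, 0 < n0 ∧ ∀ (I : Ins2) (q m y r J u w : ℕ) (ε : ℝ), I ≠ [] → 0 < q →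
  0 < m → 0 < y → 0 < J → 0 < u → 0 < w → 16 * u ^ 2 ≤ r → 2 * r * u ^ 2 ≤ m → 0 ≤ ε →
  4 * m ^ 2 * ε * u ^ 2 ≤ 1 → 2048 * u ^ 2 * (4 + 128 * m * u ^ 4) * m ≤ y ^ 2 →
  72 * u ^ 2 * (2 * ((m * y) ^ 2 * q ^ (m * y) ^ 2)) ^ r ≤ w →
  48 * w * ((m * y) ^ 2 * q ^ (m * y) ^ 2) ^ 5 ≤ J ^ 2 →
  ∀ B : Prs × Prs × ℕ × ℕ, B = baseL I q ((m * y) ^ 2) r (16 * J) (J ^ 2) →
  0 < B.2.2.1 ∧ 0 < B.2.2.2 ∧
  ((gm q I).Yes → ∃ S : ℕ → Bool, S 0 = true ∧ S 1 = false ∧ cnt S B.1 = B.2.2.1 ∧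
    m * y * J * B.2.2.2 ≤ n0 * cnt S B.2.1) ∧
  ((gm q I).No (1 - ε) → ∃ κ : ℝ, 0 ≤ κ ∧
    B.2.2.1 * κ ≤ (12 * ((m * y) ^ 2 * (16 * J) + 1) ^ 2 * w *
      (tysL ((m * y) ^ 2) ((m * y) ^ 2 * q ^ (m * y) ^ 2) r (16 * J)).length : ℕ) * B.2.2.2 ∧
    (∀ S : ℕ → Bool, S 0 ≠ S 1 → B.2.2.1 ≤ cnt S B.1 ∧
      cnt S B.2.1 ≤ 4 * (m * y * J) / u * (B.2.2.2 : ℝ) + κ * (cnt S B.1 - B.2.2.1)) ∧
    ∀ S : ℕ → Bool, S 0 = S 1 → cnt S B.2.1 ≤ κ * cnt S B.1)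

/-! ### Recursive composition with short names -/

def emb2 (B : Prs) (a x : ℕ) : ℕ :=
  cond (decide (x = 0)) (2 * (B.getD a (0, 0)).1)
    (cond (decide (x = 2)) (2 * (B.getD a (0, 0)).2) (2 * (x * B.length + a) + 1))

def copies2 (B L : Prs) : Prs :=
  (List.range B.length).flatMap fun a => L.map fun p => (emb2 B a p.1, emb2 B a p.2)

def comp2 (B D : Prs) (M : ℕ) : ℕ → Prs × Prs
  | 0 => ([(0, 2)], [])
  | j + 1 => (copies2 B (comp2 B D M j).1,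
      (List.replicate (M ^ j) (D.map fun p => (2 * p.1, 2 * p.2))).flatten ++
        copies2 B (comp2 B D M j).2)

def Comp2St : Prop :=
  (∀ (B D : Prs) (M : ℕ) (S : ℕ → Bool), S 0 = true → S 1 = false → cnt S B = M → ∀ l,
    ∃ T : ℕ → Bool, cnt T (comp2 B D M l).1 = M ^ l ∧
      cnt T (comp2 B D M l).2 * M = l * cnt S D * M ^ l) ∧
  (∀ (B D : Prs) (M l : ℕ) (η κ : ℝ), 0 < η → 0 ≤ κ → M * κ ≤ l * η →
    (∀ S : ℕ → Bool, S 0 ≠ S 1 → M ≤ cnt S B ∧ cnt S D ≤ η + κ * (cnt S B - M)) →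
    (∀ S : ℕ → Bool, S 0 = S 1 → cnt S D ≤ κ * cnt S B) →
    ∀ T : ℕ → Bool, (M : ℝ) * cnt T (comp2 B D M l).2 ≤ 2 * l * η * cnt T (comp2 B D M l).1) ∧
  ∀ (α : Type) [Enc α] (e M l : α → ℕ) (B D : α → Prs), GP e B → GP e D → GP e M → GP e l →
    Bd e l → GP e fun a => comp2 (B a) (D a) (M a) (l a)

/-! ### Parameters -/

def pR (u : ℕ) : ℕ := 16 * u ^ 2
def pM (u : ℕ) : ℕ := 32 * u ^ 4
def pY (u : ℕ) : ℕ := 1024 * u ^ 3 * pM u
def pN (u : ℕ) : ℕ := (pM u * pY u) ^ 2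
/-- Alphabet after `k0 u ^ 2` repetitions. -/
def pQ (q k0 u : ℕ) : ℕ := q ^ (k0 * u ^ 2)
def pC (q k0 u : ℕ) : ℕ := pN u * pQ q k0 u ^ pN u
def pW (q k0 u : ℕ) : ℕ := 72 * u ^ 2 * (2 * pC q k0 u) ^ pR u
def pJ (q k0 u : ℕ) : ℕ := 48 * pW q k0 u * pC q k0 u ^ 3
def pL (q k0 u : ℕ) : ℕ := 12 * (pN u * (16 * pJ q k0 u) + 1) ^ 2 * pW q k0 u *
  (tysL (pN u) (pC q k0 u) (pR u) (16 * pJ q k0 u)).length
def pE (q k0 u : ℕ) : ℕ :=
  u + k0 * u ^ 2 + pR u + pN u + pC q k0 u + pJ q k0 u ^ 2 + pL q k0 u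

def ParSt : Prop := ∀ q k0 : ℕ, 0 < q →
  (∃ p : Polynomial ℕ, ∀ u, pE q k0 u ≤ 2 ^ p.eval u) ∧
  (∀ (α : Type) [Enc α] (e u : α → ℕ), GP e u → (Bd e fun a => pE q k0 (u a)) →
    (GP e fun a => pQ q k0 (u a)) ∧ (GP e fun a => pJ q k0 (u a)) ∧ GP e fun a => pL q k0 (u a)) ∧
  ∀ u, 0 < u → 0 < pJ q k0 u ∧ 0 < pW q k0 u ∧ 0 < pL q k0 u ∧
    2048 * u ^ 2 * (4 + 128 * pM u * u ^ 4) * pM u ≤ pY u ^ 2 ∧
    48 * pW q k0 u * pC q k0 u ^ 5 ≤ pJ q k0 u ^ 2 ∧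
    ∀ lam : ℝ, 0 ≤ lam → lam ^ k0 ≤ 1 / 2 ^ 22 → 4 * pM u ^ 2 * lam ^ (k0 * u ^ 2) * u ^ 2 ≤ 1

def Gap2St : Prop := ∀ (q d : ℕ) (γ : ℝ), 0 < q → 0 < d → 0 < γ → γ ≤ 1 →
  ∃ (E : ℕ → ℕ) (f : Gr → ℕ → (Prs × Prs) × ℕ × ℕ),
  (∃ p : Polynomial ℕ, ∀ C, E C ≤ 2 ^ p.eval C) ∧
  (∀ (α : Type) [Enc α] (e C : α → ℕ) (G : α → Gr), GP e G → GP e C → (Bd e fun a => E (C a)) →
    GP e fun a => f (G a) (C a)) ∧
  ∀ G C, GWF q d G → 0 < (f G C).2.1 ∧ 0 < (f G C).2.2 ∧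
    (GSat q d G → ∃ S, 0 < cnt S (f G C).1.2 ∧
      (f G C).2.1 * cnt S (f G C).1.1 ≤ (f G C).2.2 * cnt S (f G C).1.2) ∧
    (GGap q d G γ → ∀ S,
      (C + 1) * (f G C).2.2 * cnt S (f G C).1.2 ≤ (f G C).2.1 * cnt S (f G C).1.1)

/-! ### The last steps -/

abbrev Alg := ℕ × List (ℕ × ℕ × ℚ) × List (ℕ × ℕ × ℚ) → List Bool

def DecSt : Prop := ∃ E : ℕ → ℕ, (∃ p : Polynomial ℕ, ∀ C, E C ≤ 2 ^ p.eval C) ∧
  ∀ A : Alg, N68a2faeb.IsPolyTime A → ∀ L ∈ N68a2faeb.NP,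
    ∃ (dec : List Bool × ℕ → Bool) (nv : List Bool × ℕ → ℕ), GP (fun p => E p.2) dec ∧
      XB (fun p => E p.2) nv ∧
      ∀ ρ : ℕ → ℝ, ApproxF ρ A → ∀ x C, ρ (nv (x, C)) ≤ C → dec (x, C) = L x

/-- The time budget. -/
def bud (a b : ℕ) (x : List Bool) (C : ℕ) : ℕ := (x.length + 2) ^ (b * 2 ^ C ^ a)

def TradeI (a : ℕ) : Prop := ∀ A : Alg, N68a2faeb.IsPolyTime A → ∀ L ∈ N68a2faeb.NP,
  ∃ (b : ℕ) (dec : List Bool × ℕ → Bool), 0 < b ∧
    RealT (fun p : List Bool × ℕ => bud a b p.1 p.2) Enc.enc (fun p => [dec p]) ∧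
    ∀ ρ : ℕ → ℝ, Monotone ρ → ApproxF ρ A → ∀ x C, ρ (bud a b x C) ≤ C → dec (x, C) = L x

def TradeSt : Prop := ∃ a : ℕ, 0 < a ∧ TradeI a

def Fin1St (a : ℕ) : Prop := ∀ (ρ : ℕ → ℝ) (A : Alg), Monotone ρ → N68a2faeb.IsPolyTime A →
  ApproxF ρ A → ∀ L ∈ N68a2faeb.NP, ∃ (b : ℕ) (M : Turing.TM2ComputableAux Bool Bool),
    ∀ (x : List Bool) (C : ℕ), ρ ((x.length + 2) ^ (b * 2 ^ C ^ a)) ≤ C →
      Outputs M ((x.flatMap fun c => [true, c]) ++ false :: List.replicate C true) (L x)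
        ((x.length + 2) ^ (b * 2 ^ C ^ a))

def Fin2St (a : ℕ) : Prop := ∀ (K : ℝ) (A : Alg), 1 ≤ K → N68a2faeb.IsPolyTime A →
  ApproxF (fun n => K * Real.log (Real.log (n + 16)) ^ (1 / (a + 1) : ℝ)) A → N68a2faeb.NP ⊆ QP

end Pool.Agent.P.MP_9cbceb_lc.Q
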