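import Pool.Agent.P.MP_9cbceb_lc.Conc
import Pool.Agent.P.MP_9cbceb_lc.Q.DA

/-! Functions computable in time `size ^ poly(e)`, by padding. -/

namespace Pool.Agent.P.MP_9cbceb_lc.Q

open Pool.Agent.Lib.helper21 Pool.Agent.Lib.helper26 Finset Function

variable {α β γ σ : Type} [Enc α] [Enc β] [Enc γ] [Enc σ] {e : α → ℕ}

/-- `g` is at most the size of the input to a power polynomial in `e`. -/
def XB (e g : α → ℕ) : Prop := ∃ p : α → ℕ, Bd e p ∧ ∀ a, g a ≤ (sz a + 2) ^ p a

/-- `f` is computed in polynomial time as soon as a long enough padding is supplied. -/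
def GP (e : α → ℕ) (f : α → β) : Prop :=
  ∃ B : α → ℕ, XB e B ∧ ∃ F : α × ℕ → β, PT F ∧ ∀ a n, B a ≤ n → F (a, n) = f a

theorem XB.mono {f g : α → ℕ} (hg : XB e g) (h : ∀ a, f a ≤ g a) : XB e f := by
  obtain ⟨p, hp, h1⟩ := hg
  exact ⟨p, hp, fun a => (h a).trans (h1 a)⟩

theorem XB.const (c : ℕ) : XB e fun _ => c :=
  ⟨fun _ => c, Bd.const _ _, fun _ =>
    (Nat.lt_two_pow_self).le.trans (Nat.pow_le_pow_left (by omega) _)⟩

theorem XB.sz : XB e sz := ⟨fun _ => 1, Bd.const _ _, fun a => by simp⟩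

theorem XB.of_bd {g : α → ℕ} (h : Bd e g) : XB e g :=
  ⟨g, h, fun _ => (Nat.lt_two_pow_self).le.trans (Nat.pow_le_pow_left (by omega) _)⟩

theorem XB.mul {f g : α → ℕ} (hf : XB e f) (hg : XB e g) : XB e fun a => f a * g a := by
  obtain ⟨p, hp, h1⟩ := hf
  obtain ⟨q, hq, h2⟩ := hg
  exact ⟨fun a => p a + q a, hp.add hq, fun a => by
    rw [pow_add]; exact Nat.mul_le_mul (h1 a) (h2 a)⟩

theorem XB.add {f g : α → ℕ} (hf : XB e f) (hg : XB e g) : XB e fun a => f a + g a := by
  obtain ⟨p, hp, h1⟩ := hf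
  obtain ⟨q, hq, h2⟩ := hg
  refine ⟨fun a => p a + q a + 1, (hp.add hq).add (Bd.const _ _), fun a => ?_⟩
  have a1 : (Lib.helper21.sz a + 2) ^ p a ≤ (Lib.helper21.sz a + 2) ^ (p a + q a) :=
    Nat.pow_le_pow_right (by omega) (by omega)
  have a2 : (Lib.helper21.sz a + 2) ^ q a ≤ (Lib.helper21.sz a + 2) ^ (p a + q a) :=
    Nat.pow_le_pow_right (by omega) (by omega)
  have a3 := h1 a
  have a4 := h2 a
  rw [pow_succ]
  nlinarith

theorem XB.pow {f n : α → ℕ} (hf : XB e f) (hn : Bd e n) : XB e fun a => f a ^ n a := by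
  obtain ⟨p, hp, h1⟩ := hf
  exact ⟨fun a => p a * n a, hp.mul hn, fun a => by
    rw [pow_mul]; exact Nat.pow_le_pow_left (h1 a) _⟩

theorem XB.poly {f : α → ℕ} (hf : XB e f) (q : Polynomial ℕ) : XB e fun a => q.eval (f a) := by
  induction q using Polynomial.induction_on' with
  | add p q hp hq => simpa only [Polynomial.eval_add] using hp.add hq
  | monomial k c =>
    simpa only [Polynomial.eval_monomial] using (XB.const c).mul (hf.pow (Bd.const _ k))

theorem XB.bd {f g : α → ℕ} (hf : XB e f) (hg : Bd f g) : XB e g := by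
  obtain ⟨q, hq⟩ := hg
  exact (hf.poly q).mono hq

theorem XB.weaken {e' g : α → ℕ} (hg : XB e' g) (h : Bd e e') : XB e g := by
  obtain ⟨p, hp, h1⟩ := hg
  exact ⟨p, h.trans hp, h1⟩

theorem GP.xb {f : α → β} (h : GP e f) : XB e fun a => sz (f a) := by
  obtain ⟨B, hB, F, hF, h⟩ := h
  obtain ⟨q, hq⟩ := hF.bd
  refine (((((XB.const 2).mul XB.sz).add hB).add (XB.const 1)).poly q).mono fun a => ?_
  have := hq (a, B a)
  beta_reduce at this
  rwa [h a _ le_rfl, sz_pair, sz_nat] at this

theorem GP.xbNat {f : α → ℕ} (h : GP e f) : XB e f := h.xb.mono fun a => by simp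

theorem GP.of_eq {f g : α → β} (h : GP e f) (h' : ∀ a, f a = g a) : GP e g :=
  (funext h' : f = g) ▸ h

theorem GP.of_pt {f : α → β} (h : PT f) : GP e f :=
  ⟨fun _ => 0, XB.const 0, fun p => f p.1, h.comp PT.id.fst, fun _ _ _ => rfl⟩

theorem GP.weaken {e' : α → ℕ} {f : α → β} (hf : GP e' f) (h : Bd e e') : GP e f := by
  obtain ⟨B, hB, h1⟩ := hf
  exact ⟨B, hB.weaken h, h1⟩

/-- A polynomial-time function of a padded value. -/
theorem GP.pt {f : α → β} {g : β → γ} (hg : PT g) (hf : GP e f) : GP e fun a => g (f a) := by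
  obtain ⟨B, hB, F, hF, h⟩ := hf
  exact ⟨B, hB, fun p => g (F p), hg.comp hF, fun a n hn => congrArg g (h a n hn)⟩

theorem GP.pair {f : α → β} {g : α → γ} (hf : GP e f) (hg : GP e g) :
    GP e fun a => (f a, g a) := by
  obtain ⟨B, hB, F, hF, h⟩ := hf
  obtain ⟨B', hB', F', hF', h'⟩ := hg
  exact ⟨fun a => B a + B' a, hB.add hB', fun p => (F p, F' p), hF.pair hF', fun a n hn => by
    beta_reduce at hn ⊢
    rw [h a n (by omega), h' a n (by omega)]⟩

theorem GP.pt2 {f : α → β} {f' : α → σ} {g : β → σ → γ} (hg : PT fun p : β × σ => g p.1 p.2)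
    (hf : GP e f) (hf' : GP e f') : GP e fun a => g (f a) (f' a) :=
  GP.pt hg (hf.pair hf')

theorem GP.add {f g : α → ℕ} (hf : GP e f) (hg : GP e g) : GP e fun a => f a + g a :=
  GP.pt2 (g := fun x y => x + y) (by fun_prop) hf hg

theorem GP.mul {f g : α → ℕ} (hf : GP e f) (hg : GP e g) : GP e fun a => f a * g a :=
  GP.pt2 (g := fun x y => x * y) (by fun_prop) hf hg

theorem GP.const (b : β) : GP e fun _ => b := GP.of_pt (PT.const b)

theorem GP.comp {e' : β → ℕ} {f : α → β} {g : β → γ} (hg : GP e' g) (hf : GP e f)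
    (h : Bd e fun a => e' (f a)) : GP e fun a => g (f a) := by
  have hs := hf.xb
  obtain ⟨B, hB, F, hF, h1⟩ := hf
  obtain ⟨B', ⟨p, hp, hB'⟩, F', hF', h2⟩ := hg
  refine ⟨fun a => B a + B' (f a), hB.add (((hs.add (XB.const 2)).pow
    (h.trans (hp.reindex f))).mono fun a => hB' (f a)), fun p => F' (F p, p.2),
    hF'.comp (hF.pair PT.id.snd), fun a n hn => ?_⟩
  beta_reduce at hn ⊢
  rw [h1 a n (by omega), h2 _ n (by omega)]

/-- Iteration with a bound on the intermediate sizes. -/
theorem GP.iter {F : α → β} {n : α → ℕ} {init : α → σ} {f : β → σ → σ}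
    (hf : PT fun p : β × σ => f p.1 p.2) (hF : GP e F) (hn : GP e n) (hi : GP e init)
    (B : α → ℕ) (hB : XB e B) (hsz : ∀ a, ∀ j < n a, sz ((f (F a))^[j] (init a)) ≤ B a) :
    GP e fun a => (f (F a))^[n a] (init a) := by
  obtain ⟨B', hB', G, hG, h⟩ := hF.pair (hn.pair hi)
  obtain ⟨q, hq⟩ := hf.bd
  let st : (β × ℕ × σ) × ℕ → σ → σ := fun p s => cond (decide (sz s ≤ p.2)) (f p.1.1 s) s
  have h1 : PT fun p : (β × ℕ × σ) × ℕ => (st p)^[p.1.2.1] p.1.2.2 := by
    refine PT.iterate (f := st) (PT.cond (by fun_prop)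
      (hf.comp (g := fun p : ((β × ℕ × σ) × ℕ) × σ => (p.1.1.1, p.2)) (by fun_prop))
      (by fun_prop)) (by fun_prop) (by fun_prop) (fun p => sz p + q.eval (3 * sz p + 1))
      ((Bd.self _).add ((((Bd.const _ _).mul (Bd.self _)).add (Bd.const _ _)).poly q))
      fun p j _ => ?_
    have e1 := sz_prod p
    have e2 := sz_prod p.1
    have e3 := sz_prod p.1.2
    rw [sz_nat] at e1
    induction j with
    | zero => show sz p.1.2.2 ≤ _; omega
    | succ j ih =>
      rw [iterate_succ_apply']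
      generalize (st p)^[j] p.1.2.2 = s at ih
      by_cases hc : sz s ≤ p.2
      · have := (hq (p.1.1, s)).trans (eval_mono q (n := 3 * sz p + 1) (by
          rw [sz_pair]; omega))
        simp only [st, hc, decide_true, cond_true]
        exact this.trans (Nat.le_add_left _ _)
      · simp only [st, hc, decide_false, cond_false]
        exact ih (by omega)
  refine ⟨fun a => B' a + B a, hB'.add hB, fun p => (st (G p, p.2))^[(G p).2.1] (G p).2.2,
    h1.comp (hG.pair PT.id.snd), fun a m hm => ?_⟩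
  beta_reduce at hm ⊢
  rw [h a m (by omega)]
  have key : ∀ j ≤ n a, (st ((F a, n a, init a), m))^[j] (init a) = (f (F a))^[j] (init a) := by
    intro j
    induction j with
    | zero => intro _; rfl
    | succ j ih =>
      intro hj
      rw [iterate_succ_apply', iterate_succ_apply', ih (by omega)]
      have := hsz a j (by omega)
      simp only [st, show sz ((f (F a))^[j] (init a)) ≤ m by omega, decide_true, cond_true]
  exact key _ le_rfl

/-- Iteration of a step that multiplies the size by a polynomial factor. -/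
theorem GP.iter_mul {F : α → β} {n : α → ℕ} {init : α → σ} {f : β → σ → σ}
    (hf : PT fun p : β × σ => f p.1 p.2) (hF : GP e F) (hn : GP e n) (hi : GP e init)
    (hb : Bd e n) (g : β → ℕ) (hg : Bd sz g) (h : ∀ b s, sz (f b s) ≤ g b * (sz s + 1)) :
    GP e fun a => (f (F a))^[n a] (init a) := by
  refine GP.iter hf hF hn hi (fun a => (g (F a) + 1) ^ n a * (sz (init a) + 1))
    ((((hF.xb.bd (hg.reindex F)).add (XB.const 1)).pow hb).mul (hi.xb.add (XB.const 1)))
    fun a j hj => ?_
  have key : ∀ j, sz ((f (F a))^[j] (init a)) + 1 ≤ (g (F a) + 1) ^ j * (sz (init a) + 1) := by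
    intro j
    induction j with
    | zero => simp
    | succ j ih =>
      rw [iterate_succ_apply', pow_succ', mul_assoc]
      have := h (F a) ((f (F a))^[j] (init a))
      have := Nat.mul_le_mul_left (g (F a) + 1) ih
      nlinarith
  have := Nat.mul_le_mul_right (sz (init a) + 1)
    (Nat.pow_le_pow_right (n := g (F a) + 1) (by omega) hj.le)
  have := key j
  omega

theorem GP.pow {f n : α → ℕ} (hf : GP e f) (hn : GP e n) (hb : Bd e n) :
    GP e fun a => f a ^ n a := by
  refine (GP.iter_mul (f := fun b s : ℕ => s * b) (by fun_prop) hf hn (GP.const 1) hb sz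
    (Bd.self _) fun b s => ?_).of_eq fun a => ?_
  · simp only [sz_nat]; nlinarith
  · rw [mul_right_iterate]; simp

omit [Enc β] in
theorem gp_sz_flatMap (L : List β) (F : β → List γ) (M : ℕ) (h : ∀ x ∈ L, sz (F x) ≤ M) :
    sz (L.flatMap F) ≤ L.length * M + 1 := by
  induction L with
  | nil => simp
  | cons x L ih =>
    have h1 := sz_append (F x) (L.flatMap F)
    have h2 := ih fun y hy => h y (List.mem_cons_of_mem _ hy)
    have h3 := h x List.mem_cons_self
    rw [List.flatMap_cons, List.length_cons, Nat.succ_mul]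
    omega

theorem gp_sz_map (L : List β) (F : β → γ) (M : ℕ) (h : ∀ x, sz (F x) ≤ M * (sz x + 1)) :
    sz (L.map F) ≤ (M + 1) * sz L := by
  induction L with
  | nil => simp
  | cons x L ih =>
    have := h x
    rw [List.map_cons, sz_cons, sz_cons]
    nlinarith

theorem GP.tup {L : α → List β} {n : α → ℕ} (hL : GP e L) (hn : GP e n) (hb : Bd e n) :
    GP e fun a => conc_tup (L a) (n a) := by
  refine (GP.iter_mul (f := fun (L : List β) (T : List (List β)) =>
    L.flatMap fun x => T.map (x :: ·)) (by fun_prop) hL hn (GP.const [[]]) hb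
    (fun L => sz L * (2 * sz L + 3) + 1)
    (((Bd.self _).mul (((Bd.const _ _).mul (Bd.self _)).add (Bd.const _ _))).add (Bd.const _ _))
    fun L T => ?_).of_eq fun a => ?_
  · have h1 := gp_sz_flatMap L (fun x => T.map (x :: ·)) ((2 * sz L + 3) * sz T) fun x hx =>
      gp_sz_map T _ (2 * sz L + 2) fun y => by
        have := sz_mem hx
        rw [sz_cons]
        nlinarith
    have h2 := Nat.mul_le_mul_right ((2 * sz L + 3) * sz T) (length_le_sz L)
    nlinarith
  · generalize n a = k
    induction k with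
    | zero => rfl
    | succ k ih => rw [iterate_succ_apply', ih]; rfl

/-- The first `n` powers of `b`. -/
def pows (b n : ℕ) : List ℕ := (List.range n).map (b ^ ·)

theorem pows_getD {b n i : ℕ} (h : i < n) : (pows b n).getD i 0 = b ^ i := by
  simp [pows, List.getD_eq_getElem?_getD, h]

theorem GP.pows {f n : α → ℕ} (hf : GP e f) (hn : GP e n) (hb : Bd e n) :
    GP e fun a => pows (f a) (n a) := by
  refine (GP.iter_mul (f := fun (b : ℕ) (l : List ℕ) => 1 :: l.map (· * b)) (by fun_prop) hf hn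
    (GP.const []) hb (fun b => sz b + 5) ((Bd.self _).add (Bd.const _ _))
    fun b l => ?_).of_eq fun a => ?_
  · have := gp_sz_map l (· * b) b fun x => by simp only [sz_nat]; nlinarith
    simp only [sz_cons, sz_nat]
    nlinarith
  · generalize n a = k
    induction k with
    | zero => rfl
    | succ k ih =>
      rw [iterate_succ_apply', ih, Q.pows, Q.pows, List.range_succ_eq_map]
      simp [pow_succ, Function.comp_def]

end Pool.Agent.P.MP_9cbceb_lc.Q
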