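import Pool.Agent.P.MP_9cbceb_lc.Q.Tools

/-! The list programs compute the points of the gadget. -/

namespace Pool.Agent.P.MP_9cbceb_lc.Q

open Pool.Agent.Lib.helper21 Finset

section

variable {α : Type} {N n H r K : ℕ}

theorem pt_getD (f : Fin n → α) (d : α) (k : Fin n) : (List.ofFn f).getD k d = f k := by
  rw [List.getD_eq_getElem _ _ (by simp)]
  simp

theorem pt_map (F : ℕ → α) (f : Fin n → α) (h : ∀ k : Fin n, F k = f k) :
    (List.range n).map F = List.ofFn f :=
  List.ext_getElem (by simp) fun i h1 _ => by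
    simpa using h ⟨i, by simpa using h1⟩

theorem pt_val (a p : Fin N) : ((finProdFinEquiv (a, p) : Fin (N * N)) : ℕ) = a * N + p := by
  simp [finProdFinEquiv, mul_comm, add_comm]

theorem pt_div (a p : Fin N) : (a * N + p : ℕ) / N = a := by
  have := p.2
  rw [mul_comm, Nat.mul_add_div (by omega), Nat.div_eq_of_lt this, add_zero]

theorem pt_mod (a p : Fin N) : (a * N + p : ℕ) % N = p := by
  rw [mul_comm, Nat.mul_add_mod, Nat.mod_eq_of_lt p.2]

/-- the list of a table -/
def ptX (X : Fin N → Fin N → α) : List α :=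
  List.ofFn fun k : Fin (N * N) => X (finProdFinEquiv.symm k).1 (finProdFinEquiv.symm k).2

theorem pt_getX (X : Fin N → Fin N → α) (d : α) (a p : Fin N) :
    (ptX X).getD (a * N + p) d = X a p := by
  rw [← pt_val, ptX, pt_getD]
  simp

theorem pt_mapX (F : ℕ → α) (X : Fin N → Fin N → α) (h : ∀ a p : Fin N, F (a * N + p) = X a p) :
    (List.range (N * N)).map F = ptX X :=
  pt_map _ _ fun k => by
    obtain ⟨⟨a, p⟩, rfl⟩ := finProdFinEquiv.surjective k
    rw [pt_val, h]
    simp

theorem pt_encW (I : Ins2) (W : Fin N × Fin N → Fin I.length) (a p : Fin N) :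
    (encW I W).getD (a * N + p) (0, 0, []) = I[W (a, p)] :=
  pt_getX (fun a p => I[W (a, p)]) _ a p

theorem pt_vw (q : ℕ) (I : Ins2) (W : Fin N × Fin N → Fin I.length) :
    vwL N (encW I W) = ptX (view (gm q I) W) :=
  pt_mapX _ _ fun a p => by
    simp only [pt_div, pt_mod, pt_encW, view, gm]
    by_cases h : a < p
    · simp [h]
    · simp [h]

theorem pt_mk (R : Fin N → Bool) (A : Finset (Fin N)) (h : ∀ a, a ∈ A ↔ R a = true)
    (X : Fin N → Fin N → ℕ) : mkL N (List.ofFn R) (ptX X) = ptX (mask A X) :=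
  pt_mapX _ _ fun a p => by
    simp only [pt_div, pt_getX, pt_getD, mask, h]
    cases R a <;> simp

theorem pt_ins (R : Fin N → Bool) (a : Fin N) :
    insL N (List.ofFn R) a = List.ofFn fun b => R b || decide (b = a) :=
  pt_map _ _ fun b => by simp only [pt_getD, Fin.val_inj]

variable [NeZero H]

theorem pt_cast (x : ZMod H) (m : ℕ) : (x.val + m) % H = (x + m).val := by
  rw [ZMod.val_add, ZMod.val_natCast, Nat.add_mod_mod]

theorem pt_add (s : Tor (Fin n) H) (A : List ℕ) (B : Finset (Fin n))
    (h : ∀ c : Fin n, (c : ℕ) ∈ A ↔ c ∈ B) (β : Fin n → Bool) :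
    addL H n (encS s) A (List.ofFn β) = encS (s + bv H (res B β)) :=
  pt_map _ _ fun c => by
    have e : (A.any fun x => decide (x = c)) = decide (c ∈ B) := by
      rw [Bool.eq_iff_iff]
      simp [← h]
    simp only [encS, pt_getD, e, pt_cast, Pi.add_apply, bv, res]
    rcases Bool.eq_false_or_eq_true (β c && decide (c ∈ B)) with e' | e' <;> simp [e']

theorem pt_wk (s : Tor (Fin n) H) (ω : Fin K → Fin n → Bool) :
    wkL H n (encS s) (List.ofFn fun k => List.ofFn (ω k)) = encS (s + walk H ω) :=
  pt_map _ _ fun c => by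
    have e : (((List.ofFn fun k => List.ofFn (ω k)).countP fun β => β.getD c false : ℕ) : ZMod H) =
        walk H ω c := by
      rw [walk, Finset.sum_apply]
      induction K with
      | zero => simp
      | succ K ih =>
        rw [List.ofFn_succ, List.countP_cons, Fin.sum_univ_succ, Nat.cast_add, ih, pt_getD, add_comm]
        simp [bv]
    simp only [encS, pt_getD, pt_cast, Pi.add_apply, e]

end

section

variable {N H r : ℕ} (q : ℕ) (hN : 0 < N) (I : Ins2)

theorem pt_row (c : Fin (N * q ^ N)) : (c : ℕ) % N = (gad q N hN I).row c := rfl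

theorem pt_lab (c : Fin (N * q ^ N)) (p : Fin N) :
    labL N q (pows q N) c p = (gad q N hN I).lab c p := by
  rw [labL, pows_getD p.2]
  rfl

theorem pt_cl (W : Fin N × Fin N → Fin I.length) (c c' : Fin (N * q ^ N)) :
    clL N q (pows q N) (encW I W) c c' = true ↔ (gad q N hN I).Cl W c c' := by
  simp only [clL, pt_row q hN I, pt_lab q hN I, pt_encW, Gad.Cl, Lose, Bool.or_eq_true,
    decide_eq_true_eq, Fin.val_inj, Fin.val_fin_lt]
  refine or_congr Iff.rfl ?_
  by_cases h : (gad q N hN I).row c < (gad q N hN I).row c'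
  · rw [if_pos h, decide_eq_true h, cond_true, Bool.not_eq_true']
    rfl
  · rw [if_neg h, decide_eq_false h, cond_false, Bool.not_eq_true']
    rfl

theorem pt_mov (τ : Ty (Fin N) (Fin (N * q ^ N)) r H) (x : ℕ) :
    x ∈ movL N (N * q ^ N) (encT τ) ↔ ∃ c ∈ (gad q N hN I).mov τ, (c : ℕ) = x := by
  obtain ⟨b, b', a, t, R, j⟩ := τ
  cases b'
  · simp [movL, encT, Gad.mov]
  · simp only [movL, encT, Gad.mov, rowS, cond_true, List.mem_filter, List.mem_range,
      decide_eq_true_eq, if_true, mem_filter, mem_univ, true_and]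
    constructor
    · rintro ⟨h1, h2⟩
      exact ⟨⟨x, h1⟩, Fin.ext h2, rfl⟩
    · rintro ⟨c, h1, rfl⟩
      exact ⟨c.2, congrArg Fin.val h1⟩

variable [NeZero H]

theorem pt_shr (R : Fin N → Bool) (A : Finset (Fin N)) (h : ∀ a, a ∈ A ↔ R a = true) (a : Fin N)
    (j : ℕ) (s : Tor (Fin (N * q ^ N)) H) :
    shrL N (N * q ^ N) (List.ofFn R) a j (encS s) = encS ((gad q N hN I).shr A a j s) :=
  pt_map _ _ fun c => by
    simp only [encS, pt_getD, pt_row q hN I, Gad.shr, h, Fin.val_inj]
    cases R ((gad q N hN I).row c)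
    · by_cases e : (gad q N hN I).row c = a
      · simp only [e, decide_true, cond_true, cond_false, Bool.false_eq_true, if_false, if_true]
        rw [ZMod.val_natCast, Nat.mod_eq_of_lt ((min_le_left _ _).trans_lt (ZMod.val_lt _))]
      · simp [e]
    · simp

end

theorem pt_ok : PtSt := by
  intro I q N r H K _ hN
  refine ⟨fun τ y => ?_, fun d => ⟨?_, ?_⟩⟩
  · have hm := pt_mov q hN I τ
    obtain ⟨b, b', a, t, R, j⟩ := τ
    obtain ⟨W, s, β⟩ := y
    have hR : ∀ a', a' ∈ Ty.rows (b, b', a, t, R, j) ↔ R a' = true := fun a' => by simp [Ty.rows]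
    cases b
    · constructor
      · exact Prod.ext ((congrArg _ (pt_vw q I W)).trans (pt_mk R _ hR _))
          (pt_shr q hN I R _ hR a _ s)
      · refine Prod.ext ?_ (pt_shr q hN I R _ hR a _ s)
        change mkL N (cond (decide ((j : ℕ) = 0)) (insL N (List.ofFn R) a) (List.ofFn R))
          (vwL N (encW I W)) = _
        rw [pt_vw q]
        by_cases e : (j : ℕ) = 0
        · simp only [Gad.p2, encP, e, decide_true, cond_true, pt_ins, if_true,
            Bool.false_eq_true, if_false]
          exact pt_mk _ _ (fun a' => by simp [hR, or_comm]) _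
        · simp only [Gad.p2, encP, e, decide_false, cond_false, Bool.false_eq_true, if_false]
          exact pt_mk _ _ hR _
    · refine ⟨Prod.ext (pt_vw q I W) rfl, Prod.ext (pt_vw q I W) ?_⟩
      set τ : Ty (Fin N) (Fin (N * q ^ N)) r H := (true, b', a, t, R, j)
      have e : ((movL N (N * q ^ N) (encT τ)).all fun c => (movL N (N * q ^ N) (encT τ)).all
          fun c' => clL N q (pows q N) (encW I W) c c') = true ↔
          ∀ c ∈ (gad q N hN I).mov τ, ∀ c' ∈ (gad q N hN I).mov τ, (gad q N hN I).Cl W c c' := by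
        simp only [List.all_eq_true, hm, forall_exists_index, and_imp,
          forall_apply_eq_imp_iff₂, pt_cl q hN I]
      change cond ((movL N (N * q ^ N) (encT τ)).all fun c => (movL N (N * q ^ N) (encT τ)).all
          fun c' => clL N q (pows q N) (encW I W) c c')
        (addL H (N * q ^ N) (encS s) (movL N (N * q ^ N) (encT τ)) (List.ofFn β)) (encS s) =
        encS ((gad q N hN I).p2 (τ, W, s, β)).2
      by_cases h : ∀ c ∈ (gad q N hN I).mov τ, ∀ c' ∈ (gad q N hN I).mov τ,
          (gad q N hN I).Cl W c c'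
      · rw [e.2 h, cond_true, pt_add s _ ((gad q N hN I).mov τ) (fun c => by
          simp [hm, Fin.val_inj]) β]
        simp only [Gad.p2, τ, if_true]
        rw [if_pos h]
      · rw [Bool.eq_false_iff.2 (mt e.1 h), cond_false]
        simp only [Gad.p2, τ, if_true]
        rw [if_neg h]
  · exact Prod.ext (pt_vw q I d.1) (pt_wk d.2.1 d.2.2.1)
  · exact Prod.ext (pt_vw q I d.1) (pt_wk d.2.1 d.2.2.2)

end Pool.Agent.P.MP_9cbceb_lc.Q
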