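import Pool.Agent.P.MP_9cbceb_lc.Q.DB

/-! Tools for enumerations and codes. -/

namespace Pool.Agent.P.MP_9cbceb_lc.Q

open Pool.Agent.Lib.helper21 Pool.Agent.Lib.helper26 Finset

section

variable {α β A B : Type} [Fintype A] [Fintype B]

theorem Enum.self (L : List α) : Enum L fun i : Fin L.length => L[i] := fun F =>
  (Fin.sum_univ_fun_getElem L F).symm

theorem Enum.range (n : ℕ) : Enum (List.range n) fun i : Fin n => (i : ℕ) := fun F => by
  rw [Fin.sum_univ_eq_sum_range, ← List.sum_toFinset _ List.nodup_range, List.toFinset_range]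

theorem Enum.bool : Enum [true, false] fun b : Bool => b := fun F => by simp

theorem Enum.equiv {L : List α} {f : A → α} (h : Enum L f) (e : B ≃ A) :
    Enum L fun b => f (e b) := fun F => (h F).trans (e.sum_comp fun a => F (f a)).symm

theorem Enum.congr {L : List α} {f g : A → α} (h : Enum L f) (e : ∀ a, f a = g a) : Enum L g :=
  (funext e : f = g) ▸ h

theorem Enum.zmod (H : ℕ) [NeZero H] : Enum (List.range H) fun x : ZMod H => x.val :=
  ((Enum.range H).equiv (ZMod.finEquiv H).symm.toEquiv).congr fun x => by
    obtain ⟨k, rfl⟩ := Nat.exists_eq_succ_of_ne_zero (NeZero.ne H)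
    rfl

theorem Enum.map {L : List α} {f : A → α} (h : Enum L f) (g : α → β) :
    Enum (L.map g) fun a => g (f a) := fun F => by
  rw [List.map_map]; exact h _

theorem Enum.length {L : List α} {f : A → α} (h : Enum L f) : L.length = Fintype.card A := by
  simpa using h fun _ => 1

theorem Enum.countP {L : List α} {f : A → α} (h : Enum L f) (p : α → Bool) :
    L.countP p = #{a | p (f a) = true} := by
  rw [card_filter, ← h fun x => if p x = true then 1 else 0]
  clear h
  induction L with
  | nil => rfl
  | cons x L ih => rw [List.countP_cons, List.map_cons, List.sum_cons, ih, add_comm]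

theorem Enum.flat {L : List α} {f : A → α} (h : Enum L f) (G : α → List β) (F : β → ℕ) :
    ((L.flatMap G).map F).sum = ∑ a, ((G (f a)).map F).sum := by
  rw [← h fun x => ((G x).map F).sum, List.map_flatMap, List.flatMap_def, List.sum_flatten,
    List.map_map]
  rfl

theorem Enum.cnt {L : List α} {f : A → α} (h : Enum L f) (G : α → Prs) (S : ℕ → Bool) :
    cnt S (L.flatMap G) = ∑ a, cnt S (G (f a)) := by
  rw [conc_cnt_list, h]

theorem Enum.prd {L : List α} {M : List β} {f : A → α} {g : B → β} (h : Enum L f)
    (h' : Enum M g) : Enum (prd L M) fun p : A × B => (f p.1, g p.2) := fun F => by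
  rw [Q.prd, h.flat, Fintype.sum_prod_type]
  exact sum_congr rfl fun a _ => (h'.map fun b => (f a, b)) F

theorem Enum.tup {L : List α} {f : A → α} (h : Enum L f) :
    ∀ k, Enum (conc_tup L k) fun x : Fin k → A => List.ofFn fun i => f (x i)
  | 0 => fun F => by simp [conc_tup]
  | k + 1 => fun F => by
    rw [conc_tup, h.flat, ← (Fin.consEquiv fun _ => A).sum_comp, Fintype.sum_prod_type]
    refine sum_congr rfl fun a _ => (((Enum.tup h k).map (f a :: ·)) F).trans ?_
    exact sum_congr rfl fun x _ => by simp [Fin.consEquiv, List.ofFn_succ]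

theorem Enum.mem {L : List α} {f : A → α} (h : Enum L f) (a : A) : f a ∈ L := by
  classical
  have h1 := h.countP fun x => decide (x = f a)
  have h2 : 0 < L.countP fun x => decide (x = f a) :=
    h1 ▸ card_pos.2 ⟨a, by simp⟩
  obtain ⟨x, hx, e⟩ := List.countP_pos_iff.1 h2
  exact (of_decide_eq_true e) ▸ hx

theorem Enum.exists {L : List α} {f : A → α} (h : Enum L f) {x : α} (hx : x ∈ L) :
    ∃ a, f a = x := by
  classical
  have h1 := h.countP fun y => decide (y = x)
  have h2 : 0 < L.countP fun y => decide (y = x) := List.countP_pos_iff.2 ⟨x, hx, by simp⟩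
  obtain ⟨a, ha⟩ := card_pos.1 (h1 ▸ h2)
  exact ⟨a, by simpa using ha⟩

end

theorem cod_pows (b n : ℕ) (l : List ℕ) (h : l.length ≤ n) :
    cod (pows b n) l = Nat.ofDigits b l := by
  rw [Nat.ofDigits_eq_sum_mapIdx, cod]
  congr 1
  refine List.ext_getElem (by simp) fun i h1 h2 => ?_
  have h3 : i < l.length := by simpa using h1
  simp only [List.getElem_map, List.getElem_range, List.getElem_mapIdx]
  rw [pows_getD (by omega), List.getD_eq_getElem _ _ h3]

theorem cod_inj {b n : ℕ} : ∀ {l l' : List ℕ}, l.length = l'.length → l.length ≤ n →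
    (∀ x ∈ l, x < b) → (∀ x ∈ l', x < b) → cod (pows b n) l = cod (pows b n) l' → l = l' := by
  intro l l' h1 h2 h3 h4 h5
  rw [cod_pows _ _ _ h2, cod_pows _ _ _ (h1 ▸ h2)] at h5
  clear h2
  induction l generalizing l' with
  | nil => exact (List.length_eq_zero_iff.1 h1.symm).symm
  | cons x l ih =>
    cases l' with
    | nil => simp at h1
    | cons y l' =>
      have hx := h3 x List.mem_cons_self
      have hy := h4 y List.mem_cons_self
      rw [Nat.ofDigits_cons, Nat.ofDigits_cons] at h5
      have e1 : x = y := by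
        have := congrArg (· % b) h5
        simpa [Nat.mod_eq_of_lt hx, Nat.mod_eq_of_lt hy] using this
      subst e1
      rw [ih (by simpa using h1) (fun z hz => h3 z (List.mem_cons_of_mem _ hz))
        (fun z hz => h4 z (List.mem_cons_of_mem _ hz))
        (Nat.eq_of_mul_eq_mul_left (by omega) (Nat.add_left_cancel h5))]

section

variable {α β γ : Type} [Enc α] [Enc β] [Enc γ]

@[fun_prop] theorem PT_cod {f g : α → List ℕ} (hf : PT f) (hg : PT g) :
    PT fun a => cod (f a) (g a) := by
  unfold cod
  fun_prop

@[fun_prop] theorem PT_prd {f : α → List β} {g : α → List γ} (hf : PT f) (hg : PT g) :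
    PT fun a => prd (f a) (g a) := by
  unfold prd
  fun_prop

@[fun_prop] theorem PT_min {f g : α → ℕ} (hf : PT f) (hg : PT g) : PT fun a => min (f a) (g a) :=
  PT.of_eq (f := fun a => cond (decide (f a ≤ g a)) (f a) (g a)) (by fun_prop) fun a => by
    by_cases h : f a ≤ g a
    · simp [h]
    · simp [h, min_eq_right (not_le.1 h).le]

end

theorem tysL_length (N n r H : ℕ) : (tysL N n r H).length = 4 * N * n ^ r * 2 ^ N * H := by
  rw [tysL, (Enum.bool.prd (Enum.bool.prd ((Enum.range N).prd (((Enum.range n).tup r).prd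
    ((Enum.bool.tup N).prd (Enum.range H)))))).length]
  simp only [Fintype.card_prod, Fintype.card_bool, Fintype.card_fin, Fintype.card_fun]
  ring

end Pool.Agent.P.MP_9cbceb_lc.Q
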